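import Pool.Agent.H49.G.R_seed8.TH823.PS.Major
import Pool.Agent.H49.G.R_seed8.W93.LM4

set_option autoImplicit false

/-!
# The sum of the squares of an exponential sum over a set of frequencies
-/

open Finset MeasureTheory
open scoped Real
open Pool.Agent.Helper112 Pool.Agent.W66 Pool.Agent.W66L

namespace Pool.Agent.TH823.PS

lemma ee_eq (x : ℝ) : Pool.Agent.H807R2.Dav.ee x = ee x := by
  unfold Pool.Agent.H807R2.Dav.ee ee
  congr 1
  ring

lemma ee_add' (x y : ℝ) : ee (x + y) = ee x * ee y := by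
  unfold ee
  rw [← Complex.exp_add]
  congr 1
  push_cast; ring

/-- **the sum over a set of frequencies** -/
theorem arcs {f : ℕ → ℂ} (hf : ∀ n, ‖f n‖ ≤ 1) {C : ℝ} {e Q X z N : ℕ}
    (hPP : Pool.Agent.W93.LM.PP f C e X Q) (hz : 1 ≤ z) (hzX : z ≤ X) (hXN : X ≤ N) (hQ : 1 ≤ Q)
    {h : ℝ} (h0 : 0 < h) (h1 : h ≤ 1) (K : Finset ℕ) (hK : K ⊆ range X) :
    ∑ k ∈ K, ‖∑ n ∈ Icc 1 X, f n * ee (n * ((k : ℝ) / X))‖ ^ 2 ≤
      K.card * (C * Real.log X ^ e * X / √(Q : ℝ)) ^ 2 +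
      2 * K.card * (z + 4 + 18 * h * X + 4 * π * h * Q * X) ^ 2 +
      2 * (X * ∫ x in Set.Iic (Real.log X), Real.exp x * EE h Q (Ioc z N) (fun n => f n / n) x) := by
  classical
  have hX : 0 < X := by omega
  have hX0 : (0 : ℝ) < X := by exact_mod_cast hX
  have hQ0 : (0 : ℝ) < Q := by exact_mod_cast (by omega : 0 < Q)
  set Maj : ℕ → Prop := fun k => ∃ (q : ℕ) (c : ℤ), Pool.Agent.W93.LM.MajAt X Q ((k : ℝ) / X) q c with hMaj
  have hex : ∀ k : ℕ, ∃ (q : ℕ) (c : ℤ), Maj k → Pool.Agent.W93.LM.MajAt X Q ((k : ℝ) / X) q c := by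
    intro k
    by_cases hk : Maj k
    · obtain ⟨q, c, hqc⟩ := hk
      exact ⟨q, c, fun _ => hqc⟩
    · exact ⟨0, 0, fun h' => absurd h' hk⟩
  choose qf cf hqc using hex
  set KM := K.filter Maj with hKM
  set Km := K.filter (fun k => ¬ Maj k) with hKm
  have hsplit : ∑ k ∈ K, ‖∑ n ∈ Icc 1 X, f n * ee (n * ((k : ℝ) / X))‖ ^ 2 =
      ∑ k ∈ KM, ‖∑ n ∈ Icc 1 X, f n * ee (n * ((k : ℝ) / X))‖ ^ 2 +
      ∑ k ∈ Km, ‖∑ n ∈ Icc 1 X, f n * ee (n * ((k : ℝ) / X))‖ ^ 2 :=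
    (sum_filter_add_sum_filter_not K Maj _).symm
  -- minor arcs
  have hlogX : 0 ≤ Real.log X := Real.log_natCast_nonneg X
  have hminor : ∑ k ∈ Km, ‖∑ n ∈ Icc 1 X, f n * ee (n * ((k : ℝ) / X))‖ ^ 2 ≤
      K.card * (C * Real.log X ^ e * X / √(Q : ℝ)) ^ 2 := by
    have h2 : ∀ k ∈ Km, ‖∑ n ∈ Icc 1 X, f n * ee (n * ((k : ℝ) / X))‖ ^ 2 ≤
        (C * Real.log X ^ e * X / √(Q : ℝ)) ^ 2 := by
      intro k hk
      rw [hKm, mem_filter] at hk
      have h3 := (hPP ((k : ℝ) / X)).2 hk.2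
      simp only [ee_eq] at h3
      exact pow_le_pow_left₀ (norm_nonneg _) h3 2
    refine (sum_le_sum h2).trans ?_
    rw [sum_const, nsmul_eq_mul]
    apply mul_le_mul_of_nonneg_right _ (by positivity)
    exact_mod_cast card_filter_le _ _
  -- major arcs
  set Er : ℝ := z + 4 + 18 * h * X + 4 * π * h * Q * X with hEr
  set af : ℕ → ℕ := fun k => (cf k % (qf k : ℤ)).toNat with haf
  set mf : ℕ → ℤ := fun k => cf k / (qf k : ℤ) with hmf
  set βf : ℕ → ℝ := fun k => (k : ℝ) / X - (cf k : ℝ) / qf k with hβf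
  set qa : ℕ → (_ : ℕ) × ℕ := fun k => ⟨qf k, af k⟩ with hqa
  have hbase : ∀ k ∈ KM, 1 ≤ qf k ∧ qf k ≤ Q ∧ af k ∈ rr (qf k) ∧ (cf k : ℤ) = af k + qf k * mf k ∧
      |βf k| ≤ Q / X := by
    intro k hk
    rw [hKM, mem_filter] at hk
    obtain ⟨g1, g2, g3, g4⟩ := hqc k hk.2
    have hq0 : (0 : ℤ) < qf k := by exact_mod_cast (by omega : 0 < qf k)
    have hm0 : 0 ≤ cf k % (qf k : ℤ) := Int.emod_nonneg _ hq0.ne'
    have hcast : ((af k : ℕ) : ℤ) = cf k % (qf k : ℤ) := by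
      rw [haf]; exact Int.toNat_of_nonneg hm0
    refine ⟨g1, g3, ?_, ?_, ?_⟩
    · unfold rr
      rw [mem_filter, mem_range]
      constructor
      · have := Int.emod_lt_of_pos (cf k) hq0
        rw [← hcast] at this
        exact_mod_cast this
      · rw [← Nat.isCoprime_iff_coprime, hcast]
        obtain ⟨u, v, huv⟩ := g2
        refine ⟨u, v + u * (cf k / (qf k : ℤ)), ?_⟩
        have h5 := Int.emod_add_mul_ediv (cf k) (qf k : ℤ)
        calc u * (cf k % (qf k : ℤ)) + (v + u * (cf k / (qf k : ℤ))) * (qf k : ℤ) =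
            u * (cf k % (qf k : ℤ) + (qf k : ℤ) * (cf k / (qf k : ℤ))) + v * (qf k : ℤ) := by ring
          _ = 1 := by rw [h5]; exact huv
    · rw [hcast, hmf]
      exact (Int.emod_add_mul_ediv (cf k) (qf k : ℤ)).symm
    · rw [le_div_iff₀ hX0]
      have h5 : (1 : ℝ) ≤ qf k := by exact_mod_cast g1
      have h6 : 0 ≤ X * |βf k| := by positivity
      have h7 : X * |βf k| ≤ qf k * (X * |βf k|) := le_mul_of_one_le_left h6 h5
      have h8 : (qf k : ℝ) * (X * |βf k|) ≤ Q := g4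
      linarith
  have hcr : ∀ k ∈ KM, (cf k : ℝ) / qf k = (af k : ℝ) / qf k + mf k := by
    intro k hk
    obtain ⟨g1, _, _, g4, _⟩ := hbase k hk
    have hq0 : (0 : ℝ) < qf k := by exact_mod_cast (by omega : 0 < qf k)
    have : (cf k : ℝ) = af k + qf k * mf k := by exact_mod_cast g4
    rw [this]; field_simp
  have hnear : ∀ k ∈ KM, ‖∑ n ∈ Icc 1 X, f n * ee (n * ((k : ℝ) / X)) -
      WI h (Real.log X) (βf k) (Ioc z N) (fun n => f n / n * ee (n * (qa k).2 / (qa k).1))‖ ≤ Er := by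
    intro k hk
    obtain ⟨g1, g2, g3, g4, g5⟩ := hbase k hk
    have h2 := sum_near hf hz hzX hXN h0 h1 (β := βf k) ((af k : ℝ) / qf k) _ rfl
    have e2 : ∑ n ∈ Icc 1 X, f n * ee (n * ((k : ℝ) / X)) =
        ∑ n ∈ Icc 1 X, f n * ee (n * ((af k : ℝ) / qf k + βf k)) := by
      apply sum_congr rfl
      intro n _
      congr 1
      have h3 : (n : ℝ) * ((k : ℝ) / X) = n * ((af k : ℝ) / qf k + βf k) + ((n * mf k : ℤ) : ℝ) := by
        have h4 : βf k = (k : ℝ) / X - (cf k : ℝ) / qf k := rfl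
        rw [h4, hcr k hk]
        push_cast; ring
      rw [h3, ee_add', ee_int', mul_one]
    have e3 : (fun n : ℕ => f n / n * ee (n * ((af k : ℝ) / qf k))) =
        (fun n : ℕ => f n / n * ee (n * (qa k).2 / (qa k).1)) := by
      ext n
      rw [hqa]
      simp only
      rw [mul_div_assoc]
    rw [e2, ← e3]
    refine h2.trans ?_
    rw [hEr]
    have h5 : 4 * π * h * |βf k| * (X : ℝ) ^ 2 ≤ 4 * π * h * Q * X := by
      have h6 : |βf k| * (X : ℝ) ^ 2 ≤ Q * X := by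
        have := mul_le_mul_of_nonneg_right g5 (by positivity : 0 ≤ (X : ℝ) ^ 2)
        refine this.trans (le_of_eq ?_)
        field_simp
      have h7 := mul_le_mul_of_nonneg_left h6 (by positivity : 0 ≤ 4 * π * h)
      linarith
    linarith
  have hgrp := group_ineq KM qa βf (F := Q) hX (by
      intro k hk
      obtain ⟨g1, g2, g3, _, _⟩ := hbase k hk
      rw [hqa, mem_sigma, mem_Icc]
      exact ⟨⟨g1, g2⟩, g3⟩) (by
      intro k hk l hl hkl hq
      have hq1 : qf k = qf l := congrArg Sigma.fst hq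
      have hq2 : af k = af l := by
        have : (qa k).2 = (qa l).2 := by rw [hq]
        exact this
      have hkX := mem_range.1 (hK (mem_filter.1 hk).1)
      have hlX := mem_range.1 (hK (mem_filter.1 hl).1)
      refine ⟨(k : ℤ) - l - X * (mf k - mf l), ?_, ?_⟩
      · intro h2
        have h3 : (k : ℤ) - l = X * (mf k - mf l) := by linarith
        have h4 : (X : ℤ) ∣ (k : ℤ) - l := ⟨_, h3⟩
        have h5 : |(k : ℤ) - l| < X := by rw [abs_lt]; constructor <;> omega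
        have h6 := Int.eq_zero_of_abs_lt_dvd h4 h5
        omega
      · have h4 : βf k = (k : ℝ) / X - (cf k : ℝ) / qf k := rfl
        have h5 : βf l = (l : ℝ) / X - (cf l : ℝ) / qf l := rfl
        rw [h4, h5, hcr k hk, hcr l hl, hq1, hq2]
        push_cast
        field_simp
        ring) h0 (Ioc z N) (fun n => f n / n)
  have hmajor : ∑ k ∈ KM, ‖∑ n ∈ Icc 1 X, f n * ee (n * ((k : ℝ) / X))‖ ^ 2 ≤
      2 * K.card * Er ^ 2 +
      2 * (X * ∫ x in Set.Iic (Real.log X), Real.exp x * EE h Q (Ioc z N) (fun n => f n / n) x) := by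
    have h2 : ∀ k ∈ KM, ‖∑ n ∈ Icc 1 X, f n * ee (n * ((k : ℝ) / X))‖ ^ 2 ≤ 2 * Er ^ 2 +
        2 * ‖WI h (Real.log X) (βf k) (Ioc z N) (fun n => f n / n * ee (n * (qa k).2 / (qa k).1))‖ ^ 2 := by
      intro k hk
      set u := ∑ n ∈ Icc 1 X, f n * ee (n * ((k : ℝ) / X))
      set v := WI h (Real.log X) (βf k) (Ioc z N) (fun n => f n / n * ee (n * (qa k).2 / (qa k).1))
      have h3 : ‖u‖ ≤ ‖u - v‖ + ‖v‖ := by
        have := norm_add_le (u - v) v
        rwa [sub_add_cancel] at this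
      have h4 : ‖u - v‖ ≤ Er := hnear k hk
      have h5 : ‖u‖ ≤ Er + ‖v‖ := by linarith
      have h6 := pow_le_pow_left₀ (norm_nonneg _) h5 2
      nlinarith [sq_nonneg (Er - ‖v‖)]
    refine (sum_le_sum h2).trans ?_
    rw [sum_add_distrib, sum_const, nsmul_eq_mul, ← mul_sum]
    apply add_le_add
    · have h3 : (KM.card : ℝ) ≤ K.card := by exact_mod_cast card_filter_le _ _
      have h4 := mul_le_mul_of_nonneg_right h3 (by positivity : 0 ≤ 2 * Er ^ 2)
      linarith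
    · exact mul_le_mul_of_nonneg_left hgrp (by norm_num)
  rw [hsplit]
  linarith

end Pool.Agent.TH823.PS
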