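import Pool.Agent.H49.G.R_seed8.TH823.PS.Major
import Pool.Agent.H49.G.R_seed8.H373R2.T7.BilF

set_option autoImplicit false

/-!
# Correlations and exponential sums at the points `k / X`
-/

open Finset
open scoped Real
open Pool.Agent.Helper112

namespace Pool.Agent.TH823.PS

lemma dav_ee (x : ℝ) : Pool.Agent.H807R2.Dav.ee x = ee x := by
  unfold Pool.Agent.H807R2.Dav.ee ee
  congr 1
  ring

lemma ee_mul_add (x y : ℝ) : ee x * ee y = ee (x + y) := by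
  unfold ee
  rw [← Complex.exp_add]
  congr 1
  push_cast; ring

lemma conj_ee (x : ℝ) : (starRingEnd ℂ) (ee x) = ee (-x) := by
  unfold ee
  rw [← Complex.exp_conj]
  congr 1
  rw [show (2 * π * (x : ℂ) * Complex.I : ℂ) = ((2 * π * x : ℝ) : ℂ) * Complex.I by push_cast; ring,
    map_mul, Complex.conj_ofReal, Complex.conj_I]
  push_cast
  ring

lemma orth' {X : ℕ} (hX : 0 < X) (j : ℤ) :
    ∑ k ∈ range X, ee ((j : ℝ) * ((k : ℝ) / X)) = if (X : ℤ) ∣ j then (X : ℂ) else 0 := by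
  rw [← Pool.Agent.H373R2.T7.orth X hX j]
  apply sum_congr rfl
  intro k _
  rw [dav_ee]
  congr 1
  ring

/-- Parseval's identity -/
lemma parseval {X : ℕ} (hX : 0 < X) {A : Finset ℕ} (hA : A ⊆ Icc 1 X) (a : ℕ → ℂ) :
    ∑ k ∈ range X, ‖∑ m ∈ A, a m * ee (m * ((k : ℝ) / X))‖ ^ 2 = X * ∑ m ∈ A, ‖a m‖ ^ 2 := by
  classical
  have e1 : ((∑ k ∈ range X, ‖∑ m ∈ A, a m * ee (m * ((k : ℝ) / X))‖ ^ 2 : ℝ) : ℂ) =
      ((X * ∑ m ∈ A, ‖a m‖ ^ 2 : ℝ) : ℂ) := by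
    push_cast
    have e2 : ∀ k ∈ range X, ((‖∑ m ∈ A, a m * ee (m * ((k : ℝ) / X))‖ : ℝ) : ℂ) ^ 2 =
        ∑ m ∈ A, ∑ n ∈ A, (a m * (starRingEnd ℂ) (a n)) * ee ((((m : ℤ) - n : ℤ) : ℝ) * ((k : ℝ) / X)) := by
      intro k _
      rw [← Complex.mul_conj', map_sum, sum_mul_sum]
      apply sum_congr rfl
      intro m _
      apply sum_congr rfl
      intro n _
      rw [map_mul, conj_ee]
      have : ee ((((m : ℤ) - n : ℤ) : ℝ) * ((k : ℝ) / X)) =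
          ee (m * ((k : ℝ) / X)) * ee (-(n * ((k : ℝ) / X))) := by
        rw [ee_mul_add]
        congr 1
        push_cast; ring
      rw [this]
      ring
    rw [sum_congr rfl e2, sum_comm]
    rw [mul_sum]
    apply sum_congr rfl
    intro m hm
    rw [sum_comm, sum_eq_single m]
    · rw [← mul_sum, orth' hX, if_pos (by simp), Complex.mul_conj']
      ring
    · intro n hn hnm
      rw [← mul_sum, orth' hX, if_neg, mul_zero]
      intro hd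
      have hm' := mem_Icc.1 (hA hm)
      have hn' := mem_Icc.1 (hA hn)
      have h5 : |(m : ℤ) - n| < X := by rw [abs_lt]; constructor <;> omega
      have h6 := Int.eq_zero_of_abs_lt_dvd hd h5
      omega
    · intro h; exact absurd hm h
  exact_mod_cast e1

/-- the trilinear identity -/
lemma trilinear {N : ℕ} (hN : 0 < N) {E : Finset ℕ} (hE : E ⊆ Icc 1 N) (f g c : ℕ → ℂ) :
    ((2 * N : ℕ) : ℂ) * ∑ h ∈ E, c h * ∑ n ∈ Icc 1 N, g n * f (n + h) =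
      ∑ k ∈ range (2 * N), (∑ m ∈ Icc 1 (2 * N), f m * ee (m * ((k : ℝ) / (2 * N : ℕ)))) *
        (∑ n ∈ Icc 1 N, g n * ee (-(n * ((k : ℝ) / (2 * N : ℕ))))) *
        (∑ h ∈ E, c h * ee (-(h * ((k : ℝ) / (2 * N : ℕ))))) := by
  classical
  set X := 2 * N with hX
  have hX0 : 0 < X := by omega
  have e1 : ∀ k ∈ range X, (∑ m ∈ Icc 1 X, f m * ee (m * ((k : ℝ) / X))) *
        (∑ n ∈ Icc 1 N, g n * ee (-(n * ((k : ℝ) / X)))) *
        (∑ h ∈ E, c h * ee (-(h * ((k : ℝ) / X)))) =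
      ∑ h ∈ E, ∑ n ∈ Icc 1 N, ∑ m ∈ Icc 1 X, (c h * g n * f m) *
        ee ((((m : ℤ) - n - h : ℤ) : ℝ) * ((k : ℝ) / X)) := by
    intro k _
    rw [mul_comm, sum_mul]
    apply sum_congr rfl
    intro h _
    rw [mul_comm (∑ m ∈ Icc 1 X, f m * ee (m * ((k : ℝ) / X))), sum_mul, mul_sum]
    apply sum_congr rfl
    intro n _
    rw [mul_sum, mul_sum]
    apply sum_congr rfl
    intro m _
    have : ee ((((m : ℤ) - n - h : ℤ) : ℝ) * ((k : ℝ) / X)) =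
        ee (m * ((k : ℝ) / X)) * ee (-(n * ((k : ℝ) / X))) * ee (-(h * ((k : ℝ) / X))) := by
      rw [ee_mul_add, ee_mul_add]
      congr 1
      push_cast; ring
    rw [this]
    ring
  rw [sum_congr rfl e1, sum_comm, mul_sum]
  apply sum_congr rfl
  intro h hh
  rw [sum_comm, mul_sum, mul_sum]
  apply sum_congr rfl
  intro n hn
  have hh' := mem_Icc.1 (hE hh)
  have hn' := mem_Icc.1 hn
  rw [sum_comm, sum_eq_single (n + h)]
  · rw [← mul_sum, orth' hX0, if_pos (by simp)]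
    ring
  · intro m hm hmn
    have hm' := mem_Icc.1 hm
    rw [← mul_sum, orth' hX0, if_neg, mul_zero]
    intro hd
    have h5 : |(m : ℤ) - n - h| < X := by rw [abs_lt]; constructor <;> omega
    have h6 := Int.eq_zero_of_abs_lt_dvd hd h5
    omega
  · intro h2
    exact absurd (mem_Icc.2 (by omega)) h2

/-- **large correlations for many shifts** -/
theorem corr_bound {f g : ℕ → ℂ} (hf : ∀ n, ‖f n‖ ≤ 1) {N : ℕ} (hN : 0 < N)
    (hg : ∑ n ∈ Icc 1 N, ‖g n‖ ^ 2 ≤ N)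
    {E : Finset ℕ} (hE : E ⊆ Icc 1 N) {ε : ℝ} (hε : 0 < ε)
    (hbig : ∀ h ∈ E, ε * N ≤ ‖∑ n ∈ Icc 1 N, g n * f (n + h)‖) (J : ℕ)
    (hK : ∀ K ⊆ range (2 * N), K.card ≤ J →
      ∑ k ∈ K, ‖∑ m ∈ Icc 1 (2 * N), f m * ee (m * ((k : ℝ) / (2 * N : ℕ)))‖ ^ 2 ≤
        ε ^ 2 / 16 * ((2 * N : ℕ) : ℝ) ^ 2) :
    ε ^ 2 * J * E.card ≤ 32 * N := by
  classical
  by_contra hcon
  push Not at hcon
  have hN0 : (0 : ℝ) < N := by exact_mod_cast hN
  have hE0 : (0 : ℝ) < E.card := by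
    rcases Nat.eq_zero_or_pos E.card with h | h
    · rw [h] at hcon; simp at hcon; linarith
    · exact_mod_cast h
  set X := 2 * N with hX
  have hXN : (X : ℝ) = 2 * N := by rw [hX]; push_cast; ring
  have hX0 : 0 < X := by omega
  have hXr : (0 : ℝ) < X := by exact_mod_cast hX0
  set S : ℕ → ℂ := fun h => ∑ n ∈ Icc 1 N, g n * f (n + h) with hS
  set c : ℕ → ℂ := fun h => (starRingEnd ℂ) (S h) / ‖S h‖ with hc
  have hSpos : ∀ h ∈ E, 0 < ‖S h‖ := fun h hh => lt_of_lt_of_le (by positivity) (hbig h hh)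
  have hc1 : ∀ h ∈ E, ‖c h‖ = 1 := by
    intro h hh
    have := hSpos h hh
    rw [hc]
    simp only
    rw [norm_div, RCLike.norm_conj, Complex.norm_real, norm_norm, div_self this.ne']
  have hcS : ∀ h ∈ E, c h * S h = ‖S h‖ := by
    intro h hh
    have h1 := hSpos h hh
    have h2 : ((‖S h‖ : ℝ) : ℂ) ≠ 0 := by exact_mod_cast h1.ne'
    rw [hc]
    simp only
    rw [div_mul_eq_mul_div, Complex.conj_mul', sq, mul_div_assoc, div_self h2, mul_one]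
  have htri := trilinear hN hE f g c
  rw [← hX] at htri
  set Ff : ℕ → ℂ := fun k => ∑ m ∈ Icc 1 X, f m * ee (m * ((k : ℝ) / X)) with hFf
  set Gf : ℕ → ℂ := fun k => ∑ n ∈ Icc 1 N, g n * ee (-(n * ((k : ℝ) / X))) with hGf
  set Hf : ℕ → ℂ := fun k => ∑ h ∈ E, c h * ee (-(h * ((k : ℝ) / X))) with hHf
  have hlow : (X : ℝ) * (ε * N * E.card) ≤ ∑ k ∈ range X, ‖Ff k‖ * ‖Gf k‖ * ‖Hf k‖ := by
    have h1 : ∑ h ∈ E, c h * S h = ((∑ h ∈ E, ‖S h‖ : ℝ) : ℂ) := by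
      push_cast
      exact sum_congr rfl hcS
    have h2 : (X : ℝ) * ∑ h ∈ E, ‖S h‖ = ‖∑ k ∈ range X, Ff k * Gf k * Hf k‖ := by
      have h3 : ∑ k ∈ range X, Ff k * Gf k * Hf k = (X : ℂ) * ((∑ h ∈ E, ‖S h‖ : ℝ) : ℂ) := by
        rw [← h1]; exact htri.symm
      rw [h3, norm_mul, Complex.norm_natCast, Complex.norm_real,
        Real.norm_of_nonneg (sum_nonneg fun _ _ => norm_nonneg _)]
    have h4 : ε * N * E.card ≤ ∑ h ∈ E, ‖S h‖ := by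
      have := sum_le_sum hbig
      rw [sum_const, nsmul_eq_mul] at this
      linarith
    calc (X : ℝ) * (ε * N * E.card) ≤ X * ∑ h ∈ E, ‖S h‖ := mul_le_mul_of_nonneg_left h4 hXr.le
      _ = _ := h2
      _ ≤ ∑ k ∈ range X, ‖Ff k * Gf k * Hf k‖ := norm_sum_le _ _
      _ = _ := by
          apply sum_congr rfl
          intro k _
          rw [norm_mul, norm_mul]
  -- Parseval
  have pF : ∑ k ∈ range X, ‖Ff k‖ ^ 2 ≤ (X : ℝ) ^ 2 := by
    rw [parseval hX0 Subset.rfl, sq]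
    apply mul_le_mul_of_nonneg_left _ hXr.le
    calc ∑ m ∈ Icc 1 X, ‖f m‖ ^ 2 ≤ ∑ m ∈ Icc 1 X, (1 : ℝ) :=
          sum_le_sum fun m _ => pow_le_one₀ (norm_nonneg _) (hf m)
      _ = X := by simp
  have conjv : ∀ (A : Finset ℕ) (a : ℕ → ℂ) (k : ℕ),
      ‖∑ n ∈ A, a n * ee (-(n * ((k : ℝ) / X)))‖ =
        ‖∑ n ∈ A, (starRingEnd ℂ) (a n) * ee (n * ((k : ℝ) / X))‖ := by
    intro A a k
    rw [← RCLike.norm_conj (∑ n ∈ A, a n * ee (-(n * ((k : ℝ) / X)))), map_sum]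
    congr 1
    apply sum_congr rfl
    intro n _
    rw [map_mul, conj_ee, neg_neg]
  have pG : ∑ k ∈ range X, ‖Gf k‖ ^ 2 ≤ X * N := by
    have h1 : ∑ k ∈ range X, ‖Gf k‖ ^ 2 =
        ∑ k ∈ range X, ‖∑ n ∈ Icc 1 N, (starRingEnd ℂ) (g n) * ee (n * ((k : ℝ) / X))‖ ^ 2 :=
      sum_congr rfl fun k _ => by rw [← conjv]
    rw [h1, parseval hX0 (Icc_subset_Icc_right (by omega))]
    apply mul_le_mul_of_nonneg_left _ hXr.le
    simp only [RCLike.norm_conj]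
    exact hg
  have pH : ∑ k ∈ range X, ‖Hf k‖ ^ 2 = X * E.card := by
    have h1 : ∑ k ∈ range X, ‖Hf k‖ ^ 2 =
        ∑ k ∈ range X, ‖∑ h ∈ E, (starRingEnd ℂ) (c h) * ee (h * ((k : ℝ) / X))‖ ^ 2 :=
      sum_congr rfl fun k _ => by rw [← conjv]
    rw [h1, parseval hX0 (hE.trans (Icc_subset_Icc_right (by omega)))]
    congr 1
    calc ∑ m ∈ E, ‖(starRingEnd ℂ) (c m)‖ ^ 2 = ∑ m ∈ E, (1 : ℝ) :=
          sum_congr rfl fun m hm => by rw [RCLike.norm_conj, hc1 m hm]; norm_num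
      _ = E.card := by simp
  have hHle : ∀ k, ‖Hf k‖ ≤ E.card := by
    intro k
    refine (norm_sum_le _ _).trans ?_
    calc ∑ h ∈ E, ‖c h * ee (-(h * ((k : ℝ) / X)))‖ = ∑ h ∈ E, (1 : ℝ) :=
          sum_congr rfl fun h hh => by rw [norm_mul, hc1 h hh, norm_ee', one_mul]
      _ ≤ E.card := by simp
  -- the large values
  set τ := ε / 4 with hτ
  set K := (range X).filter (fun k => τ * E.card < ‖Hf k‖) with hKd
  have hKc : K.card ≤ J := by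
    have h1 : (K.card : ℝ) * (τ * E.card) ^ 2 ≤ X * E.card := by
      rw [← pH]
      calc (K.card : ℝ) * (τ * E.card) ^ 2 = ∑ k ∈ K, (τ * E.card) ^ 2 := by
            rw [sum_const, nsmul_eq_mul]
        _ ≤ ∑ k ∈ K, ‖Hf k‖ ^ 2 := by
            apply sum_le_sum
            intro k hk
            rw [hKd, mem_filter] at hk
            exact pow_le_pow_left₀ (by positivity) hk.2.le 2
        _ ≤ ∑ k ∈ range X, ‖Hf k‖ ^ 2 :=
            sum_le_sum_of_subset_of_nonneg (filter_subset _ _) fun _ _ _ => by positivity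
    have h2 : (K.card : ℝ) * τ ^ 2 * E.card ≤ X := by
      have h3 : ((K.card : ℝ) * τ ^ 2 * E.card) * E.card ≤ X * E.card := by linarith
      exact le_of_mul_le_mul_right h3 hE0
    have h4 : ε ^ 2 * K.card * E.card ≤ 32 * N := by
      rw [hτ, hXN] at h2
      linarith
    have h5 : ε ^ 2 * K.card * E.card < ε ^ 2 * J * E.card := lt_of_le_of_lt h4 hcon
    have h6 : (K.card : ℝ) < J := by
      by_contra h7
      push Not at h7
      have : ε ^ 2 * J * E.card ≤ ε ^ 2 * K.card * E.card := by gcongr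
      linarith
    exact_mod_cast h6.le
  have hKF := hK K (filter_subset _ _) hKc
  -- the upper bound
  have u1 : ∀ k ∈ range X, ‖Ff k‖ * ‖Gf k‖ * ‖Hf k‖ ≤
      τ * E.card * (3 / 8 * ‖Ff k‖ ^ 2 + 2 / 3 * ‖Gf k‖ ^ 2) +
        (if k ∈ K then E.card * (3 / (2 * ε) * ‖Ff k‖ ^ 2 + ε / 6 * ‖Gf k‖ ^ 2) else 0) := by
    intro k hk
    have a1 : ‖Ff k‖ * ‖Gf k‖ ≤ 3 / 8 * ‖Ff k‖ ^ 2 + 2 / 3 * ‖Gf k‖ ^ 2 := by
      nlinarith [sq_nonneg (3 / 4 * ‖Ff k‖ - ‖Gf k‖)]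
    have a2 : ‖Ff k‖ * ‖Gf k‖ ≤ 3 / (2 * ε) * ‖Ff k‖ ^ 2 + ε / 6 * ‖Gf k‖ ^ 2 := by
      have h1 : 3 / (2 * ε) * ‖Ff k‖ ^ 2 + ε / 6 * ‖Gf k‖ ^ 2 - ‖Ff k‖ * ‖Gf k‖ =
          (3 * ‖Ff k‖ - ε * ‖Gf k‖) ^ 2 / (6 * ε) := by
        field_simp; ring
      have h2 : 0 ≤ (3 * ‖Ff k‖ - ε * ‖Gf k‖) ^ 2 / (6 * ε) := by positivity
      linarith
    split_ifs with hkK
    · have h1 : ‖Ff k‖ * ‖Gf k‖ * ‖Hf k‖ ≤
          (3 / (2 * ε) * ‖Ff k‖ ^ 2 + ε / 6 * ‖Gf k‖ ^ 2) * E.card :=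
        mul_le_mul a2 (hHle k) (norm_nonneg _) (by positivity)
      have h2 : 0 ≤ τ * E.card * (3 / 8 * ‖Ff k‖ ^ 2 + 2 / 3 * ‖Gf k‖ ^ 2) := by positivity
      linarith
    · have h1 : ‖Hf k‖ ≤ τ * E.card := by
        by_contra h2
        push Not at h2
        exact hkK (mem_filter.2 ⟨hk, h2⟩)
      have h2 : ‖Ff k‖ * ‖Gf k‖ * ‖Hf k‖ ≤
          (3 / 8 * ‖Ff k‖ ^ 2 + 2 / 3 * ‖Gf k‖ ^ 2) * (τ * E.card) :=
        mul_le_mul a1 h1 (norm_nonneg _) (by positivity)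
      linarith
  have u2 := hlow.trans (sum_le_sum u1)
  rw [sum_add_distrib, ← mul_sum, sum_add_distrib, ← mul_sum, ← mul_sum, ← sum_filter,
    show (range X).filter (fun k => k ∈ K) = K from by
      ext k; rw [mem_filter]; exact ⟨fun h => h.2, fun h => ⟨(mem_filter.1 h).1, h⟩⟩,
    ← mul_sum, sum_add_distrib, ← mul_sum, ← mul_sum] at u2
  have pGK : ∑ k ∈ K, ‖Gf k‖ ^ 2 ≤ X * N := by
    refine le_trans ?_ pG
    exact sum_le_sum_of_subset_of_nonneg (filter_subset _ _) fun _ _ _ => by positivity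
  have v1 : τ * E.card * (3 / 8 * ∑ k ∈ range X, ‖Ff k‖ ^ 2 + 2 / 3 * ∑ k ∈ range X, ‖Gf k‖ ^ 2) ≤
      τ * E.card * (3 / 8 * (X : ℝ) ^ 2 + 2 / 3 * (X * N)) := by
    apply mul_le_mul_of_nonneg_left _ (by positivity)
    linarith
  have v2 : E.card * (3 / (2 * ε) * ∑ k ∈ K, ‖Ff k‖ ^ 2 + ε / 6 * ∑ k ∈ K, ‖Gf k‖ ^ 2) ≤
      E.card * (3 / (2 * ε) * (ε ^ 2 / 16 * (X : ℝ) ^ 2) + ε / 6 * (X * N)) := by
    apply mul_le_mul_of_nonneg_left _ (by positivity)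
    have h1 : 3 / (2 * ε) * ∑ k ∈ K, ‖Ff k‖ ^ 2 ≤ 3 / (2 * ε) * (ε ^ 2 / 16 * (X : ℝ) ^ 2) :=
      mul_le_mul_of_nonneg_left hKF (by positivity)
    have h2 : ε / 6 * ∑ k ∈ K, ‖Gf k‖ ^ 2 ≤ ε / 6 * (X * N) :=
      mul_le_mul_of_nonneg_left pGK (by positivity)
    linarith
  have e9 : E.card * (3 / (2 * ε) * (ε ^ 2 / 16 * (X : ℝ) ^ 2) + ε / 6 * (X * N)) =
      E.card * (3 * ε / 32 * (X : ℝ) ^ 2 + ε / 6 * (X * N)) := by
    field_simp
    ring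
  rw [e9] at v2
  have e10 : (N : ℝ) = X / 2 := by rw [hXN]; ring
  rw [e10] at u2 v1 v2
  have v3 := u2.trans (add_le_add v1 v2)
  have hpos : 0 < ε * E.card * (X : ℝ) ^ 2 := mul_pos (mul_pos hε hE0) (pow_pos hXr 2)
  rw [hτ] at v3
  have v4 : (X : ℝ) * (ε * (X / 2) * E.card) = 1 / 2 * (ε * E.card * (X : ℝ) ^ 2) := by ring
  have v5 : ε / 4 * E.card * (3 / 8 * (X : ℝ) ^ 2 + 2 / 3 * (X * (X / 2))) +
      E.card * (3 * ε / 32 * (X : ℝ) ^ 2 + ε / 6 * (X * (X / 2))) =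
      (17 / 96 + 17 / 96) * (ε * E.card * (X : ℝ) ^ 2) := by ring
  rw [v4, v5] at v3
  linarith

end Pool.Agent.TH823.PS
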