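import Pool.Agent.H49.G.R_seed8.TH823.PS.Wind

set_option autoImplicit false

/-!
# The sum over the frequencies on the major arcs
-/

open Finset MeasureTheory
open scoped Real
open Pool.Agent.Helper112 Pool.Agent.W66 Pool.Agent.W66L

namespace Pool.Agent.TH823.PS

lemma ee_zero' : ee 0 = 1 := by unfold ee; simp

lemma ee_int' (j : ℤ) : ee j = 1 := by
  unfold ee
  rw [Complex.exp_eq_one_iff]
  exact ⟨j, by push_cast; ring⟩

lemma Ph_int (β s : ℝ) : IntegrableOn (Ph β) (Set.Iic s) := by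
  refine Integrable.mono (integrableOn_exp_Iic s) (Ph_cont β).aestronglyMeasurable ?_
  filter_upwards with x
  rw [norm_Ph, Real.norm_of_nonneg (Real.exp_pos x).le]

lemma int_phase {X : ℕ} (hX : 0 < X) (j : ℤ) :
    ∫ x in Set.Iic (Real.log X), Ph ((j : ℝ) / X) x = if j = 0 then (X : ℂ) else 0 := by
  have hX0 : (0 : ℝ) < X := by exact_mod_cast hX
  split_ifs with hj
  · have : ∀ x, Ph (((j : ℤ) : ℝ) / X) x = ((Real.exp x : ℝ) : ℂ) := by
      intro x
      unfold Ph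
      rw [hj]
      simp [ee_zero']
    simp only [this]
    rw [integral_complex_ofReal, integral_exp_Iic, Real.exp_log hX0]
    simp
  · set γ : ℝ := (j : ℝ) / X with hγ
    have hγ0 : γ ≠ 0 := by
      have : (j : ℝ) ≠ 0 := by exact_mod_cast hj
      positivity
    have hγc : (γ : ℂ) ≠ 0 := by exact_mod_cast hγ0
    have hpi : (π : ℂ) ≠ 0 := by exact_mod_cast Real.pi_ne_zero
    have hI0 : Complex.I ≠ 0 := Complex.I_ne_zero
    have hd : ∀ x ∈ Set.Iic (Real.log X),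
        HasDerivAt (fun x : ℝ => ee (γ * Real.exp x) / (2 * π * Complex.I * γ)) (Ph γ x) x := by
      intro x _
      unfold Ph ee
      have h1 : HasDerivAt (fun x : ℝ => (((γ * Real.exp x : ℝ)) : ℂ)) ((γ * Real.exp x : ℝ) : ℂ) x :=
        ((Real.hasDerivAt_exp x).const_mul γ).ofReal_comp
      have h2 := ((h1.const_mul (2 * π : ℂ)).mul_const Complex.I).cexp.div_const
        (2 * π * Complex.I * γ)
      refine h2.congr_deriv ?_
      rw [div_eq_iff (by simp [hγc, hpi])]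
      push_cast
      ring
    have ht : Filter.Tendsto (fun x : ℝ => ee (γ * Real.exp x) / (2 * π * Complex.I * γ))
        Filter.atBot (nhds (1 / (2 * π * Complex.I * γ))) := by
      apply Filter.Tendsto.div_const
      have h3 : Filter.Tendsto (fun x : ℝ => γ * Real.exp x) Filter.atBot (nhds 0) := by
        simpa using Real.tendsto_exp_atBot.const_mul γ
      have h4 := (ee_cont.tendsto 0).comp h3
      rw [ee_zero'] at h4
      exact h4
    rw [integral_Iic_of_hasDerivAt_of_tendsto' hd (Ph_int γ _) ht]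
    have h5 : γ * Real.exp (Real.log X) = (j : ℤ) := by
      rw [Real.exp_log hX0, hγ]; field_simp
    rw [h5, ee_int']
    ring

lemma Ph_mul_conj (β γ x : ℝ) :
    ((Real.exp (-x) : ℝ) : ℂ) * (Ph β x * (starRingEnd ℂ) (Ph γ x)) = Ph (β - γ) x := by
  unfold Ph
  rw [map_mul, Complex.conj_ofReal]
  have h1 : (starRingEnd ℂ) (ee (γ * Real.exp x)) = ee (-(γ * Real.exp x)) := by
    unfold ee
    rw [← Complex.exp_conj]
    congr 1
    rw [show (2 * π * ((γ * Real.exp x : ℝ) : ℂ) * Complex.I : ℂ) =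
      ((2 * π * (γ * Real.exp x) : ℝ) : ℂ) * Complex.I by push_cast; ring, map_mul,
      Complex.conj_ofReal, Complex.conj_I]
    push_cast
    ring
  have h2 : ee ((β - γ) * Real.exp x) = ee (β * Real.exp x) * ee (-(γ * Real.exp x)) := by
    unfold ee
    rw [← Complex.exp_add]
    congr 1
    push_cast; ring
  rw [h1, h2]
  have h3 : ((Real.exp (-x) : ℝ) : ℂ) * ((Real.exp x : ℝ) : ℂ) = 1 := by
    rw [← Complex.ofReal_mul, ← Real.exp_add]; simp
  linear_combination ((Real.exp x : ℝ) : ℂ) * ee (β * Real.exp x) * ee (-(γ * Real.exp x)) * h3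

/-- orthogonality in one group -/
lemma group_orth {ι : Type*} (K : Finset ι) (β : ι → ℝ) (u : ι → ℂ) {X : ℕ} (hX : 0 < X)
    (hsep : ∀ k ∈ K, ∀ l ∈ K, k ≠ l → ∃ j : ℤ, j ≠ 0 ∧ β k - β l = j / X) :
    IntegrableOn (fun x => Real.exp (-x) * ‖∑ k ∈ K, u k * Ph (β k) x‖ ^ 2) (Set.Iic (Real.log X)) ∧
    ∫ x in Set.Iic (Real.log X), Real.exp (-x) * ‖∑ k ∈ K, u k * Ph (β k) x‖ ^ 2 =
      X * ∑ k ∈ K, ‖u k‖ ^ 2 := by
  classical
  have e1 : ∀ x, ((Real.exp (-x) * ‖∑ k ∈ K, u k * Ph (β k) x‖ ^ 2 : ℝ) : ℂ) =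
      ∑ k ∈ K, ∑ l ∈ K, (u k * (starRingEnd ℂ) (u l)) * Ph (β k - β l) x := by
    intro x
    push_cast
    rw [← Complex.mul_conj', map_sum, sum_mul_sum, mul_sum]
    apply sum_congr rfl
    intro k _
    rw [mul_sum]
    apply sum_congr rfl
    intro l _
    rw [← Ph_mul_conj, map_mul]
    push_cast
    ring
  have hint : ∀ k ∈ K, Integrable (fun x => ∑ l ∈ K, (u k * (starRingEnd ℂ) (u l)) * Ph (β k - β l) x)
      (volume.restrict (Set.Iic (Real.log X))) :=
    fun k _ => integrable_finsetSum _ fun l _ => (Ph_int _ _).const_mul _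
  have hI : Integrable (fun x => ((Real.exp (-x) * ‖∑ k ∈ K, u k * Ph (β k) x‖ ^ 2 : ℝ) : ℂ))
      (volume.restrict (Set.Iic (Real.log X))) := by
    simp only [e1]
    exact integrable_finsetSum _ hint
  have hI2 : IntegrableOn (fun x => Real.exp (-x) * ‖∑ k ∈ K, u k * Ph (β k) x‖ ^ 2)
      (Set.Iic (Real.log X)) := by
    have := hI.re
    simp only [RCLike.re_to_complex, Complex.ofReal_re] at this
    exact this
  refine ⟨hI2, ?_⟩
  have e2 : ((∫ x in Set.Iic (Real.log X), Real.exp (-x) * ‖∑ k ∈ K, u k * Ph (β k) x‖ ^ 2 : ℝ) : ℂ) =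
      ((X * ∑ k ∈ K, ‖u k‖ ^ 2 : ℝ) : ℂ) := by
    rw [← integral_complex_ofReal]
    simp only [e1]
    rw [integral_finsetSum _ hint]
    have e3 : ∀ k ∈ K, ∫ x in Set.Iic (Real.log X),
        ∑ l ∈ K, (u k * (starRingEnd ℂ) (u l)) * Ph (β k - β l) x = X * (‖u k‖ : ℂ) ^ 2 := by
      intro k hk
      rw [integral_finsetSum _ (fun l _ => (Ph_int _ _).const_mul _), sum_eq_single k]
      · rw [integral_const_mul]
        have := int_phase hX 0
        simp only [Int.cast_zero, zero_div, if_true] at this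
        rw [sub_self, this, Complex.mul_conj']
        ring
      · intro l hl hlk
        obtain ⟨j, hj, hjl⟩ := hsep k hk l hl (Ne.symm hlk)
        rw [integral_const_mul, hjl, int_phase hX j, if_neg hj, mul_zero]
      · intro h; exact absurd hk h
    rw [sum_congr rfl e3, ← mul_sum]
    push_cast
    rfl
  exact_mod_cast e2

lemma EE_int {h : ℝ} (h0 : 0 < h) (F : ℕ) (S : Finset ℕ) (c : ℕ → ℂ) : Integrable (EE h F S c) := by
  unfold EE
  exact integrable_finsetSum _ fun q _ => integrable_finsetSum _ fun a _ => ggC_sq_integrable h0 S _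

lemma EE_nonneg (h : ℝ) (F : ℕ) (S : Finset ℕ) (c : ℕ → ℂ) (x : ℝ) : 0 ≤ EE h F S c x := by
  unfold EE
  exact sum_nonneg fun _ _ => sum_nonneg fun _ _ => by positivity

lemma expEE_int {h : ℝ} (h0 : 0 < h) (F : ℕ) (S : Finset ℕ) (c : ℕ → ℂ) (s : ℝ) :
    IntegrableOn (fun x => Real.exp x * EE h F S c x) (Set.Iic s) := by
  refine Integrable.mono' (g := fun x => Real.exp s * EE h F S c x)
    ((EE_int h0 F S c).const_mul _).integrableOn ?_ ?_
  · exact (Real.continuous_exp.aestronglyMeasurable).mul (EE_int h0 F S c).1.restrict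
  · rw [ae_restrict_iff' measurableSet_Iic]
    filter_upwards with x hx
    have hx' : x ≤ s := hx
    rw [norm_mul, Real.norm_of_nonneg (Real.exp_pos x).le, Real.norm_of_nonneg (EE_nonneg h F S c x)]
    exact mul_le_mul_of_nonneg_right (Real.exp_le_exp.2 hx') (EE_nonneg h F S c x)

/-- **the sum over the frequencies on the major arcs** -/
theorem group_ineq {ι : Type*} (K : Finset ι) (qa : ι → (_ : ℕ) × ℕ) (β : ι → ℝ) {F X : ℕ} (hX : 0 < X)
    (hq : ∀ k ∈ K, qa k ∈ (Icc 1 F).sigma (fun q => rr q))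
    (hsep : ∀ k ∈ K, ∀ l ∈ K, k ≠ l → qa k = qa l → ∃ j : ℤ, j ≠ 0 ∧ β k - β l = j / X)
    {h : ℝ} (h0 : 0 < h) (S : Finset ℕ) (c : ℕ → ℂ) :
    ∑ k ∈ K, ‖WI h (Real.log X) (β k) S (fun n => c n * ee (n * (qa k).2 / (qa k).1))‖ ^ 2 ≤
      X * ∫ x in Set.Iic (Real.log X), Real.exp x * EE h F S c x := by
  classical
  have hX0 : (0 : ℝ) < X := by exact_mod_cast hX
  set s := Real.log X with hs
  set G : (_ : ℕ) × ℕ → ℝ → ℂ := fun t x => ggC h S (fun n => c n * ee (n * t.2 / t.1)) x with hG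
  set I : ι → ℂ := fun k => WI h s (β k) S (fun n => c n * ee (n * (qa k).2 / (qa k).1)) with hI
  set T : ℝ := ∑ k ∈ K, ‖I k‖ ^ 2 with hT
  change T ≤ _
  set 𝒬 := (Icc 1 F).sigma (fun q => rr q) with h𝒬
  set Fr : (_ : ℕ) × ℕ → ℝ → ℂ := fun t x =>
    ∑ k ∈ K.filter (fun k => qa k = t), (starRingEnd ℂ) (I k) * Ph (β k) x with hFr
  have hIint : ∀ k ∈ K, Integrable (fun x => (starRingEnd ℂ) (I k) * (Ph (β k) x * G (qa k) x))
      (volume.restrict (Set.Iic s)) := by
    intro k _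
    apply Integrable.const_mul
    apply Integrable.integrableOn
    apply ((Ph_cont (β k)).mul (ggC_continuous h S _)).integrable_of_hasCompactSupport
    exact HasCompactSupport.mul_left (ggC_compact h0 S _)
  have e1 : (T : ℂ) = ∫ x in Set.Iic s, ∑ t ∈ 𝒬, Fr t x * G t x := by
    have e2 : ∀ x, ∑ t ∈ 𝒬, Fr t x * G t x =
        ∑ k ∈ K, (starRingEnd ℂ) (I k) * (Ph (β k) x * G (qa k) x) := by
      intro x
      rw [← sum_fiberwise_of_maps_to hq]
      apply sum_congr rfl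
      intro t _
      rw [hFr]
      simp only
      rw [sum_mul]
      apply sum_congr rfl
      intro k hk
      rw [mem_filter] at hk
      rw [hk.2]
      ring
    simp only [e2]
    rw [integral_finsetSum _ hIint, hT]
    push_cast
    apply sum_congr rfl
    intro k _
    rw [integral_const_mul]
    change _ = (starRingEnd ℂ) (I k) * I k
    rw [Complex.conj_mul']
  have hT0 : 0 ≤ T := sum_nonneg fun _ _ => by positivity
  have hgr : ∀ t, IntegrableOn (fun x => Real.exp (-x) * ‖Fr t x‖ ^ 2) (Set.Iic s) ∧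
      ∫ x in Set.Iic s, Real.exp (-x) * ‖Fr t x‖ ^ 2 = X * ∑ k ∈ K.filter (fun k => qa k = t), ‖I k‖ ^ 2 := by
    intro t
    have := group_orth (K.filter (fun k => qa k = t)) β (fun k => (starRingEnd ℂ) (I k)) hX (by
      intro k hk l hl hkl
      rw [mem_filter] at hk hl
      exact hsep k hk.1 l hl.1 hkl (hk.2.trans hl.2.symm))
    simp only [RCLike.norm_conj] at this
    exact this
  have hEE : ∀ x, EE h F S c x = ∑ t ∈ 𝒬, ‖G t x‖ ^ 2 := by
    intro x
    unfold EE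
    rw [h𝒬, sum_sigma]
  have hpt : ∀ x, ‖∑ t ∈ 𝒬, Fr t x * G t x‖ ≤
      X / 2 * (Real.exp x * EE h F S c x) + 1 / (2 * X) * ∑ t ∈ 𝒬, Real.exp (-x) * ‖Fr t x‖ ^ 2 := by
    intro x
    refine (norm_sum_le _ _).trans ?_
    rw [hEE, mul_sum, mul_sum, mul_sum, ← sum_add_distrib]
    apply sum_le_sum
    intro t _
    rw [norm_mul]
    have hex : Real.exp x * Real.exp (-x) = 1 := by rw [← Real.exp_add]; simp
    have hx0 := Real.exp_pos x
    have hx1 := Real.exp_pos (-x)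
    -- 2 a b ≤ a² w + b² / w with w = X exp x
    set w : ℝ := X * Real.exp x with hw
    have hw0 : 0 < w := by positivity
    have hwi : Real.exp (-x) / X = 1 / w := by
      rw [Real.exp_neg, hw]; field_simp
    have key : ‖Fr t x‖ * ‖G t x‖ ≤ w / 2 * ‖G t x‖ ^ 2 + 1 / (2 * w) * ‖Fr t x‖ ^ 2 := by
      have h1 : 0 ≤ (w * ‖G t x‖ - ‖Fr t x‖) ^ 2 := sq_nonneg _
      have h2 : w / 2 * ‖G t x‖ ^ 2 + 1 / (2 * w) * ‖Fr t x‖ ^ 2 - ‖Fr t x‖ * ‖G t x‖ =
          (w * ‖G t x‖ - ‖Fr t x‖) ^ 2 / (2 * w) := by field_simp; ring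
      have h3 : 0 ≤ (w * ‖G t x‖ - ‖Fr t x‖) ^ 2 / (2 * w) := by positivity
      linarith
    have e4 : X / 2 * (Real.exp x * ‖G t x‖ ^ 2) = w / 2 * ‖G t x‖ ^ 2 := by rw [hw]; ring
    have e5 : 1 / (2 * X) * (Real.exp (-x) * ‖Fr t x‖ ^ 2) = 1 / (2 * w) * ‖Fr t x‖ ^ 2 := by
      have : 1 / (2 * (X : ℝ)) * (Real.exp (-x) * ‖Fr t x‖ ^ 2) = 1 / 2 * (Real.exp (-x) / X) * ‖Fr t x‖ ^ 2 := by
        field_simp
      rw [this, hwi]; field_simp
    rw [e4, e5]
    exact key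
  have hI1 : IntegrableOn (fun x => X / 2 * (Real.exp x * EE h F S c x)) (Set.Iic s) :=
    (expEE_int h0 F S c s).const_mul _
  have hI2 : IntegrableOn (fun x => 1 / (2 * (X : ℝ)) * ∑ t ∈ 𝒬, Real.exp (-x) * ‖Fr t x‖ ^ 2) (Set.Iic s) :=
    (integrable_finsetSum _ fun t _ => (hgr t).1).const_mul _
  have h1 : T ≤ ∫ x in Set.Iic s, (X / 2 * (Real.exp x * EE h F S c x) +
      1 / (2 * X) * ∑ t ∈ 𝒬, Real.exp (-x) * ‖Fr t x‖ ^ 2) := by
    have : T = ‖(T : ℂ)‖ := by rw [Complex.norm_real, Real.norm_of_nonneg hT0]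
    rw [this, e1]
    exact norm_integral_le_of_norm_le (hI1.add hI2) (Filter.Eventually.of_forall hpt)
  rw [integral_add hI1 hI2, integral_const_mul, integral_const_mul,
    integral_finsetSum _ (fun t _ => (hgr t).1)] at h1
  have h2 : ∑ t ∈ 𝒬, ∫ x in Set.Iic s, Real.exp (-x) * ‖Fr t x‖ ^ 2 = X * T := by
    rw [sum_congr rfl (fun t _ => (hgr t).2), ← mul_sum, sum_fiberwise_of_maps_to hq]
  rw [h2] at h1
  have h3 : 1 / (2 * (X : ℝ)) * (X * T) = T / 2 := by field_simp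
  rw [h3] at h1
  linarith

end Pool.Agent.TH823.PS
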