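import Pool.Agent.H49.G.R_seed8.TH823.PS.PrimeSum

set_option autoImplicit false

/-!
# Twisted sums over primes: bounds from above and from below
-/

open Finset
open ArithmeticFunction (vonMangoldt)

namespace Pool.Agent.TH823.PS

open Pool.Agent.W66 Pool.Agent.W66L

/-- primes in `(y, z]` -/
def PP (y z : ℕ) : Finset ℕ := (Ioc y z).filter Nat.Prime

lemma mem_PP {y z p : ℕ} : p ∈ PP y z ↔ (y < p ∧ p ≤ z) ∧ p.Prime := by
  unfold PP; rw [mem_filter, mem_Ioc]

/-- `χ(n) n^(-it)` -/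
noncomputable def ct {q : ℕ} (χ : DirichletCharacter ℂ q) (t : ℝ) (n : ℕ) : ℂ :=
  χ n * Complex.exp (-(((t * Real.log n : ℝ) : ℂ) * Complex.I))

lemma norm_ct_le {q : ℕ} (χ : DirichletCharacter ℂ q) (t : ℝ) (n : ℕ) : ‖ct χ t n‖ ≤ 1 := by
  unfold ct
  rw [norm_mul, ← neg_mul, ← Complex.ofReal_neg, Complex.norm_exp_ofReal_mul_I, mul_one]
  exact χ.norm_le_one _

/-- `Re (χ(n) n^(-it))` -/
noncomputable def rt {q : ℕ} (χ : DirichletCharacter ℂ q) (t : ℝ) (n : ℕ) : ℝ := (ct χ t n).re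

lemma abs_rt_le {q : ℕ} (χ : DirichletCharacter ℂ q) (t : ℝ) (n : ℕ) : |rt χ t n| ≤ 1 :=
  (Complex.abs_re_le_norm _).trans (norm_ct_le χ t n)

lemma term_ct {q : ℕ} (χ : DirichletCharacter ℂ q) (σ t : ℝ) (n : ℕ) :
    (LSeries.term ((fun n : ℕ => (χ n : ℂ)) * (fun n : ℕ => (vonMangoldt n : ℂ))) (⟨σ, t⟩ : ℂ) n).re =
      rt χ t n * vonMangoldt n * (n : ℝ) ^ (-σ) := by
  rcases eq_or_ne n 0 with rfl | hn
  · simp
  · have hn0 : (0 : ℝ) < n := by exact_mod_cast Nat.pos_of_ne_zero hn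
    have hnc : (n : ℂ) ≠ 0 := by exact_mod_cast hn
    rw [LSeries.term_of_ne_zero hn]
    have h1 : (n : ℂ) ^ (⟨σ, t⟩ : ℂ) =
        (((n : ℝ) ^ σ : ℝ) : ℂ) * Complex.exp (((t * Real.log n : ℝ) : ℂ) * Complex.I) := by
      have e : (⟨σ, t⟩ : ℂ) = (σ : ℂ) + (t : ℂ) * Complex.I := by
        apply Complex.ext <;> simp
      rw [e, Complex.cpow_add _ _ hnc, Complex.ofReal_cpow hn0.le, Complex.ofReal_natCast]
      congr 1
      rw [Complex.cpow_def_of_ne_zero hnc, ← Complex.natCast_log]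
      congr 1
      push_cast
      ring
    have h2 : (((fun n : ℕ => (χ n : ℂ)) * (fun n : ℕ => (vonMangoldt n : ℂ))) n) /
        (n : ℂ) ^ (⟨σ, t⟩ : ℂ) = ct χ t n * ((vonMangoldt n * (n : ℝ) ^ (-σ) : ℝ) : ℂ) := by
      rw [h1, Pi.mul_apply]
      unfold ct
      rw [Real.rpow_neg hn0.le, Complex.exp_neg]
      have h3 := Complex.exp_ne_zero (((t * Real.log n : ℝ) : ℂ) * Complex.I)
      have h4 : (((n : ℝ) ^ σ : ℝ) : ℂ) ≠ 0 := by
        rw [Complex.ofReal_ne_zero]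
        exact (Real.rpow_pos_of_pos hn0 σ).ne'
      push_cast at h4 ⊢
      field_simp
    rw [h2, Complex.re_mul_ofReal]
    unfold rt
    ring

lemma ct_summable {q : ℕ} (χ : DirichletCharacter ℂ q) {σ : ℝ} (hσ : 1 < σ) (t : ℝ) :
    LSeriesSummable ((fun n : ℕ => (χ n : ℂ)) * (fun n : ℕ => (vonMangoldt n : ℂ))) (⟨σ, t⟩ : ℂ) :=
  DirichletCharacter.LSeriesSummable_twist_vonMangoldt χ hσ

lemma tsum_ct {q : ℕ} (χ : DirichletCharacter ℂ q) {σ : ℝ} (hσ : 1 < σ) (t : ℝ) :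
    (∑' n : ℕ, rt χ t n * vonMangoldt n * (n : ℝ) ^ (-σ)) =
      (LSeries ((fun n : ℕ => (χ n : ℂ)) * (fun n : ℕ => (vonMangoldt n : ℂ))) (⟨σ, t⟩ : ℂ)).re := by
  have h2 := Complex.hasSum_re (ct_summable χ hσ t).hasSum
  have h3 : HasSum (fun n : ℕ => rt χ t n * vonMangoldt n * (n : ℝ) ^ (-σ))
      (LSeries ((fun n : ℕ => (χ n : ℂ)) * (fun n : ℕ => (vonMangoldt n : ℂ))) (⟨σ, t⟩ : ℂ)).re := by
    convert h2 using 1
    · ext n
      exact (term_ct χ σ t n).symm
    · rfl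
  exact h3.tsum_eq

lemma log_ge_one {y : ℕ} (hy : 3 ≤ y) : 1 < Real.log y := by
  rw [Real.lt_log_iff_exp_lt (by positivity)]
  have := Real.exp_one_lt_d9
  have h3 : (3 : ℝ) ≤ y := by exact_mod_cast hy
  linarith

/-- upper bound for nonprincipal characters -/
theorem upper_np : ∃ C : ℝ, 0 < C ∧ ∀ (q : ℕ) [NeZero q] (χ : DirichletCharacter ℂ q), χ ≠ 1 →
    ∀ t : ℝ, ∀ y z : ℕ, 3 ≤ y → y ≤ z → lq q t ≤ Real.log y →
    ∑ p ∈ PP y z, rt χ t p / p ≤ C := by
  obtain ⟨K, hK, hD⟩ := DL_re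
  obtain ⟨C, hC, hS⟩ := prime_sum
  refine ⟨K + C, by positivity, fun q _ χ hχ t y z hy hyz hlq => ?_⟩
  have hl1 := log_ge_one hy
  have hlyz : Real.log y ≤ Real.log z := Real.log_le_log (by positivity) (by exact_mod_cast hyz)
  have h0 : 0 ≤ lq q t := le_trans zero_le_one (one_le_lq q t)
  have h1 := hS (rt χ t) (abs_rt_le χ t) y z hy hyz (K * lq q t) (by positivity) (by
    intro σ hσ1 hσ2
    have hσ : 1 < σ := by
      have : 0 < 1 / Real.log z := one_div_pos.2 (by linarith)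
      linarith
    have hσ' : σ ≤ 2 := by
      have : 1 / Real.log y ≤ 1 := by rw [div_le_one (by linarith)]; exact hl1.le
      linarith
    rw [tsum_ct χ hσ t, LSeries_eq_DL χ hχ (by exact hσ), Complex.neg_re]
    have := (hD q χ hχ t σ hσ hσ').1
    linarith)
  refine h1.trans ?_
  have : K * lq q t / Real.log y ≤ K := by
    rw [div_le_iff₀ (by linarith)]
    exact mul_le_mul_of_nonneg_left hlq hK.le
  linarith

/-- upper bound for the principal character away from `t = 0` -/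
theorem upper_pr : ∃ C : ℝ, 0 < C ∧ ∀ t : ℝ, ∀ y z : ℕ, 3 ≤ y → y ≤ z → ell t ≤ Real.log y →
    1 ≤ |t| * Real.log y →
    ∑ p ∈ PP y z, Real.cos (t * Real.log p) / p ≤ C := by
  obtain ⟨K, hK, hD⟩ := D_re
  obtain ⟨C, hC, hS⟩ := prime_sum
  refine ⟨K + 1 + C, by positivity, fun t y z hy hyz hlq hty => ?_⟩
  have hl1 := log_ge_one hy
  have hlyz : Real.log y ≤ Real.log z := Real.log_le_log (by positivity) (by exact_mod_cast hyz)
  have h0 : 0 ≤ ell t := le_trans zero_le_one (one_le_ell t)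
  have ht : 0 < |t| := by
    by_contra hc
    have : |t| = 0 := le_antisymm (not_lt.1 hc) (abs_nonneg t)
    rw [this] at hty
    linarith
  have hrt : ∀ n : ℕ, rt (1 : DirichletCharacter ℂ 1) t n = Real.cos (t * Real.log n) := by
    intro n
    unfold rt ct
    have : ((1 : DirichletCharacter ℂ 1) (n : ZMod 1)) = 1 := by
      apply MulChar.one_apply
      rw [show (n : ZMod 1) = 1 from Subsingleton.elim _ _]
      exact isUnit_one
    rw [this, one_mul, ← neg_mul, ← Complex.ofReal_neg, Complex.exp_ofReal_mul_I_re, Real.cos_neg]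
  have hLS : ((fun n : ℕ => ((1 : DirichletCharacter ℂ 1) (n : ZMod 1) : ℂ)) *
      (fun n : ℕ => (vonMangoldt n : ℂ))) = fun n : ℕ => (vonMangoldt n : ℂ) := by
    ext n
    rw [Pi.mul_apply]
    have : ((1 : DirichletCharacter ℂ 1) (n : ZMod 1)) = 1 := by
      apply MulChar.one_apply
      rw [show (n : ZMod 1) = 1 from Subsingleton.elim _ _]
      exact isUnit_one
    rw [this, one_mul]
  have h1 := hS (rt (1 : DirichletCharacter ℂ 1) t) (abs_rt_le _ t) y z hy hyz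
    (K * ell t + 1 / |t|) (by positivity) (by
    intro σ hσ1 hσ2
    have hσ : 1 < σ := by
      have : 0 < 1 / Real.log z := one_div_pos.2 (by linarith)
      linarith
    have hσ' : σ ≤ 2 := by
      have : 1 / Real.log y ≤ 1 := by rw [div_le_one (by linarith)]; exact hl1.le
      linarith
    rw [tsum_ct _ hσ t, hLS, LSeries_eq_DD (by exact hσ), Complex.sub_re]
    have h3 := (hD t σ hσ hσ').1
    have h4 : (1 / ((⟨σ, t⟩ : ℂ) - 1)).re ≤ 1 / |t| := by
      refine (Complex.re_le_norm _).trans ?_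
      rw [norm_div, norm_one]
      apply one_div_le_one_div_of_le ht
      have := Complex.abs_im_le_norm ((⟨σ, t⟩ : ℂ) - 1)
      simpa using this
    unfold DD
    linarith)
  have h5 : ∑ p ∈ (Ioc y z).filter Nat.Prime, rt (1 : DirichletCharacter ℂ 1) t p / p =
      ∑ p ∈ PP y z, Real.cos (t * Real.log p) / p := by
    unfold PP
    apply sum_congr rfl
    intro p _
    rw [hrt]
  rw [h5] at h1
  refine h1.trans ?_
  have h6 : K * ell t / Real.log y ≤ K := by
    rw [div_le_iff₀ (by linarith)]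
    exact mul_le_mul_of_nonneg_left hlq hK.le
  have h7 : 1 / |t| / Real.log y ≤ 1 := by
    rw [div_div, div_le_one (by positivity)]
    exact hty
  rw [add_div]
  linarith

/-- the inequality `3 + 4 cos + cos 2` -/
lemma three_four_one_pt {w : ℂ} (hw : ‖w‖ = 1) : 0 ≤ 3 + 4 * w.re + (w ^ 2).re := by
  have h1 : w.re ^ 2 + w.im ^ 2 = 1 := by
    have := Complex.sq_norm w
    rw [hw, Complex.normSq_apply] at this
    linarith
  rw [sq w, Complex.mul_re]
  nlinarith [sq_nonneg (w.re + 1)]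

lemma ct_sq {q : ℕ} (χ : DirichletCharacter ℂ q) (t : ℝ) (n : ℕ) :
    ct χ t n ^ 2 = ct (χ ^ 2) (2 * t) n := by
  unfold ct
  rw [mul_pow, ← Complex.exp_nat_mul, MulChar.pow_apply' _ two_ne_zero]
  congr 2
  push_cast
  ring

lemma norm_ct {q : ℕ} (χ : DirichletCharacter ℂ q) (t : ℝ) {n : ℕ} (hn : n.Coprime q) :
    ‖ct χ t n‖ = 1 := by
  unfold ct
  rw [norm_mul, ← neg_mul, ← Complex.ofReal_neg, Complex.norm_exp_ofReal_mul_I, mul_one]
  have : IsUnit (n : ZMod q) := (ZMod.isUnit_iff_coprime n q).2 hn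
  obtain ⟨u, hu⟩ := this
  rw [← hu]
  exact χ.unit_norm_eq_one u

lemma prime_coprime {y z p q : ℕ} (hq : 0 < q) (hqy : q ≤ y) (hp : p ∈ PP y z) : p.Coprime q := by
  rw [mem_PP] at hp
  rw [Nat.Prime.coprime_iff_not_dvd hp.2]
  intro h
  have := Nat.le_of_dvd hq h
  omega

/-- the sum of `1/p` over `(y, z]` -/
noncomputable def WW (y z : ℕ) : ℝ := ∑ p ∈ PP y z, (1 : ℝ) / p

lemma WW_nonneg (y z : ℕ) : 0 ≤ WW y z := sum_nonneg fun p _ => by positivity

/-- `3-4-1` in the form of sums over primes -/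
lemma lower_341 {q : ℕ} (hq : 0 < q) (χ : DirichletCharacter ℂ q) (t : ℝ) {y z : ℕ} (hqy : q ≤ y) :
    -(3 / 4) * WW y z - 1 / 4 * ∑ p ∈ PP y z, rt (χ ^ 2) (2 * t) p / p ≤
      ∑ p ∈ PP y z, rt χ t p / p := by
  have h1 : 0 ≤ ∑ p ∈ PP y z, (3 + 4 * rt χ t p + rt (χ ^ 2) (2 * t) p) / p := by
    apply sum_nonneg
    intro p hp
    apply div_nonneg _ (Nat.cast_nonneg p)
    have h2 := three_four_one_pt (norm_ct χ t (prime_coprime hq hqy hp))
    rw [ct_sq] at h2
    exact h2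
  have h2 : ∑ p ∈ PP y z, (3 + 4 * rt χ t p + rt (χ ^ 2) (2 * t) p) / p =
      3 * WW y z + 4 * (∑ p ∈ PP y z, rt χ t p / p) + ∑ p ∈ PP y z, rt (χ ^ 2) (2 * t) p / p := by
    unfold WW
    rw [mul_sum, mul_sum, ← sum_add_distrib, ← sum_add_distrib]
    apply sum_congr rfl
    intro p _
    ring
  linarith

lemma rt_one {q : ℕ} (t : ℝ) {n : ℕ} (hn : n.Coprime q) :
    rt (1 : DirichletCharacter ℂ q) t n = Real.cos (t * Real.log n) := by
  unfold rt ct
  rw [MulChar.one_apply ((ZMod.isUnit_iff_coprime n q).2 hn), one_mul, ← neg_mul,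
    ← Complex.ofReal_neg, Complex.exp_ofReal_mul_I_re, Real.cos_neg]

lemma log_sum : ∃ C : ℝ, 0 < C ∧ ∀ z : ℕ, 1 ≤ z →
    ∑ p ∈ (Icc 1 z).filter Nat.Prime, Real.log p / p ≤ Real.log z + C := by
  obtain ⟨C1, hC1, hm⟩ := Pool.Agent.Helper112.LP.mertens_log
  refine ⟨C1, hC1, fun z hz => ?_⟩
  have := (abs_le.1 (hm z hz)).2
  linarith

lemma WW_split {y x z : ℕ} (h1 : y ≤ x) (h2 : x ≤ z) (f : ℕ → ℝ) :
    ∑ p ∈ PP y z, f p = ∑ p ∈ PP y x, f p + ∑ p ∈ PP x z, f p := by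
  unfold PP
  rw [← sum_union]
  · congr 1
    ext p
    simp only [mem_union, mem_filter, mem_Ioc]
    constructor
    · rintro ⟨⟨h3, h4⟩, h5⟩
      rcases le_or_gt p x with h6 | h6
      · exact Or.inl ⟨⟨h3, h6⟩, h5⟩
      · exact Or.inr ⟨⟨h6, h4⟩, h5⟩
    · rintro (⟨⟨h3, h4⟩, h5⟩ | ⟨⟨h3, h4⟩, h5⟩)
      · exact ⟨⟨h3, h4.trans h2⟩, h5⟩
      · exact ⟨⟨lt_of_le_of_lt h1 h3, h4⟩, h5⟩
  · rw [disjoint_left]
    intro p h3 h4
    rw [mem_filter, mem_Ioc] at h3 h4
    omega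

/-- small `t` do not matter up to `e^(1/|t|)` -/
lemma small_t {q : ℕ} (χ : DirichletCharacter ℂ q) (t : ℝ) (n : ℕ) :
    |rt χ t n - rt χ 0 n| ≤ |t| * Real.log n := by
  have h1 : rt χ t n - rt χ 0 n =
      (χ n * (Complex.exp (-(((t * Real.log n : ℝ) : ℂ) * Complex.I)) - 1)).re := by
    unfold rt ct
    rw [mul_sub, mul_one, Complex.sub_re]
    simp
  rw [h1]
  refine (Complex.abs_re_le_norm _).trans ?_
  rw [norm_mul]
  have h2 : ‖Complex.exp (-(((t * Real.log n : ℝ) : ℂ) * Complex.I)) - 1‖ ≤ |t| * Real.log n := by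
    have h3 := Real.norm_exp_I_mul_ofReal_sub_one_le (x := -(t * Real.log n))
    have h4 : Complex.I * ((-(t * Real.log n) : ℝ) : ℂ) = -(((t * Real.log n : ℝ) : ℂ) * Complex.I) := by
      push_cast; ring
    rw [h4, norm_neg, norm_mul, Real.norm_eq_abs, Real.norm_eq_abs,
      abs_of_nonneg (Real.log_natCast_nonneg n)] at h3
    exact h3
  calc ‖χ n‖ * _ ≤ 1 * (|t| * Real.log n) := mul_le_mul (χ.norm_le_one _) h2 (norm_nonneg _) zero_le_one
    _ = _ := one_mul _

lemma small_t_sum {C3 : ℝ} (h3 : ∀ z : ℕ, 1 ≤ z →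
    ∑ p ∈ (Icc 1 z).filter Nat.Prime, Real.log p / p ≤ Real.log z + C3) {q : ℕ}
    (χ : DirichletCharacter ℂ q) (t : ℝ) {y x : ℕ} (hx : 1 ≤ x) :
    ∑ p ∈ PP y x, rt χ 0 p / p - |t| * (Real.log x + C3) ≤ ∑ p ∈ PP y x, rt χ t p / p := by
  have h1 : ∑ p ∈ PP y x, (rt χ 0 p / p - rt χ t p / p) ≤
      ∑ p ∈ (Icc 1 x).filter Nat.Prime, |t| * (Real.log p / p) := by
    calc _ ≤ ∑ p ∈ PP y x, |t| * (Real.log p / p) := by
          apply sum_le_sum
          intro p _
          have := small_t χ t p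
          rw [← sub_div, mul_div_assoc']
          apply div_le_div_of_nonneg_right _ (Nat.cast_nonneg p)
          rw [abs_sub_comm] at this
          exact (le_abs_self _).trans this
      _ ≤ _ := by
          apply sum_le_sum_of_subset_of_nonneg
          · intro p hp
            rw [mem_PP] at hp
            rw [mem_filter, mem_Icc]
            exact ⟨⟨by omega, hp.1.2⟩, hp.2⟩
          · intro p _ _
            have := Real.log_natCast_nonneg p
            positivity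
  rw [sum_sub_distrib, ← mul_sum] at h1
  have h2 := mul_le_mul_of_nonneg_left (h3 x hx) (abs_nonneg t)
  linarith

/-- **the lower bound for all characters** -/
theorem lower_all : ∃ C : ℝ, 0 < C ∧ ∀ (q : ℕ) [NeZero q] (y z : ℕ), 3 ≤ y → y ≤ z → q ≤ y →
    (∀ χ : DirichletCharacter ℂ q, χ ≠ 1 → χ ^ 2 = 1 →
      -(3 / 5) * WW y z ≤ ∑ p ∈ PP y z, rt χ 0 p / p) →
    ∀ t : ℝ, lq q (2 * t) ≤ Real.log y → ∀ χ : DirichletCharacter ℂ q,
    -(9 / 10) * WW y z - C ≤ ∑ p ∈ PP y z, rt χ t p / p := by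
  obtain ⟨C1, hC1, hnp⟩ := upper_np
  obtain ⟨C2, hC2, hpr⟩ := upper_pr
  obtain ⟨C3, hC3, hls⟩ := log_sum
  refine ⟨C1 + C2 + C3 + 1, by positivity, fun q _ y z hy hyz hqy hne t hlq χ => ?_⟩
  have hq : 0 < q := Nat.pos_of_ne_zero (NeZero.ne q)
  have hl1 := log_ge_one hy
  have hW0 := WW_nonneg y z
  have hell : ell (2 * t) ≤ Real.log y := (ell_le_lq q (2 * t)).trans hlq
  by_cases h2 : χ ^ 2 = 1
  swap
  · have h3 := hnp q (χ ^ 2) h2 (2 * t) y z hy hyz hlq
    have h4 := lower_341 hq χ t hqy (z := z)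
    linarith
  -- the square is principal
  have hcos : ∀ y' : ℕ, y ≤ y' → ∑ p ∈ PP y' z, rt (χ ^ 2) (2 * t) p / p =
      ∑ p ∈ PP y' z, Real.cos (2 * t * Real.log p) / p := by
    intro y' hy'
    apply sum_congr rfl
    intro p hp
    rw [h2, rt_one (2 * t) (prime_coprime hq (hqy.trans hy') hp)]
  rcases le_or_gt 1 (|2 * t| * Real.log y) with h3 | h3
  · have h4 := hpr (2 * t) y z hy hyz hell h3
    have h5 := lower_341 hq χ t hqy (z := z)
    rw [hcos y le_rfl] at h5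
    linarith
  -- small `t`
  have ht2 : |2 * t| = 2 * |t| := by rw [abs_mul]; norm_num
  have htabs := abs_nonneg t
  rw [ht2] at h3
  have hts : 2 * |t| < 1 := by nlinarith
  have hreal : -(3 / 5) * WW y z ≤ ∑ p ∈ PP y z, rt χ 0 p / p := by
    by_cases h1 : χ = 1
    · have h5 : ∑ p ∈ PP y z, rt χ 0 p / p = WW y z := by
        unfold WW
        apply sum_congr rfl
        intro p hp
        rw [h1, rt_one 0 (prime_coprime hq hqy hp)]
        simp
      rw [h5]
      linarith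
    · exact hne χ h1 h2
  by_cases hcase : 2 * |t| * Real.log z ≤ 2
  · have h4 := small_t_sum hls χ t (y := y) (x := z) (by omega)
    have h5 : |t| * (Real.log z + C3) ≤ 1 + C3 := by nlinarith
    linarith
  have hcase' := not_le.1 hcase
  have htpos : 0 < 2 * |t| := by
    by_contra hc
    have h0 : |t| = 0 := by linarith
    rw [h0] at hcase'
    linarith
  set x : ℕ := ⌊Real.exp (1 / (2 * |t|))⌋₊ + 1 with hx
  have hex1 : 1 ≤ Real.exp (1 / (2 * |t|)) := Real.one_le_exp (by positivity)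
  have hxle : (x : ℝ) ≤ 2 * Real.exp (1 / (2 * |t|)) := by
    rw [hx]
    push_cast
    have := Nat.floor_le (by positivity : 0 ≤ Real.exp (1 / (2 * |t|)))
    linarith
  have hxge : Real.exp (1 / (2 * |t|)) ≤ x := by
    rw [hx]
    push_cast
    exact (Nat.lt_floor_add_one _).le
  have hx0 : (0 : ℝ) < x := by linarith
  have hlogx1 : 1 ≤ 2 * |t| * Real.log x := by
    have h4 : 1 / (2 * |t|) ≤ Real.log x := by
      rw [Real.le_log_iff_exp_le hx0]
      exact hxge
    rw [div_le_iff₀ htpos] at h4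
    linarith
  have hlogx2 : 2 * |t| * Real.log x ≤ 2 := by
    have h4 : Real.log x ≤ Real.log 2 + 1 / (2 * |t|) := by
      have := Real.log_le_log hx0 hxle
      rw [Real.log_mul two_ne_zero (Real.exp_pos _).ne', Real.log_exp] at this
      exact this
    have h5 : Real.log 2 ≤ 1 := by have := Real.log_two_lt_d9; linarith
    have h6 : 2 * |t| * (1 / (2 * |t|)) = 1 := mul_one_div_cancel htpos.ne'
    calc 2 * |t| * Real.log x ≤ 2 * |t| * (Real.log 2 + 1 / (2 * |t|)) :=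
          mul_le_mul_of_nonneg_left h4 htpos.le
      _ = 2 * |t| * Real.log 2 + 1 := by rw [mul_add, h6]
      _ ≤ 2 := by nlinarith
  have hyx : y ≤ x := by
    have h4 : Real.log y ≤ Real.log x := by
      have h5 : 2 * |t| * Real.log y ≤ 2 * |t| * Real.log x := by linarith
      exact le_of_mul_le_mul_left h5 htpos
    have h6 := (Real.log_le_log_iff (by positivity) hx0).1 h4
    exact_mod_cast h6
  have hxz : x ≤ z := by
    by_contra hc
    have h4 : (z : ℝ) ≤ x := by exact_mod_cast (not_le.1 hc).le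
    have h5 : Real.log z ≤ Real.log x :=
      Real.log_le_log (by exact_mod_cast (by omega : 0 < z)) h4
    have : 2 * |t| * Real.log z ≤ 2 * |t| * Real.log x := mul_le_mul_of_nonneg_left h5 htpos.le
    linarith
  have hlyx : Real.log y ≤ Real.log x := Real.log_le_log (by positivity) (by exact_mod_cast hyx)
  have s1 := WW_split hyx hxz (fun p => rt χ t p / p)
  have s2 := WW_split hyx hxz (fun p => rt χ 0 p / p)
  have s3 : WW y z = WW y x + WW x z := WW_split hyx hxz (fun p => (1 : ℝ) / p)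
  have a1 := small_t_sum hls χ t (y := y) (x := x) (by omega)
  have a2 : |t| * (Real.log x + C3) ≤ 1 + C3 := by nlinarith
  have a3 := lower_341 hq χ t (hqy.trans hyx) (z := z)
  rw [hcos x hyx] at a3
  have a4 := hpr (2 * t) x z (hy.trans hyx) hxz (hell.trans hlyx) (by rw [ht2]; exact hlogx1)
  have hW1 := WW_nonneg y x
  have hW2 := WW_nonneg x z
  have a5 : -WW y x ≤ ∑ p ∈ PP y x, rt χ 0 p / p := by
    unfold WW
    rw [← sum_neg_distrib]
    apply sum_le_sum
    intro p _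
    rw [← neg_div]
    apply div_le_div_of_nonneg_right _ (Nat.cast_nonneg p)
    exact (abs_le.1 (abs_rt_le χ 0 p)).1
  by_cases h1 : χ = 1
  · have h5 : ∑ p ∈ PP y x, rt χ 0 p / p = WW y x := by
      unfold WW
      apply sum_congr rfl
      intro p hp
      rw [h1, rt_one 0 (prime_coprime hq hqy hp)]
      simp
    linarith
  · have a6 := hnp q χ h1 0 x z (hy.trans hyx) hxz (by
      refine le_trans ?_ (hlq.trans hlyx)
      unfold lq
      have := ell_mono (s := 0) (t := 2 * t) (by rw [abs_zero]; exact abs_nonneg _)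
      linarith)
    linarith

end Pool.Agent.TH823.PS
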