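import Pool.Agent.H49.G.R_seed8.TH823.PS.LSint

set_option autoImplicit false

/-!
# From additive to multiplicative characters, and the multiplier inequality for all fractions `a/q`
-/

open Finset MeasureTheory
open scoped Real
open Pool.Agent.Helper112

namespace Pool.Agent.TH823.PS

open Pool.Agent.W66 Pool.Agent.W66L

lemma mem_rr {q a : ℕ} : a ∈ rr q ↔ a < q ∧ a.Coprime q := by
  unfold rr; rw [mem_filter, mem_range]

lemma cast_inj {q a b : ℕ} (ha : a < q) (hb : b < q) (h : (a : ZMod q) = b) : a = b := by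
  have h1 := (ZMod.natCast_eq_natCast_iff a b q).1 h
  exact Nat.ModEq.eq_of_lt_of_lt h1 ha hb

/-- Parseval for the characters modulo `q` -/
lemma pars {q : ℕ} [NeZero q] (v : ℕ → ℂ) :
    ∑ χ : DirichletCharacter ℂ q, ‖∑ a ∈ rr q, (starRingEnd ℂ) (χ (a : ZMod q)) * v a‖ ^ 2 =
      q.totient * ∑ a ∈ rr q, ‖v a‖ ^ 2 := by
  have h1 : ∀ χ : DirichletCharacter ℂ q,
      ((‖∑ a ∈ rr q, (starRingEnd ℂ) (χ (a : ZMod q)) * v a‖ ^ 2 : ℝ) : ℂ) =
      ∑ a ∈ rr q, ∑ b ∈ rr q, (v a * (starRingEnd ℂ) (v b)) *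
        (χ (b : ZMod q) * (starRingEnd ℂ) (χ (a : ZMod q))) := by
    intro χ
    push_cast
    rw [← Complex.mul_conj', map_sum, sum_mul_sum]
    apply sum_congr rfl
    intro a _
    apply sum_congr rfl
    intro b _
    rw [map_mul, Complex.conj_conj]
    ring
  have h2 : ((∑ χ : DirichletCharacter ℂ q,
      ‖∑ a ∈ rr q, (starRingEnd ℂ) (χ (a : ZMod q)) * v a‖ ^ 2 : ℝ) : ℂ) =
      ((q.totient * ∑ a ∈ rr q, ‖v a‖ ^ 2 : ℝ) : ℂ) := by
    rw [Complex.ofReal_sum]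
    simp only [h1]
    rw [sum_comm]
    push_cast
    rw [mul_sum]
    apply sum_congr rfl
    intro a ha
    rw [sum_comm]
    rw [mem_rr] at ha
    rw [sum_eq_single a]
    · rw [← mul_sum, sum_chi, if_pos ⟨rfl, (ZMod.isUnit_iff_coprime a q).2 ha.2⟩,
        Complex.mul_conj']
      ring
    · intro b hb hba
      rw [mem_rr] at hb
      rw [← mul_sum, sum_chi, if_neg, mul_zero]
      rintro ⟨h3, _⟩
      exact hba (cast_inj hb.1 ha.1 h3)
    · intro h3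
      exact absurd (mem_rr.2 ha) h3
  exact_mod_cast h2

/-- the twisted Ramanujan sum -/
noncomputable def tau {q : ℕ} (χ : DirichletCharacter ℂ q) (n : ℕ) : ℂ :=
  ∑ a ∈ rr q, (starRingEnd ℂ) (χ (a : ZMod q)) * ee (n * a / q)

lemma ee_mod {q : ℕ} (hq : 0 < q) (n m : ℕ) : ee (n * ((m % q : ℕ) : ℝ) / q) = ee (n * (m : ℝ) / q) := by
  have hq0 : (q : ℝ) ≠ 0 := by exact_mod_cast hq.ne'
  have h1 : (m : ℝ) = (m % q : ℕ) + q * (m / q : ℕ) := by exact_mod_cast (Nat.mod_add_div m q).symm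
  have h2 : (n : ℝ) * (m : ℝ) / q = n * ((m % q : ℕ) : ℝ) / q + ((n * (m / q) : ℕ) : ℝ) := by
    rw [h1]
    push_cast
    field_simp
  rw [h2, ls_ee_add, ls_ee_nat, mul_one]

lemma tau_mul {q : ℕ} (hq : 0 < q) (χ : DirichletCharacter ℂ q) {p : ℕ} (hp : p.Coprime q) (n : ℕ) :
    tau χ (p * n) = χ (p : ZMod q) * tau χ n := by
  unfold tau
  rw [mul_sum]
  have hpu : ‖χ (p : ZMod q)‖ = 1 := by
    obtain ⟨u, hu⟩ := (ZMod.isUnit_iff_coprime p q).2 hp
    rw [← hu]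
    exact χ.unit_norm_eq_one u
  have hpc : χ (p : ZMod q) * (starRingEnd ℂ) (χ (p : ZMod q)) = 1 := by
    rw [Complex.mul_conj', hpu]; norm_num
  have hmaps : ∀ a ∈ rr q, (p * a) % q ∈ rr q := by
    intro a ha
    rw [mem_rr] at ha ⊢
    refine ⟨Nat.mod_lt _ hq, ?_⟩
    have h1 : (p * a).Coprime q := hp.mul_left ha.2
    unfold Nat.Coprime at h1 ⊢
    rw [← Nat.gcd_rec, Nat.gcd_comm]
    exact h1
  have hinj : Set.InjOn (fun a => (p * a) % q) (rr q : Set ℕ) := by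
    intro a ha b hb hab
    rw [mem_coe, mem_rr] at ha hb
    have h1 : p * a ≡ p * b [MOD q] := hab
    have h2 : a ≡ b [MOD q] := Nat.ModEq.cancel_left_of_coprime (by rw [Nat.gcd_comm]; exact hp) h1
    exact Nat.ModEq.eq_of_lt_of_lt h2 ha.1 hb.1
  have hsurj : Set.SurjOn (fun a => (p * a) % q) (rr q : Set ℕ) (rr q : Set ℕ) :=
    Finset.surjOn_of_injOn_of_card_le _ (fun a ha => hmaps a ha) hinj le_rfl
  refine sum_nbij (fun a => (p * a) % q) hmaps hinj hsurj ?_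
  intro a _
  rw [ee_mod hq]
  have h3 : (((p * a) % q : ℕ) : ZMod q) = (p : ZMod q) * (a : ZMod q) := by
    rw [ZMod.natCast_mod]; push_cast; rfl
  rw [h3, map_mul, map_mul]
  have h4 : ((p * n : ℕ) : ℝ) * a / q = n * ((p * a : ℕ) : ℝ) / q := by push_cast; ring
  rw [h4]
  linear_combination (-(starRingEnd ℂ) (χ (a : ZMod q)) * ee (n * ((p * a : ℕ) : ℝ) / q)) * hpc

/-- a sum of translates -/
noncomputable def gen (V : ℝ → ℂ) (S : Finset ℕ) (c : ℕ → ℂ) (x : ℝ) : ℂ :=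
  ∑ l ∈ S, c l * V (x - Real.log l)

lemma gen_lin {q : ℕ} (χ : DirichletCharacter ℂ q) (V : ℝ → ℂ) (S : Finset ℕ) (c : ℕ → ℂ) (x : ℝ) :
    ∑ a ∈ rr q, (starRingEnd ℂ) (χ (a : ZMod q)) * gen V S (fun n => c n * ee (n * a / q)) x =
      gen V S (fun n => c n * tau χ n) x := by
  unfold gen tau
  simp only [mul_sum, sum_mul]
  rw [sum_comm]
  apply sum_congr rfl
  intro n _
  apply sum_congr rfl
  intro a _
  ring

/-- the mean squares over the fractions and over the characters -/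
lemma mean_chars {q : ℕ} [NeZero q] (V : ℝ → ℂ) (S : Finset ℕ) (c : ℕ → ℂ)
    (hi : ∀ c' : ℕ → ℂ, Integrable fun x => ‖gen V S c' x‖ ^ 2) :
    (q.totient : ℝ) * ∑ a ∈ rr q, ∫ x, ‖gen V S (fun n => c n * ee (n * a / q)) x‖ ^ 2 =
      ∑ χ : DirichletCharacter ℂ q, ∫ x, ‖gen V S (fun n => c n * tau χ n) x‖ ^ 2 := by
  rw [← integral_finsetSum _ (fun χ _ => hi _), ← integral_finsetSum _ (fun a _ => hi _),
    ← integral_const_mul]
  congr 1
  ext x
  rw [← pars]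
  apply sum_congr rfl
  intro χ _
  rw [gen_lin]

/-- **the multiplier inequality for the fractions with denominator `q`** -/
theorem per_q {q : ℕ} [NeZero q] {W : ℝ} {P S K : Finset ℕ} (c : ℕ → ℂ)
    (hP : ∀ p ∈ P, 0 < p ∧ p.Coprime q) (hS : ∀ s ∈ S, 0 < s) (hSK : ∀ s ∈ S, s ∈ K)
    (hPK : ∀ s ∈ S, ∀ p ∈ P, p * s ∈ K) {h κ Ξ : ℝ} (hh : 0 < h) (hκ : 0 < κ) (hΞ : 0 < Ξ)
    (hm : ∀ χ : DirichletCharacter ℂ q, ∀ ξ : ℝ, |ξ| ≤ Ξ →
      κ ≤ ‖mult W P (fun p => -(χ (p : ZMod q) / p)) ξ‖) :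
    ∑ a ∈ rr q, ∫ x, ‖ggC h S (fun n => c n * ee (n * a / q)) x‖ ^ 2 ≤
      (1 / κ) ^ 2 * (∑ a ∈ rr q,
        ∫ x, ‖ggC h K (fun n => gco W P (fun p => -(1 / p)) S c n * ee (n * a / q)) x‖ ^ 2) +
      (1 / (h * Ξ)) ^ 2 * (∑ a ∈ rr q, ∫ x, ‖bbC h S (fun n => c n * ee (n * a / q)) x‖ ^ 2) := by
  have hq : 0 < q := Nat.pos_of_ne_zero (NeZero.ne q)
  have hφ : (0 : ℝ) < q.totient := by exact_mod_cast Nat.totient_pos.2 hq
  have e1 := mean_chars (q := q) (triC h) S c (fun c' => ggC_sq_integrable hh S c')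
  have e2 := mean_chars (q := q) (triC h) K (gco W P (fun p => -(1 / p)) S c)
    (fun c' => ggC_sq_integrable hh K c')
  have e3 := mean_chars (q := q) (boxC h) S c (fun c' => bbC_sq_integrable h S c')
  have e4 : ∀ χ : DirichletCharacter ℂ q,
      (∫ x, ‖gen (triC h) S (fun n => c n * tau χ n) x‖ ^ 2) ≤
      (1 / κ) ^ 2 * (∫ x, ‖gen (triC h) K (fun n => gco W P (fun p => -(1 / p)) S c n * tau χ n) x‖ ^ 2) +
      (1 / (h * Ξ)) ^ 2 * (∫ x, ‖gen (boxC h) S (fun n => c n * tau χ n) x‖ ^ 2) := by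
    intro χ
    have h1 := planch (W := W) (P := P) (w := fun p => -(χ (p : ZMod q) / p)) (S := S) (K := K)
      (fun n => c n * tau χ n) (fun p hp => (hP p hp).1) hS hSK hPK hh hκ hΞ (hm χ)
    have h2 : gco W P (fun p => -(χ (p : ZMod q) / p)) S (fun n => c n * tau χ n) =
        fun n => gco W P (fun p => -(1 / p)) S c n * tau χ n := by
      ext k
      unfold gco
      rw [sub_mul, sum_mul]
      congr 1
      · split_ifs
        · ring
        · ring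
      · apply sum_congr rfl
        intro p hp
        split_ifs with h3
        · have h4 : tau χ k = χ (p : ZMod q) * tau χ (k / p) := by
            rw [← tau_mul hq χ (hP p hp).2, Nat.mul_div_cancel' h3.1]
          rw [h4]
          ring
        · ring
    rw [h2] at h1
    exact h1
  have e5 : (q.totient : ℝ) * (∑ a ∈ rr q, ∫ x, ‖ggC h S (fun n => c n * ee (n * a / q)) x‖ ^ 2) ≤
      (q.totient : ℝ) * ((1 / κ) ^ 2 * (∑ a ∈ rr q,
        ∫ x, ‖ggC h K (fun n => gco W P (fun p => -(1 / p)) S c n * ee (n * a / q)) x‖ ^ 2) +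
      (1 / (h * Ξ)) ^ 2 * (∑ a ∈ rr q, ∫ x, ‖bbC h S (fun n => c n * ee (n * a / q)) x‖ ^ 2)) := by
    calc _ = ∑ χ : DirichletCharacter ℂ q, ∫ x, ‖gen (triC h) S (fun n => c n * tau χ n) x‖ ^ 2 := e1
      _ ≤ ∑ χ : DirichletCharacter ℂ q, ((1 / κ) ^ 2 *
          (∫ x, ‖gen (triC h) K (fun n => gco W P (fun p => -(1 / p)) S c n * tau χ n) x‖ ^ 2) +
          (1 / (h * Ξ)) ^ 2 * (∫ x, ‖gen (boxC h) S (fun n => c n * tau χ n) x‖ ^ 2)) :=
        sum_le_sum fun χ _ => e4 χ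
      _ = _ := by
        rw [sum_add_distrib, ← mul_sum, ← mul_sum, ← e2, ← e3]
        unfold gen ggC bbC
        ring
  exact le_of_mul_le_mul_left e5 hφ

end Pool.Agent.TH823.PS
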