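import Pool.Agent.H49.G.R_seed8.TH823.PS.Chars

set_option autoImplicit false

/-!
# The integrated large sieve
-/

open Finset MeasureTheory
open scoped Real
open Pool.Agent.Helper112

namespace Pool.Agent.TH823.PS

open Pool.Agent.W66 Pool.Agent.W66L

lemma ls_int (F : ℕ) (S : Finset ℕ) (hS : ∀ n ∈ S, 0 < n) (u : ℕ → ℂ) (v : ℝ → ℝ) {h : ℝ}
    (h0 : 0 < h) (h1 : h ≤ 1) (hv : ∀ y, h < |y| → v y = 0) (hv0 : ∀ y, 0 ≤ v y)
    (hv1 : ∀ y, v y ≤ 1 / h) (hvi : Integrable v) (hvs : ∫ y, v y = 1)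
    (hg : ∀ c' : ℕ → ℂ, Integrable fun x => ‖gen (fun y => ((v y : ℝ) : ℂ)) S c' x‖ ^ 2) :
    ∑ q ∈ Icc 1 F, ∑ a ∈ rr q,
      ∫ x, ‖gen (fun y => ((v y : ℝ) : ℂ)) S (fun n => u n * ee (n * a / q)) x‖ ^ 2 ≤
      ∑ n ∈ S, 6 * (15 * n + (1 + (F : ℝ) ^ 2) / h) * ‖u n‖ ^ 2 := by
  have hv2 : Integrable fun y => v y ^ 2 := by
    have : (fun y => v y ^ 2) = fun y => v y * v y := by ext y; ring
    rw [this]
    refine hvi.bdd_mul (c := 1 / h) hvi.aestronglyMeasurable (Filter.Eventually.of_forall fun y => ?_)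
    rw [Real.norm_of_nonneg (hv0 y)]
    exact hv1 y
  have hv2s : ∫ y, v y ^ 2 ≤ 1 / h := by
    calc ∫ y, v y ^ 2 ≤ ∫ y, 1 / h * v y := by
          apply integral_mono hv2 (hvi.const_mul _)
          intro y
          simp only
          rw [sq]
          exact mul_le_mul_of_nonneg_right (hv1 y) (hv0 y)
      _ = 1 / h := by rw [integral_const_mul, hvs, mul_one]
  have e1 : ∑ q ∈ Icc 1 F, ∑ a ∈ rr q,
      ∫ x, ‖gen (fun y => ((v y : ℝ) : ℂ)) S (fun n => u n * ee (n * a / q)) x‖ ^ 2 =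
      ∫ x, ∑ q ∈ Icc 1 F, ∑ a ∈ rr q,
        ‖gen (fun y => ((v y : ℝ) : ℂ)) S (fun n => u n * ee (n * a / q)) x‖ ^ 2 := by
    rw [integral_finsetSum _ (fun q _ => integrable_finsetSum _ fun a _ => hg _)]
    apply sum_congr rfl
    intro q _
    rw [integral_finsetSum _ (fun a _ => hg _)]
  rw [e1]
  have hti : ∀ n : ℕ, Integrable fun x : ℝ => v (x - Real.log n) ^ 2 := fun n =>
    hv2.comp_sub_right (Real.log n)
  calc _ ≤ ∫ x, ∑ n ∈ S, 6 * (15 * h * n + 1 + (F : ℝ) ^ 2) * (‖u n‖ ^ 2 * v (x - Real.log n) ^ 2) := by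
        apply integral_mono
        · exact integrable_finsetSum _ fun q _ => integrable_finsetSum _ fun a _ => hg _
        · exact integrable_finsetSum _ fun n _ => ((hti n).const_mul _).const_mul _
        · intro x
          exact ls_window F S hS u v h0 h1 hv x
    _ = ∑ n ∈ S, 6 * (15 * h * n + 1 + (F : ℝ) ^ 2) * (‖u n‖ ^ 2 * ∫ y, v y ^ 2) := by
        rw [integral_finsetSum _ fun n _ => ((hti n).const_mul _).const_mul _]
        apply sum_congr rfl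
        intro n _
        rw [integral_const_mul, integral_const_mul]
        congr 2
        exact integral_sub_right_eq_self (fun y => v y ^ 2) (Real.log n)
    _ ≤ _ := by
        apply sum_le_sum
        intro n _
        have h3 : ‖u n‖ ^ 2 * ∫ y, v y ^ 2 ≤ ‖u n‖ ^ 2 * (1 / h) :=
          mul_le_mul_of_nonneg_left hv2s (by positivity)
        calc 6 * (15 * h * n + 1 + (F : ℝ) ^ 2) * (‖u n‖ ^ 2 * ∫ y, v y ^ 2)
            ≤ 6 * (15 * h * n + 1 + (F : ℝ) ^ 2) * (‖u n‖ ^ 2 * (1 / h)) :=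
              mul_le_mul_of_nonneg_left h3 (by positivity)
          _ = _ := by field_simp; ring

lemma ls_gg (F : ℕ) (S : Finset ℕ) (hS : ∀ n ∈ S, 0 < n) (u : ℕ → ℂ) {h : ℝ}
    (h0 : 0 < h) (h1 : h ≤ 1) :
    ∑ q ∈ Icc 1 F, ∑ a ∈ rr q, ∫ x, ‖ggC h S (fun n => u n * ee (n * a / q)) x‖ ^ 2 ≤
      ∑ n ∈ S, 6 * (15 * n + (1 + (F : ℝ) ^ 2) / h) * ‖u n‖ ^ 2 :=
  ls_int F S hS u (tri h) h0 h1 (fun y hy => tri_zero_of h0 hy.le) (tri_nonneg h0) (tri_le h0)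
    (tri_integrable h0) (integral_tri h0) (fun c' => ggC_sq_integrable h0 S c')

lemma ls_bb (F : ℕ) (S : Finset ℕ) (hS : ∀ n ∈ S, 0 < n) (u : ℕ → ℂ) {h : ℝ}
    (h0 : 0 < h) (h1 : h ≤ 1) :
    ∑ q ∈ Icc 1 F, ∑ a ∈ rr q, ∫ x, ‖bbC h S (fun n => u n * ee (n * a / q)) x‖ ^ 2 ≤
      ∑ n ∈ S, 6 * (15 * n + (1 + (F : ℝ) ^ 2) / h) * ‖u n‖ ^ 2 :=
  ls_int F S hS u (box h) h0 h1 (fun y hy => by
    unfold Pool.Agent.W66.box; rw [if_neg]; push Not; linarith [abs_nonneg y]) (box_nonneg h0) (box_le h0)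
    (box_integrable h) (integral_box h0) (fun c' => bbC_sq_integrable h S c')

/-- the energy of the sums of `c n e(n a/q)` in the windows -/
noncomputable def EE (h : ℝ) (F : ℕ) (S : Finset ℕ) (c : ℕ → ℂ) (x : ℝ) : ℝ :=
  ∑ q ∈ Icc 1 F, ∑ a ∈ rr q, ‖ggC h S (fun n => c n * ee (n * a / q)) x‖ ^ 2

/-- the multiplier inequality for all fractions -/
theorem energy_mult {F : ℕ} {W : ℝ} {P S K : Finset ℕ} (c : ℕ → ℂ)
    (hP : ∀ p ∈ P, p.Prime ∧ F < p) (hS : ∀ s ∈ S, 0 < s) (hSK : ∀ s ∈ S, s ∈ K)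
    (hK : ∀ s ∈ K, 0 < s)
    (hPK : ∀ s ∈ S, ∀ p ∈ P, p * s ∈ K) {h κ Ξ : ℝ} (h0 : 0 < h) (h1 : h ≤ 1) (hκ : 0 < κ) (hΞ : 0 < Ξ)
    (hm : ∀ (q : ℕ) [NeZero q], q ≤ F → ∀ χ : DirichletCharacter ℂ q, ∀ ξ : ℝ, |ξ| ≤ Ξ →
      κ ≤ ‖mult W P (fun p => -(χ (p : ZMod q) / p)) ξ‖) :
    ∫ x, EE h F S c x ≤
      (1 / κ) ^ 2 * (∑ n ∈ K, 6 * (15 * n + (1 + (F : ℝ) ^ 2) / h) *
        ‖gco W P (fun p => -(1 / p)) S c n‖ ^ 2) +
      (1 / (h * Ξ)) ^ 2 * (∑ n ∈ S, 6 * (15 * n + (1 + (F : ℝ) ^ 2) / h) * ‖c n‖ ^ 2) := by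
  have e1 : ∫ x, EE h F S c x = ∑ q ∈ Icc 1 F, ∑ a ∈ rr q,
      ∫ x, ‖ggC h S (fun n => c n * ee (n * a / q)) x‖ ^ 2 := by
    unfold EE
    rw [integral_finsetSum _ (fun q _ => integrable_finsetSum _ fun a _ => ggC_sq_integrable h0 S _)]
    apply sum_congr rfl
    intro q _
    rw [integral_finsetSum _ (fun a _ => ggC_sq_integrable h0 S _)]
  rw [e1]
  have e2 : ∑ q ∈ Icc 1 F, ∑ a ∈ rr q, ∫ x, ‖ggC h S (fun n => c n * ee (n * a / q)) x‖ ^ 2 ≤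
      ∑ q ∈ Icc 1 F, ((1 / κ) ^ 2 * (∑ a ∈ rr q,
        ∫ x, ‖ggC h K (fun n => gco W P (fun p => -(1 / p)) S c n * ee (n * a / q)) x‖ ^ 2) +
      (1 / (h * Ξ)) ^ 2 * (∑ a ∈ rr q, ∫ x, ‖bbC h S (fun n => c n * ee (n * a / q)) x‖ ^ 2)) := by
    apply sum_le_sum
    intro q hq
    rw [mem_Icc] at hq
    have : NeZero q := ⟨by omega⟩
    refine per_q c (fun p hp => ⟨(hP p hp).1.pos, ?_⟩) hS hSK hPK h0 hκ hΞ (hm q hq.2)
    rw [Nat.Prime.coprime_iff_not_dvd (hP p hp).1]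
    intro hd
    have := Nat.le_of_dvd (by omega) hd
    have := (hP p hp).2
    omega
  refine e2.trans ?_
  rw [sum_add_distrib, ← mul_sum, ← mul_sum]
  apply add_le_add
  · exact mul_le_mul_of_nonneg_left (ls_gg F K hK _ h0 h1) (by positivity)
  · exact mul_le_mul_of_nonneg_left (ls_bb F S hS _ h0 h1) (by positivity)

end Pool.Agent.TH823.PS
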