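import Pool.Agent.H49.G.R_seed8.TH823.PS.CharSum

set_option autoImplicit false

/-!
# Arbitrarily large scales without exceptional real character
-/

open Finset
open ArithmeticFunction (vonMangoldt)

namespace Pool.Agent.TH823.PS

open Pool.Agent.W66 Pool.Agent.W66L

/-- no exceptional real character at the scale `Q` -/
def NE (A E Q : ℕ) : Prop := ∀ (q : ℕ) [NeZero q], q ≤ Q → ∀ χ : DirichletCharacter ℂ q, χ ≠ 1 →
  χ ^ 2 = 1 → -(3 / 5) * WW (Q ^ A) (Q ^ (A * E)) ≤ ∑ p ∈ PP (Q ^ A) (Q ^ (A * E)), rt χ 0 p / p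

lemma WW_est : ∃ C : ℝ, 0 < C ∧ ∀ Q a b : ℕ, 3 ≤ Q → 1 ≤ a → a ≤ b →
    |WW (Q ^ a) (Q ^ b) - Real.log ((b : ℝ) / a)| ≤ C := by
  obtain ⟨C, hC, h⟩ := Pool.Agent.Helper923.HMertens.mertens_ratio
  refine ⟨C + 1, by positivity, fun Q a b hQ ha hab => ?_⟩
  have hl := log_ge_one hQ
  have hQ0 : (0 : ℝ) < Q := by positivity
  have h1 := h (Q ^ a) (Q ^ b) ((by omega : 2 ≤ Q).trans (Nat.le_self_pow (by omega) Q))
    (Nat.pow_le_pow_right (by omega) hab)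
  have h2 : Real.log ((Q ^ b : ℕ) : ℝ) / Real.log ((Q ^ a : ℕ) : ℝ) = (b : ℝ) / a := by
    push_cast
    rw [Real.log_pow, Real.log_pow, mul_div_mul_right _ _ (by linarith)]
  rw [h2] at h1
  unfold WW PP
  refine h1.trans ?_
  have h3 : 1 ≤ Real.log ((Q ^ a : ℕ) : ℝ) := by
    push_cast
    rw [Real.log_pow]
    have : (1 : ℝ) ≤ a := by exact_mod_cast ha
    nlinarith
  have h4 : C / Real.log ((Q ^ a : ℕ) : ℝ) ≤ C := div_le_self hC h3
  linarith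

lemma changeLevel_nat {q m : ℕ} (h : q ∣ m) (χ : DirichletCharacter ℂ q) {n : ℕ}
    (hn : n.Coprime m) : (DirichletCharacter.changeLevel h χ) (n : ZMod m) = χ (n : ZMod q) := by
  obtain ⟨u, hu⟩ := (ZMod.isUnit_iff_coprime n m).2 hn
  rw [← hu, DirichletCharacter.changeLevel_eq_cast_of_dvd χ h u, hu, ZMod.cast_natCast h]

/-- values of a real character at units -/
lemma real_val {q : ℕ} {χ : DirichletCharacter ℂ q} (h2 : χ ^ 2 = 1) {n : ℕ} (hn : n.Coprime q) :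
    χ (n : ZMod q) = 1 ∨ χ (n : ZMod q) = -1 := by
  have h3 : χ (n : ZMod q) ^ 2 = 1 := by
    rw [← MulChar.pow_apply' _ two_ne_zero, h2, MulChar.one_apply ((ZMod.isUnit_iff_coprime n q).2 hn)]
  have h4 : (χ (n : ZMod q) - 1) * (χ (n : ZMod q) + 1) = 0 := by linear_combination h3
  rcases mul_eq_zero.1 h4 with h5 | h5
  · left; linear_combination h5
  · right; linear_combination h5

lemma rt_zero {q : ℕ} (χ : DirichletCharacter ℂ q) (n : ℕ) : rt χ 0 n = (χ (n : ZMod q)).re := by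
  unfold rt ct
  simp

lemma sum_ge_neg {q : ℕ} (χ : DirichletCharacter ℂ q) (y z : ℕ) :
    -WW y z ≤ ∑ p ∈ PP y z, rt χ 0 p / p := by
  unfold WW
  rw [← sum_neg_distrib]
  apply sum_le_sum
  intro p _
  rw [← neg_div]
  apply div_le_div_of_nonneg_right _ (Nat.cast_nonneg p)
  exact (abs_le.1 (abs_rt_le χ 0 p)).1

/-- two consecutive exceptional scales have the same character -/
lemma step : ∃ E0 : ℕ, ∀ E : ℕ, E0 ≤ E → ∀ A Q : ℕ, 2 ≤ A → 3 ≤ Q → ∀ (q₁ q₂ : ℕ) [NeZero q₁]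
    [NeZero q₂] (χ₁ : DirichletCharacter ℂ q₁) (χ₂ : DirichletCharacter ℂ q₂), q₁ ≤ Q → q₂ ≤ Q ^ 2 →
    χ₁ ^ 2 = 1 → χ₂ ^ 2 = 1 →
    (∑ p ∈ PP (Q ^ A) (Q ^ (A * E)), rt χ₁ 0 p / p < -(3 / 5) * WW (Q ^ A) (Q ^ (A * E))) →
    (∑ p ∈ PP (Q ^ (2 * A)) (Q ^ (2 * (A * E))), rt χ₂ 0 p / p <
      -(3 / 5) * WW (Q ^ (2 * A)) (Q ^ (2 * (A * E)))) →
    ∀ p : ℕ, p.Prime → Q ^ 2 < p → rt χ₁ 0 p = rt χ₂ 0 p := by
  obtain ⟨C, hC, hW⟩ := WW_est
  obtain ⟨C1, hC1, hnp⟩ := upper_np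
  obtain ⟨E0, hE0⟩ := exists_nat_ge (Real.exp (5 * (5 * C + 2 + C1)))
  refine ⟨E0 + 2, fun E hE A Q hA hQ q₁ q₂ _ _ χ₁ χ₂ hq1 hq2 h1 h2 hS1 hS2 => ?_⟩
  have hlE : 5 * (5 * C + 2 + C1) < Real.log E := by
    rw [Real.lt_log_iff_exp_lt (by exact_mod_cast (by omega : 0 < E))]
    refine lt_of_le_of_lt hE0 ?_
    exact_mod_cast (by omega : E0 < E)
  have hQ0 : 0 < Q := by omega
  have hq1p : 0 < q₁ := Nat.pos_of_ne_zero (NeZero.ne q₁)
  have hq2p : 0 < q₂ := Nat.pos_of_ne_zero (NeZero.ne q₂)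
  have : NeZero (q₁ * q₂) := ⟨(Nat.mul_pos hq1p hq2p).ne'⟩
  have hAE : 2 * A ≤ A * E := by rw [mul_comm]; exact Nat.mul_le_mul_left A (by omega)
  have hqq : q₁ * q₂ ≤ Q ^ 3 := by
    calc q₁ * q₂ ≤ Q * Q ^ 2 := Nat.mul_le_mul hq1 hq2
      _ = Q ^ 3 := by ring
  have hy1 : Q ^ 3 * 3 ≤ Q ^ (2 * A) := by
    calc Q ^ 3 * 3 ≤ Q ^ 3 * Q := Nat.mul_le_mul_left _ hQ
      _ = Q ^ 4 := by ring
      _ ≤ Q ^ (2 * A) := Nat.pow_le_pow_right hQ0 (by omega)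
  have hl01 : Q ^ A ≤ Q ^ (2 * A) := Nat.pow_le_pow_right hQ0 (by omega)
  have hl12 : Q ^ (2 * A) ≤ Q ^ (A * E) := Nat.pow_le_pow_right hQ0 hAE
  have hl23 : Q ^ (A * E) ≤ Q ^ (2 * (A * E)) := Nat.pow_le_pow_right hQ0 (by omega)
  set ψ : DirichletCharacter ℂ (q₁ * q₂) :=
    (DirichletCharacter.changeLevel (dvd_mul_right q₁ q₂) χ₁) *
      (DirichletCharacter.changeLevel (dvd_mul_left q₂ q₁) χ₂) with hψ
  have hψv : ∀ n : ℕ, n.Coprime (q₁ * q₂) → ψ (n : ZMod (q₁ * q₂)) =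
      χ₁ (n : ZMod q₁) * χ₂ (n : ZMod q₂) := by
    intro n hn
    rw [hψ, MulChar.mul_apply, changeLevel_nat _ _ hn, changeLevel_nat _ _ hn]
  have hcop : ∀ p : ℕ, p.Prime → Q ^ 2 < p → p.Coprime q₁ ∧ p.Coprime q₂ := by
    intro p hp hpQ
    have hQQ : Q ≤ Q ^ 2 := Nat.le_self_pow two_ne_zero Q
    constructor
    · rw [Nat.Prime.coprime_iff_not_dvd hp]
      intro h
      have := Nat.le_of_dvd hq1p h
      omega
    · rw [Nat.Prime.coprime_iff_not_dvd hp]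
      intro h
      have := Nat.le_of_dvd hq2p h
      omega
  by_cases hψ1 : ψ = 1
  · intro p hp hpQ
    obtain ⟨c1, c2⟩ := hcop p hp hpQ
    have h3 := hψv p (c1.mul_right c2)
    rw [hψ1, MulChar.one_apply ((ZMod.isUnit_iff_coprime p _).2 (c1.mul_right c2))] at h3
    rw [rt_zero, rt_zero]
    rcases real_val h1 c1 with h4 | h4 <;> rcases real_val h2 c2 with h5 | h5 <;>
      rw [h4, h5] at h3 ⊢ <;> norm_num at h3
  · exfalso
    have hlq : lq (q₁ * q₂) 0 ≤ Real.log ((Q ^ (2 * A) : ℕ) : ℝ) := by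
      unfold lq ell
      rw [abs_zero, zero_add, ← Real.log_mul (by exact_mod_cast (NeZero.ne (q₁ * q₂))) (by norm_num)]
      apply Real.log_le_log
      · have : (0 : ℝ) < ((q₁ * q₂ : ℕ) : ℝ) := by exact_mod_cast Nat.mul_pos hq1p hq2p
        positivity
      · have : q₁ * q₂ * 3 ≤ Q ^ (2 * A) := (Nat.mul_le_mul_right 3 hqq).trans hy1
        exact_mod_cast this
    have h3y : 3 ≤ Q ^ (2 * A) := hQ.trans (Nat.le_self_pow (by omega) Q)
    have hab := hnp (q₁ * q₂) ψ hψ1 0 (Q ^ (2 * A)) (Q ^ (A * E)) h3y hl12 hlq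
    -- positivity
    have hpos : 0 ≤ ∑ p ∈ PP (Q ^ (2 * A)) (Q ^ (A * E)),
        (1 + rt χ₁ 0 p) * (1 + rt χ₂ 0 p) / p := by
      apply sum_nonneg
      intro p _
      have a1 := (abs_le.1 (abs_rt_le χ₁ 0 p)).1
      have a2 := (abs_le.1 (abs_rt_le χ₂ 0 p)).1
      apply div_nonneg _ (Nat.cast_nonneg p)
      exact mul_nonneg (by linarith) (by linarith)
    have hexp : ∑ p ∈ PP (Q ^ (2 * A)) (Q ^ (A * E)), (1 + rt χ₁ 0 p) * (1 + rt χ₂ 0 p) / p =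
        WW (Q ^ (2 * A)) (Q ^ (A * E)) + ∑ p ∈ PP (Q ^ (2 * A)) (Q ^ (A * E)), rt χ₁ 0 p / p +
        ∑ p ∈ PP (Q ^ (2 * A)) (Q ^ (A * E)), rt χ₂ 0 p / p +
        ∑ p ∈ PP (Q ^ (2 * A)) (Q ^ (A * E)), rt ψ 0 p / p := by
      unfold WW
      rw [← sum_add_distrib, ← sum_add_distrib, ← sum_add_distrib]
      apply sum_congr rfl
      intro p hp
      rw [mem_PP] at hp
      have hpQ : Q ^ 2 < p := lt_of_le_of_lt (Nat.pow_le_pow_right hQ0 (by omega)) hp.1.1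
      obtain ⟨c1, c2⟩ := hcop p hp.2 hpQ
      have h5 : rt ψ 0 p = rt χ₁ 0 p * rt χ₂ 0 p := by
        rw [rt_zero, rt_zero, rt_zero, hψv p (c1.mul_right c2)]
        rcases real_val h1 c1 with h4 | h4 <;> rcases real_val h2 c2 with h5 | h5 <;>
          rw [h4, h5] <;> norm_num
      rw [h5]
      ring
    have s1 := WW_split hl01 hl12 (fun p => rt χ₁ 0 p / p)
    have s2 := WW_split hl12 hl23 (fun p => rt χ₂ 0 p / p)
    have b1 := sum_ge_neg χ₁ (Q ^ A) (Q ^ (2 * A))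
    have b2 := sum_ge_neg χ₂ (Q ^ (A * E)) (Q ^ (2 * (A * E)))
    have hA0 : (0 : ℝ) < A := by exact_mod_cast (by omega : 0 < A)
    have hE0' : (0 : ℝ) < E := by exact_mod_cast (by omega : 0 < E)
    have w1 := (abs_le.1 (hW Q A (A * E) hQ (by omega) (by omega))).1
    have w2 := (abs_le.1 (hW Q (2 * A) (2 * (A * E)) hQ (by omega) (by omega))).1
    have w3 := (abs_le.1 (hW Q (2 * A) (A * E) hQ (by omega) hAE)).2
    have w4 := (abs_le.1 (hW Q A (2 * A) hQ (by omega) (by omega))).2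
    have w5 := (abs_le.1 (hW Q (A * E) (2 * (A * E)) hQ (by omega) (by omega))).2
    have e1 : (((A * E : ℕ) : ℝ) / A) = E := by push_cast; field_simp
    have e2 : (((2 * (A * E) : ℕ) : ℝ) / ((2 * A : ℕ) : ℝ)) = E := by push_cast; field_simp
    have e3 : (((A * E : ℕ) : ℝ) / ((2 * A : ℕ) : ℝ)) = E / 2 := by push_cast; field_simp
    have e4 : (((2 * A : ℕ) : ℝ) / A) = 2 := by push_cast; field_simp
    have e5 : (((2 * (A * E) : ℕ) : ℝ) / ((A * E : ℕ) : ℝ)) = 2 := by push_cast; field_simp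
    rw [e1] at w1
    rw [e2] at w2
    rw [e3] at w3
    rw [e4] at w4
    rw [e5] at w5
    have l2 : Real.log 2 ≤ 1 := by have := Real.log_two_lt_d9; linarith
    have l3 : Real.log (E / 2) ≤ Real.log E := by
      apply Real.log_le_log (by positivity)
      linarith
    linarith

/-- bounded logarithmic derivative on the real segment -/
lemma bounded_DL {q : ℕ} [NeZero q] (χ : DirichletCharacter ℂ q) (hχ : χ ≠ 1) :
    ∃ B : ℝ, 0 ≤ B ∧ ∀ σ : ℝ, 1 < σ → σ ≤ 2 →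
      (∑' n : ℕ, (-rt χ 0 n) * vonMangoldt n * (n : ℝ) ^ (-σ)) ≤ B := by
  have hd : Differentiable ℂ χ.LFunction := DirichletCharacter.differentiable_LFunction hχ
  have hdc : Continuous (deriv χ.LFunction) := (hd.contDiff (n := 1)).continuous_deriv le_rfl
  have hc : ContinuousOn (fun σ : ℝ => ‖deriv χ.LFunction ⟨σ, 0⟩ / χ.LFunction ⟨σ, 0⟩‖) (Set.Icc 1 2) := by
    have hco : Continuous (fun σ : ℝ => (⟨σ, 0⟩ : ℂ)) := by
      have : (fun σ : ℝ => (⟨σ, 0⟩ : ℂ)) = fun σ : ℝ => (σ : ℂ) := by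
        ext σ; apply Complex.ext <;> simp
      rw [this]
      exact Complex.continuous_ofReal
    apply ContinuousOn.norm
    apply ContinuousOn.div (hdc.comp hco).continuousOn (hd.continuous.comp hco).continuousOn
    intro σ hσ
    exact LF_ne_zero hχ (by exact hσ.1)
  obtain ⟨B, hB⟩ := isCompact_Icc.bddAbove_image hc
  refine ⟨max B 0, le_max_right _ _, fun σ h1 h2 => ?_⟩
  have h3 : (∑' n : ℕ, (-rt χ 0 n) * vonMangoldt n * (n : ℝ) ^ (-σ)) =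
      -(∑' n : ℕ, rt χ 0 n * vonMangoldt n * (n : ℝ) ^ (-σ)) := by
    rw [← tsum_neg]
    apply tsum_congr
    intro n
    ring
  rw [h3, tsum_ct χ h1 0, LSeries_eq_DL χ hχ (by exact h1), Complex.neg_re, neg_neg]
  refine le_trans ?_ (le_max_left _ _)
  exact (Complex.re_le_norm _).trans (hB ⟨σ, ⟨h1.le, h2⟩, rfl⟩)

/-- **arbitrarily large scales without exceptional character** -/
theorem good_scales : ∃ E0 : ℕ, ∀ E : ℕ, E0 ≤ E → ∀ A : ℕ, 2 ≤ A → ∀ Q0 : ℕ, ∃ Q : ℕ, Q0 ≤ Q ∧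
    NE A E Q := by
  obtain ⟨E1, hE1⟩ := step
  obtain ⟨C, hC, hW⟩ := WW_est
  obtain ⟨C2, hC2, hps⟩ := prime_sum
  obtain ⟨E2, hE2⟩ := exists_nat_ge (Real.exp (2 * (1 + C2) + C + 1))
  refine ⟨E1 + E2 + 2, fun E hE A hA Q0 => ?_⟩
  by_contra hcon
  push Not at hcon
  set R : ℕ := max Q0 3 with hR
  have hR3 : 3 ≤ R := le_max_right _ _
  set Qk : ℕ → ℕ := fun k => R ^ 2 ^ k with hQk
  have hQk3 : ∀ k, 3 ≤ Qk k := fun k => hR3.trans (Nat.le_self_pow (by positivity) R)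
  have hQk0 : ∀ k, Q0 ≤ Qk k := fun k =>
    (le_max_left Q0 3).trans (Nat.le_self_pow (by positivity) R)
  have hQs : ∀ k, Qk (k + 1) = Qk k ^ 2 := fun k => by
    rw [hQk]
    simp only
    rw [← pow_mul, pow_succ]
  have hbad : ∀ k, ∃ (q : ℕ) (_ : NeZero q) (χ : DirichletCharacter ℂ q), q ≤ Qk k ∧ χ ≠ 1 ∧
      χ ^ 2 = 1 ∧ ∑ p ∈ PP (Qk k ^ A) (Qk k ^ (A * E)), rt χ 0 p / p <
        -(3 / 5) * WW (Qk k ^ A) (Qk k ^ (A * E)) := by
    intro k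
    have h := hcon (Qk k) (hQk0 k)
    unfold NE at h
    push Not at h
    obtain ⟨q, hq, hqQ, χ, h1, h2, h3⟩ := h
    exact ⟨q, hq, χ, hqQ, h1, h2, h3⟩
  obtain ⟨q₀, hq0, χ₀, hq0Q, hχ01, hχ02, hS0⟩ := hbad 0
  have hchain : ∀ k, ∃ (q : ℕ) (_ : NeZero q) (χ : DirichletCharacter ℂ q), q ≤ Qk k ∧ χ ^ 2 = 1 ∧
      ∑ p ∈ PP (Qk k ^ A) (Qk k ^ (A * E)), rt χ 0 p / p <
        -(3 / 5) * WW (Qk k ^ A) (Qk k ^ (A * E)) ∧
      ∀ p : ℕ, p.Prime → Qk k < p → rt χ 0 p = rt χ₀ 0 p := by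
    intro k
    induction k with
    | zero => exact ⟨q₀, hq0, χ₀, hq0Q, hχ02, hS0, fun _ _ _ => rfl⟩
    | succ k ih =>
      obtain ⟨q, hq, χ, hqQ, hχ2, hS, hag⟩ := ih
      obtain ⟨q', hq', χ', hqQ', _, hχ2', hS'⟩ := hbad (k + 1)
      refine ⟨q', hq', χ', hqQ', hχ2', hS', fun p hp hpQ => ?_⟩
      rw [hQs] at hqQ' hS' hpQ
      have ee1 : (Qk k ^ 2) ^ A = Qk k ^ (2 * A) := (pow_mul _ _ _).symm
      have ee2 : (Qk k ^ 2) ^ (A * E) = Qk k ^ (2 * (A * E)) := (pow_mul _ _ _).symm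
      rw [ee1, ee2] at hS'
      have h4 := hE1 E (by omega) A (Qk k) hA (hQk3 k) q q' χ χ' hqQ hqQ' hχ2 hχ2' hS hS' p hp hpQ
      rw [← h4]
      apply hag p hp
      exact lt_of_le_of_lt (Nat.le_self_pow two_ne_zero _) hpQ
  obtain ⟨B, hB0, hB⟩ := bounded_DL χ₀ hχ01
  obtain ⟨k, hk⟩ := exists_nat_ge B
  obtain ⟨q, hq, χ, hqQ, hχ2, hS, hag⟩ := hchain k
  set y := Qk k ^ A with hy
  set z := Qk k ^ (A * E) with hz
  have hAE : A ≤ A * E := Nat.le_mul_of_pos_right A (by omega)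
  have hyz : y ≤ z := Nat.pow_le_pow_right (by have := hQk3 k; omega) hAE
  have hy3 : 3 ≤ y := (hQk3 k).trans (Nat.le_self_pow (by omega) _)
  have hlogy : B ≤ Real.log y := by
    have h5 : (2 : ℝ) ^ k ≤ Real.log y := by
      rw [hy, hQk]
      push_cast
      rw [Real.log_pow, Real.log_pow]
      have h6 := log_ge_one hR3
      have h7 : (1 : ℝ) ≤ A := by exact_mod_cast (by omega : 1 ≤ A)
      push_cast
      have h8 : (0 : ℝ) < 2 ^ k := by positivity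
      nlinarith [mul_le_mul h7 (le_of_lt h6) zero_le_one (by linarith), mul_pos h8 (by linarith : (0:ℝ) < Real.log R)]
    have h6 : (k : ℝ) ≤ 2 ^ k := by exact_mod_cast (Nat.lt_two_pow_self (n := k)).le
    linarith
  have hfin := hps (fun n => -rt χ₀ 0 n) (fun n => by rw [abs_neg]; exact abs_rt_le χ₀ 0 n) y z hy3 hyz
    B hB0 (by
      intro σ h1 h2
      have hl1 := log_ge_one hy3
      have hlyz : Real.log y ≤ Real.log z := Real.log_le_log (by positivity) (by exact_mod_cast hyz)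
      apply hB σ
      · have : 0 < 1 / Real.log z := one_div_pos.2 (by linarith)
        linarith
      · have : 1 / Real.log y ≤ 1 := by rw [div_le_one (by linarith)]; exact hl1.le
        linarith)
  have hBy : B / Real.log y ≤ 1 := by
    have hl1 := log_ge_one hy3
    rw [div_le_one (by linarith)]
    exact hlogy
  have hsum : ∑ p ∈ (Ioc y z).filter Nat.Prime, (-rt χ₀ 0 p) / p = -∑ p ∈ PP y z, rt χ 0 p / p := by
    unfold PP
    rw [← sum_neg_distrib]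
    apply sum_congr rfl
    intro p hp
    rw [mem_filter, mem_Ioc] at hp
    rw [hag p hp.2 (lt_of_le_of_lt (Nat.le_self_pow (by omega) _) hp.1.1)]
    ring
  rw [hsum] at hfin
  have hA0 : (0 : ℝ) < A := by exact_mod_cast (by omega : 0 < A)
  have w1 := (abs_le.1 (hW (Qk k) A (A * E) (hQk3 k) (by omega) hAE)).1
  have e1 : (((A * E : ℕ) : ℝ) / A) = E := by push_cast; field_simp
  rw [e1] at w1
  have hlE : 2 * (1 + C2) + C + 1 ≤ Real.log E := by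
    rw [Real.le_log_iff_exp_le (by exact_mod_cast (by omega : 0 < E))]
    refine hE2.trans ?_
    exact_mod_cast (by omega : E2 ≤ E)
  linarith

end Pool.Agent.TH823.PS
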