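import Pool.Agent.H49.G.R_seed8.TH823.PS.Planch
import Pool.Agent.H49.G.R_seed8.Helper112.LS

set_option autoImplicit false

/-!
# The additive large sieve for windows in logarithmic scale
-/

open Finset MeasureTheory
open Pool.Agent.Helper112

namespace Pool.Agent.TH823.PS

/-- the reduced residues modulo `q`, as natural numbers -/
def rr (q : ℕ) : Finset ℕ := (range q).filter (fun a => a.Coprime q)

lemma exp_window {h : ℝ} (h0 : 0 < h) (h1 : h ≤ 1) (x : ℝ) {n : ℝ} (hn : Real.exp (x - h) ≤ n) :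
    Real.exp (x + h) - Real.exp (x - h) ≤ 15 * h * n := by
  have e1 : Real.exp (x + h) = Real.exp (x - h) * Real.exp (2 * h) := by
    rw [← Real.exp_add]; ring_nf
  have h2 : Real.exp (2 * h) - 1 ≤ 15 * h := by
    -- convexity on [0, 2]
    have hc := convexOn_exp.2 (Set.mem_univ (0:ℝ)) (Set.mem_univ (2:ℝ))
      (by linarith : (0:ℝ) ≤ 1 - h) h0.le (by ring)
    simp only [smul_eq_mul, mul_zero, zero_add, Real.exp_zero, mul_one] at hc
    have e2 : Real.exp 2 ≤ 8 := by
      have e3 : Real.exp 2 = Real.exp 1 * Real.exp 1 := by rw [← Real.exp_add]; norm_num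
      rw [e3]
      have := Real.exp_one_lt_d9
      have h5 := Real.exp_pos 1
      nlinarith
    rw [mul_comm h 2] at hc
    nlinarith
  rw [e1]
  have h3 := Real.exp_pos (x - h)
  have h4 : Real.exp (x - h) * (Real.exp (2 * h) - 1) ≤ n * (15 * h) := by
    apply mul_le_mul hn h2
    · have := Real.one_le_exp (by linarith : 0 ≤ 2 * h)
      linarith
    · linarith
  linarith

/-- the large sieve in one window -/
theorem ls_window (F : ℕ) (S : Finset ℕ) (hS : ∀ n ∈ S, 0 < n) (u : ℕ → ℂ) (v : ℝ → ℝ) {h : ℝ}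
    (h0 : 0 < h) (h1 : h ≤ 1) (hv : ∀ y, h < |y| → v y = 0) (x : ℝ) :
    ∑ q ∈ Icc 1 F, ∑ a ∈ rr q,
      ‖∑ n ∈ S, (u n * ee (n * a / q)) * ((v (x - Real.log n) : ℝ) : ℂ)‖ ^ 2 ≤
      ∑ n ∈ S, 6 * (15 * h * n + 1 + (F : ℝ) ^ 2) * (‖u n‖ ^ 2 * v (x - Real.log n) ^ 2) := by
  classical
  set A : ℝ := Real.exp (x - h) with hA
  set B : ℝ := Real.exp (x + h) with hB
  have hA0 : 0 < A := Real.exp_pos _
  have hAB : A ≤ B := Real.exp_le_exp.2 (by linarith)
  set b : ℕ := ⌈A⌉₊ - 1 with hb
  have hb1 : ⌈A⌉₊ = b + 1 := by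
    have : 0 < ⌈A⌉₊ := Nat.ceil_pos.2 hA0
    omega
  set N : ℕ := ⌊B⌋₊ - b with hN
  have hbA : (b : ℝ) < A := by
    have := Nat.ceil_lt_add_one hA0.le
    rw [hb1] at this
    push_cast at this
    linarith
  have hbA' : A ≤ b + 1 := by
    have := Nat.le_ceil A
    rw [hb1] at this
    push_cast at this
    exact this
  have hNle : (N : ℝ) ≤ B - A + 1 := by
    rcases le_or_gt b ⌊B⌋₊ with h2 | h2
    · rw [hN, Nat.cast_sub h2]
      have := Nat.floor_le (hA0.le.trans hAB)
      linarith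
    · have : N = 0 := by omega
      rw [this]
      push_cast
      linarith
  -- members of the window
  have hwin : ∀ n : ℕ, 0 < n → v (x - Real.log n) ≠ 0 → b + 1 ≤ n ∧ n ≤ b + N ∧ A ≤ (n : ℝ) := by
    intro n hn hvn
    have h2 : |x - Real.log n| ≤ h := by
      by_contra hc
      exact hvn (hv _ (not_le.1 hc))
    rw [abs_le] at h2
    have hn' : (0 : ℝ) < n := by exact_mod_cast hn
    have h3 : A ≤ n := by
      rw [hA, ← Real.le_log_iff_exp_le hn']
      linarith
    have h4 : (n : ℝ) ≤ B := by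
      rw [hB, ← Real.log_le_iff_le_exp hn']
      linarith
    have h5 : b + 1 ≤ n := by
      rw [← hb1]
      exact Nat.ceil_le.2 h3
    have h6 : n ≤ ⌊B⌋₊ := Nat.le_floor h4
    exact ⟨h5, by omega, h3⟩
  set α : ℕ → ℂ := fun m => if b + m ∈ S then u (b + m) * ((v (x - Real.log ((b + m : ℕ) : ℝ)) : ℝ) : ℂ) else 0
    with hα
  have key : ∀ f : ℕ → ℂ, (∑ n ∈ S, (u n * f n) * ((v (x - Real.log n) : ℝ) : ℂ)) =
      ∑ m ∈ Icc 1 N, α m * f (b + m) := by
    intro f
    have e1 : ∑ n ∈ S, (u n * f n) * ((v (x - Real.log n) : ℝ) : ℂ) =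
        ∑ n ∈ S.filter (fun n : ℕ => v (x - Real.log n) ≠ 0), (u n * f n) * ((v (x - Real.log n) : ℝ) : ℂ) := by
      rw [sum_filter]
      apply sum_congr rfl
      intro n _
      split_ifs with h2
      · rfl
      · rw [not_not.1 h2]; simp
    have e2 : ∑ m ∈ Icc 1 N, α m * f (b + m) =
        ∑ m ∈ (Icc 1 N).filter (fun m => b + m ∈ S ∧ v (x - Real.log ((b + m : ℕ) : ℝ)) ≠ 0),
          α m * f (b + m) := by
      rw [sum_filter]
      apply sum_congr rfl
      intro m _
      split_ifs with h2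
      · rfl
      · rw [hα]
        simp only
        split_ifs with h3
        · have : v (x - Real.log ((b + m : ℕ) : ℝ)) = 0 := by
            by_contra hc
            exact h2 ⟨h3, hc⟩
          rw [this]; simp
        · simp
    rw [e1, e2]
    refine sum_nbij' (fun n => n - b) (fun m => b + m) ?_ ?_ ?_ ?_ ?_
    · intro n hn
      rw [mem_filter] at hn
      obtain ⟨h3, h4, _⟩ := hwin n (hS n hn.1) hn.2
      rw [mem_filter, mem_Icc]
      have h5 : b + (n - b) = n := by omega
      rw [h5]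
      exact ⟨⟨by omega, by omega⟩, hn⟩
    · intro m hm
      rw [mem_filter] at hm
      rw [mem_filter]
      exact hm.2
    · intro n hn
      rw [mem_filter] at hn
      obtain ⟨h3, h4, _⟩ := hwin n (hS n hn.1) hn.2
      omega
    · intro m _
      omega
    · intro n hn
      rw [mem_filter] at hn
      obtain ⟨h3, h4, _⟩ := hwin n (hS n hn.1) hn.2
      have h5 : b + (n - b) = n := by omega
      rw [hα]
      simp only
      rw [h5, if_pos hn.1]
      ring
  have hsum : ∑ m ∈ Icc 1 N, ‖α m‖ ^ 2 = ∑ n ∈ S, ‖u n‖ ^ 2 * v (x - Real.log n) ^ 2 := by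
    have e1 : ∑ n ∈ S, ‖u n‖ ^ 2 * v (x - Real.log n) ^ 2 =
        ∑ n ∈ S.filter (fun n : ℕ => v (x - Real.log n) ≠ 0), ‖u n‖ ^ 2 * v (x - Real.log n) ^ 2 := by
      rw [sum_filter]
      apply sum_congr rfl
      intro n _
      split_ifs with h2
      · rfl
      · rw [not_not.1 h2]; simp
    have e2 : ∑ m ∈ Icc 1 N, ‖α m‖ ^ 2 =
        ∑ m ∈ (Icc 1 N).filter (fun m => b + m ∈ S ∧ v (x - Real.log ((b + m : ℕ) : ℝ)) ≠ 0),
          ‖α m‖ ^ 2 := by
      rw [sum_filter]
      apply sum_congr rfl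
      intro m _
      split_ifs with h2
      · rfl
      · rw [hα]
        simp only
        split_ifs with h3
        · have : v (x - Real.log ((b + m : ℕ) : ℝ)) = 0 := by
            by_contra hc
            exact h2 ⟨h3, hc⟩
          rw [this]; simp
        · simp
    rw [e1, e2]
    symm
    refine sum_nbij' (fun n => n - b) (fun m => b + m) ?_ ?_ ?_ ?_ ?_
    · intro n hn
      rw [mem_filter] at hn
      obtain ⟨h3, h4, _⟩ := hwin n (hS n hn.1) hn.2
      rw [mem_filter, mem_Icc]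
      have h5 : b + (n - b) = n := by omega
      rw [h5]
      exact ⟨⟨by omega, by omega⟩, hn⟩
    · intro m hm
      rw [mem_filter] at hm
      rw [mem_filter]
      exact hm.2
    · intro n hn
      rw [mem_filter] at hn
      obtain ⟨h3, h4, _⟩ := hwin n (hS n hn.1) hn.2
      omega
    · intro m _
      omega
    · intro n hn
      rw [mem_filter] at hn
      obtain ⟨h3, h4, _⟩ := hwin n (hS n hn.1) hn.2
      have h5 : b + (n - b) = n := by omega
      rw [hα]
      simp only
      rw [h5, if_pos hn.1, norm_mul, mul_pow, Complex.norm_real, Real.norm_eq_abs, sq_abs]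
  have hLS := additive_large_sieve N F α
  have e3 : ∑ q ∈ Icc 1 F, ∑ a ∈ rr q,
      ‖∑ n ∈ S, (u n * ee (n * a / q)) * ((v (x - Real.log n) : ℝ) : ℂ)‖ ^ 2 =
      ∑ f ∈ Icc 1 F, ∑ a ∈ (range f).filter (fun a => a.Coprime f),
        ‖∑ n ∈ Icc 1 N, α n * ee (n * a / f)‖ ^ 2 := by
    apply sum_congr rfl
    intro q _
    unfold rr
    apply sum_congr rfl
    intro a _
    rw [key (fun n => ee (n * a / q))]
    have e4 : ∑ m ∈ Icc 1 N, α m * ee (((b + m : ℕ) : ℝ) * a / q) =
        ee (b * a / q) * ∑ m ∈ Icc 1 N, α m * ee (m * a / q) := by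
      rw [mul_sum]
      apply sum_congr rfl
      intro m _
      have e5 : ((b + m : ℕ) : ℝ) * a / q = b * a / q + m * a / q := by push_cast; ring
      rw [e5, ls_ee_add]
      ring
    rw [e4, norm_mul, ls_norm_ee, one_mul]
  rw [e3]
  refine hLS.trans ?_
  rw [hsum, mul_sum]
  apply sum_le_sum
  intro n hn
  by_cases hvn : v (x - Real.log n) = 0
  · rw [hvn]; simp
  · obtain ⟨_, _, h5⟩ := hwin n (hS n hn) hvn
    apply mul_le_mul_of_nonneg_right _ (by positivity)
    have h6 := exp_window h0 h1 x h5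
    have h7 : (N : ℝ) ≤ 15 * h * n + 1 := by
      rw [← hA, ← hB] at h6
      linarith
    linarith

end Pool.Agent.TH823.PS
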