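import Pool.Agent.H49.G.R_seed8.TH823.PS.Major

set_option autoImplicit false

/-!
# The sum over the frequencies on the major arcs, sums shorter than the modulus
-/

open Finset MeasureTheory
open scoped Real
open Pool.Agent.Helper112 Pool.Agent.W66 Pool.Agent.W66L

namespace Pool.Agent.TH823.PS

/-- **the sum over the frequencies on the major arcs** -/
theorem group_ineq' {ι : Type*} (K : Finset ι) (qa : ι → (_ : ℕ) × ℕ) (β : ι → ℝ) {F X : ℕ} (hX : 0 < X)
    {s : ℝ} (hs : s ≤ Real.log X)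
    (hq : ∀ k ∈ K, qa k ∈ (Icc 1 F).sigma (fun q => rr q))
    (hsep : ∀ k ∈ K, ∀ l ∈ K, k ≠ l → qa k = qa l → ∃ j : ℤ, j ≠ 0 ∧ β k - β l = j / X)
    {h : ℝ} (h0 : 0 < h) (S : Finset ℕ) (c : ℕ → ℂ) :
    ∑ k ∈ K, ‖WI h s (β k) S (fun n => c n * ee (n * (qa k).2 / (qa k).1))‖ ^ 2 ≤
      X * ∫ x in Set.Iic s, Real.exp x * EE h F S c x := by
  classical
  have hX0 : (0 : ℝ) < X := by exact_mod_cast hX
  set G : (_ : ℕ) × ℕ → ℝ → ℂ := fun t x => ggC h S (fun n => c n * ee (n * t.2 / t.1)) x with hG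
  set I : ι → ℂ := fun k => WI h s (β k) S (fun n => c n * ee (n * (qa k).2 / (qa k).1)) with hI
  set T : ℝ := ∑ k ∈ K, ‖I k‖ ^ 2 with hT
  change T ≤ _
  set 𝒬 := (Icc 1 F).sigma (fun q => rr q) with h𝒬
  set Fr : (_ : ℕ) × ℕ → ℝ → ℂ := fun t x =>
    ∑ k ∈ K.filter (fun k => qa k = t), (starRingEnd ℂ) (I k) * Ph (β k) x with hFr
  have hIint : ∀ k ∈ K, Integrable (fun x => (starRingEnd ℂ) (I k) * (Ph (β k) x * G (qa k) x))
      (volume.restrict (Set.Iic s)) := by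
    intro k _
    apply Integrable.const_mul
    apply Integrable.integrableOn
    apply ((Ph_cont (β k)).mul (ggC_continuous h S _)).integrable_of_hasCompactSupport
    exact HasCompactSupport.mul_left (ggC_compact h0 S _)
  have e1 : (T : ℂ) = ∫ x in Set.Iic s, ∑ t ∈ 𝒬, Fr t x * G t x := by
    have e2 : ∀ x, ∑ t ∈ 𝒬, Fr t x * G t x =
        ∑ k ∈ K, (starRingEnd ℂ) (I k) * (Ph (β k) x * G (qa k) x) := by
      intro x
      rw [← sum_fiberwise_of_maps_to hq]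
      apply sum_congr rfl
      intro t _
      rw [hFr]
      simp only
      rw [sum_mul]
      apply sum_congr rfl
      intro k hk
      rw [mem_filter] at hk
      rw [hk.2]
      ring
    simp only [e2]
    rw [integral_finsetSum _ hIint, hT]
    push_cast
    apply sum_congr rfl
    intro k _
    rw [integral_const_mul]
    change _ = (starRingEnd ℂ) (I k) * I k
    rw [Complex.conj_mul']
  have hT0 : 0 ≤ T := sum_nonneg fun _ _ => by positivity
  have hgr : ∀ t, IntegrableOn (fun x => Real.exp (-x) * ‖Fr t x‖ ^ 2) (Set.Iic s) ∧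
      ∫ x in Set.Iic s, Real.exp (-x) * ‖Fr t x‖ ^ 2 ≤ X * ∑ k ∈ K.filter (fun k => qa k = t), ‖I k‖ ^ 2 := by
    intro t
    have := group_orth (K.filter (fun k => qa k = t)) β (fun k => (starRingEnd ℂ) (I k)) hX (by
      intro k hk l hl hkl
      rw [mem_filter] at hk hl
      exact hsep k hk.1 l hl.1 hkl (hk.2.trans hl.2.symm))
    simp only [RCLike.norm_conj] at this
    have hsub : Set.Iic s ⊆ Set.Iic (Real.log X) := Set.Iic_subset_Iic.2 hs
    refine ⟨this.1.mono_set hsub, ?_⟩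
    refine le_trans ?_ this.2.le
    exact setIntegral_mono_set this.1 (Filter.Eventually.of_forall fun x =>
      mul_nonneg (Real.exp_pos _).le (by positivity)) (Filter.Eventually.of_forall hsub)
  have hEE : ∀ x, EE h F S c x = ∑ t ∈ 𝒬, ‖G t x‖ ^ 2 := by
    intro x
    unfold EE
    rw [h𝒬, sum_sigma]
  have hpt : ∀ x, ‖∑ t ∈ 𝒬, Fr t x * G t x‖ ≤
      X / 2 * (Real.exp x * EE h F S c x) + 1 / (2 * X) * ∑ t ∈ 𝒬, Real.exp (-x) * ‖Fr t x‖ ^ 2 := by
    intro x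
    refine (norm_sum_le _ _).trans ?_
    rw [hEE, mul_sum, mul_sum, mul_sum, ← sum_add_distrib]
    apply sum_le_sum
    intro t _
    rw [norm_mul]
    have hex : Real.exp x * Real.exp (-x) = 1 := by rw [← Real.exp_add]; simp
    have hx0 := Real.exp_pos x
    have hx1 := Real.exp_pos (-x)
    -- 2 a b ≤ a² w + b² / w with w = X exp x
    set w : ℝ := X * Real.exp x with hw
    have hw0 : 0 < w := by positivity
    have hwi : Real.exp (-x) / X = 1 / w := by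
      rw [Real.exp_neg, hw]; field_simp
    have key : ‖Fr t x‖ * ‖G t x‖ ≤ w / 2 * ‖G t x‖ ^ 2 + 1 / (2 * w) * ‖Fr t x‖ ^ 2 := by
      have h1 : 0 ≤ (w * ‖G t x‖ - ‖Fr t x‖) ^ 2 := sq_nonneg _
      have h2 : w / 2 * ‖G t x‖ ^ 2 + 1 / (2 * w) * ‖Fr t x‖ ^ 2 - ‖Fr t x‖ * ‖G t x‖ =
          (w * ‖G t x‖ - ‖Fr t x‖) ^ 2 / (2 * w) := by field_simp; ring
      have h3 : 0 ≤ (w * ‖G t x‖ - ‖Fr t x‖) ^ 2 / (2 * w) := by positivity
      linarith
    have e4 : X / 2 * (Real.exp x * ‖G t x‖ ^ 2) = w / 2 * ‖G t x‖ ^ 2 := by rw [hw]; ring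
    have e5 : 1 / (2 * X) * (Real.exp (-x) * ‖Fr t x‖ ^ 2) = 1 / (2 * w) * ‖Fr t x‖ ^ 2 := by
      have : 1 / (2 * (X : ℝ)) * (Real.exp (-x) * ‖Fr t x‖ ^ 2) = 1 / 2 * (Real.exp (-x) / X) * ‖Fr t x‖ ^ 2 := by
        field_simp
      rw [this, hwi]; field_simp
    rw [e4, e5]
    exact key
  have hI1 : IntegrableOn (fun x => X / 2 * (Real.exp x * EE h F S c x)) (Set.Iic s) :=
    (expEE_int h0 F S c s).const_mul _
  have hI2 : IntegrableOn (fun x => 1 / (2 * (X : ℝ)) * ∑ t ∈ 𝒬, Real.exp (-x) * ‖Fr t x‖ ^ 2) (Set.Iic s) :=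
    (integrable_finsetSum _ fun t _ => (hgr t).1).const_mul _
  have h1 : T ≤ ∫ x in Set.Iic s, (X / 2 * (Real.exp x * EE h F S c x) +
      1 / (2 * X) * ∑ t ∈ 𝒬, Real.exp (-x) * ‖Fr t x‖ ^ 2) := by
    have : T = ‖(T : ℂ)‖ := by rw [Complex.norm_real, Real.norm_of_nonneg hT0]
    rw [this, e1]
    exact norm_integral_le_of_norm_le (hI1.add hI2) (Filter.Eventually.of_forall hpt)
  rw [integral_add hI1 hI2, integral_const_mul, integral_const_mul,
    integral_finsetSum _ (fun t _ => (hgr t).1)] at h1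
  have h2 : ∑ t ∈ 𝒬, ∫ x in Set.Iic s, Real.exp (-x) * ‖Fr t x‖ ^ 2 ≤ X * T := by
    refine (sum_le_sum (fun t _ => (hgr t).2)).trans (le_of_eq ?_)
    rw [← mul_sum, sum_fiberwise_of_maps_to hq]
  have h4 := mul_le_mul_of_nonneg_left h2 (by positivity : 0 ≤ 1 / (2 * (X : ℝ)))
  have h3 : 1 / (2 * (X : ℝ)) * (X * T) = T / 2 := by field_simp
  rw [h3] at h4
  linarith

end Pool.Agent.TH823.PS
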