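import Pool.Agent.H49.G.R_seed8.W66.LE

set_option autoImplicit false

/-!
# The multiplier inequality: Plancherel for sums of triangular windows in logarithmic scale
-/

open Complex Filter Topology Set MeasureTheory Metric
open scoped Real FourierTransform

namespace Pool.Agent.TH823.PS

open Pool.Agent.W66 Pool.Agent.W66L

/-- the multiplier -/
noncomputable def mult (W : ℝ) (P : Finset ℕ) (w : ℕ → ℂ) (ξ : ℝ) : ℂ :=
  (W : ℂ) - ∑ p ∈ P, w p * cexp (-(((2 * π * ξ * Real.log p : ℝ) : ℂ) * I))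

/-- the coefficients after the application of the multiplier -/
noncomputable def gco (W : ℝ) (P : Finset ℕ) (w : ℕ → ℂ) (S : Finset ℕ) (c : ℕ → ℂ) (k : ℕ) : ℂ :=
  (if k ∈ S then (W : ℂ) * c k else 0) -
    ∑ p ∈ P, if p ∣ k ∧ k / p ∈ S then w p * c (k / p) else 0

lemma gco_eq {W : ℝ} {P : Finset ℕ} {w : ℕ → ℂ} {S K : Finset ℕ} (c : ℕ → ℂ)
    (hP : ∀ p ∈ P, 0 < p) (hS : ∀ s ∈ S, 0 < s) (hSK : ∀ s ∈ S, s ∈ K)
    (hPK : ∀ s ∈ S, ∀ p ∈ P, p * s ∈ K) (h x : ℝ) :
    ggC h K (gco W P w S c) x =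
      (W : ℂ) * ggC h S c x - ∑ p ∈ P, w p * ggC h S c (x - Real.log p) := by
  unfold ggC gco
  simp only [sub_mul]
  rw [Finset.sum_sub_distrib]
  congr 1
  · rw [Finset.mul_sum]
    have h1 : ∀ l, (if l ∈ S then (W : ℂ) * c l else 0) * triC h (x - Real.log l) =
        if l ∈ S then (W : ℂ) * (c l * triC h (x - Real.log l)) else 0 := by
      intro l
      split_ifs
      · ring
      · ring
    simp only [h1]
    rw [← Finset.sum_filter]
    apply Finset.sum_congr _ (fun _ _ => rfl)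
    ext s
    rw [Finset.mem_filter]
    exact ⟨fun hs => hs.2, fun hs => ⟨hSK s hs, hs⟩⟩
  · simp only [Finset.sum_mul]
    rw [Finset.sum_comm]
    apply Finset.sum_congr rfl
    intro p hp
    rw [Finset.mul_sum]
    have h1 : ∀ l, (if p ∣ l ∧ l / p ∈ S then w p * c (l / p) else 0) *
        triC h (x - Real.log l) = if p ∣ l ∧ l / p ∈ S then
          (w p * c (l / p)) * triC h (x - Real.log l) else 0 := by
      intro l
      split_ifs
      · ring
      · ring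
    simp only [h1]
    rw [← Finset.sum_filter]
    have hp0 := hP p hp
    refine Finset.sum_nbij' (fun k => k / p) (fun s => p * s) ?_ ?_ ?_ ?_ ?_
    · intro k hk
      rw [Finset.mem_filter] at hk
      exact hk.2.2
    · intro s hs
      rw [Finset.mem_filter]
      refine ⟨hPK s hs p hp, dvd_mul_right p s, ?_⟩
      rw [Nat.mul_div_cancel_left s hp0]
      exact hs
    · intro k hk
      rw [Finset.mem_filter] at hk
      exact Nat.mul_div_cancel' hk.2.1
    · intro s _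
      exact Nat.mul_div_cancel_left s hp0
    · intro k hk
      rw [Finset.mem_filter] at hk
      have hk0 : 0 < k / p := hS _ hk.2.2
      have h3 : Real.log k = Real.log p + Real.log ((k / p : ℕ) : ℝ) := by
        conv_lhs => rw [← Nat.mul_div_cancel' hk.2.1]
        push_cast
        rw [Real.log_mul (by exact_mod_cast hp0.ne') (by exact_mod_cast hk0.ne')]
      rw [h3]
      have h4 : x - (Real.log p + Real.log ((k / p : ℕ) : ℝ)) =
        x - Real.log p - Real.log ((k / p : ℕ) : ℝ) := by ring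
      rw [h4]
      ring

lemma ggC_memLp {h : ℝ} (hh : 0 < h) (S : Finset ℕ) (c : ℕ → ℂ) : MemLp (ggC h S c) 2 :=
  (ggC_continuous h S c).memLp_of_hasCompactSupport (ggC_compact hh S c)

lemma ggC_sq_integrable {h : ℝ} (hh : 0 < h) (S : Finset ℕ) (c : ℕ → ℂ) :
    Integrable fun x => ‖ggC h S c x‖ ^ 2 :=
  (memLp_two_iff_integrable_sq_norm (ggC_memLp hh S c).1).1 (ggC_memLp hh S c)

lemma bbC_sq_integrable (h : ℝ) (S : Finset ℕ) (c : ℕ → ℂ) :
    Integrable fun x => ‖bbC h S c x‖ ^ 2 :=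
  (memLp_two_iff_integrable_sq_norm (bbC_memLp h S c).1).1 (bbC_memLp h S c)

lemma four_gco {W : ℝ} {P : Finset ℕ} {w : ℕ → ℂ} {S K : Finset ℕ} (c : ℕ → ℂ)
    (hP : ∀ p ∈ P, 0 < p) (hS : ∀ s ∈ S, 0 < s) (hSK : ∀ s ∈ S, s ∈ K)
    (hPK : ∀ s ∈ S, ∀ p ∈ P, p * s ∈ K) {h : ℝ} (hh : 0 < h) (ξ : ℝ) :
    𝓕 (ggC h K (gco W P w S c)) ξ = mult W P w ξ * 𝓕 (ggC h S c) ξ := by
  have h1 : ggC h K (gco W P w S c) = fun x =>
      (W : ℂ) * ggC h S c x + (-1 : ℂ) * ∑ p ∈ P, w p * ggC h S c (x - Real.log p) := by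
    ext x
    rw [gco_eq c hP hS hSK hPK]
    ring
  have hi := ggC_integrable hh S c
  have h2 : Integrable fun x => ∑ p ∈ P, w p * ggC h S c (x - Real.log p) :=
    integrable_finsetSum _ fun p _ => (hi.comp_sub_right (Real.log p)).const_mul _
  have h3 := four_sum hi P w (fun p => Real.log p) ξ
  rw [h1, four_eq]
  have h4 : ∀ v : ℝ, cexp (-(((2 * π * ξ * v : ℝ) : ℂ) * I)) *
      ((W : ℂ) * ggC h S c v + (-1 : ℂ) * ∑ p ∈ P, w p * ggC h S c (v - Real.log p)) =
      (W : ℂ) * (cexp (-(((2 * π * ξ * v : ℝ) : ℂ) * I)) * ggC h S c v) +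
      (-1 : ℂ) * (cexp (-(((2 * π * ξ * v : ℝ) : ℂ) * I)) *
        ∑ p ∈ P, w p * ggC h S c (v - Real.log p)) := by
    intro v; ring
  simp only [h4]
  have hb : ∀ f : ℝ → ℂ, Integrable f → Integrable fun v : ℝ =>
      cexp (-(((2 * π * ξ * v : ℝ) : ℂ) * I)) * f v := by
    intro f hf
    refine hf.bdd_mul (c := 1) (by fun_prop) (Eventually.of_forall fun v => ?_)
    rw [show -(((2 * π * ξ * v : ℝ) : ℂ) * I) = ((-(2 * π * ξ * v) : ℝ) : ℂ) * I by push_cast; ring,
      Complex.norm_exp_ofReal_mul_I]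
  rw [integral_add ((hb _ hi).const_mul _) ((hb _ h2).const_mul _), integral_const_mul,
    integral_const_mul, ← four_eq, ← four_eq, h3]
  unfold mult
  ring

lemma four_gg {h : ℝ} (hh : 0 < h) (S : Finset ℕ) (c : ℕ → ℂ) (ξ : ℝ) :
    𝓕 (ggC h S c) ξ = 𝓕 (boxC h) ξ * 𝓕 (bbC h S c) ξ := by
  have h1 : 𝓕 (ggC h S c) ξ =
      (∑ l ∈ S, c l * cexp (-(((2 * π * ξ * Real.log l : ℝ) : ℂ) * I))) * 𝓕 (boxC h) ξ ^ 2 := by
    rw [← four_triC hh, ← four_sum (triC_integrable hh)]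
    rfl
  have h2 : 𝓕 (bbC h S c) ξ =
      (∑ l ∈ S, c l * cexp (-(((2 * π * ξ * Real.log l : ℝ) : ℂ) * I))) * 𝓕 (boxC h) ξ := by
    rw [← four_sum (boxC_integrable h)]
    rfl
  rw [h1, h2]
  ring

lemma four_cont {f : ℝ → ℂ} (hf : Integrable f) : Continuous (𝓕 f) :=
  VectorFourier.fourierIntegral_continuous (L := innerₗ ℝ) Real.continuous_fourierChar
    continuous_inner hf

/-- **the multiplier inequality** -/
theorem planch {W : ℝ} {P : Finset ℕ} {w : ℕ → ℂ} {S K : Finset ℕ} (c : ℕ → ℂ)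
    (hP : ∀ p ∈ P, 0 < p) (hS : ∀ s ∈ S, 0 < s) (hSK : ∀ s ∈ S, s ∈ K)
    (hPK : ∀ s ∈ S, ∀ p ∈ P, p * s ∈ K) {h κ Ξ : ℝ} (hh : 0 < h) (hκ : 0 < κ) (hΞ : 0 < Ξ)
    (hm : ∀ ξ : ℝ, |ξ| ≤ Ξ → κ ≤ ‖mult W P w ξ‖) :
    ∫ x, ‖ggC h S c x‖ ^ 2 ≤ (1 / κ) ^ 2 * (∫ x, ‖ggC h K (gco W P w S c) x‖ ^ 2) +
      (1 / (h * Ξ)) ^ 2 * (∫ x, ‖bbC h S c x‖ ^ 2) := by
  have hg := ggC_memLp hh S c
  have hG := ggC_memLp hh K (gco W P w S c)
  have hb := bbC_memLp h S c
  have p1 := Pool.Agent.Helper76.NormalHP.plancherel_lintegral _ (ggC_integrable hh S c) hg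
  have p2 := Pool.Agent.Helper76.NormalHP.plancherel_lintegral _
    (ggC_integrable hh K (gco W P w S c)) hG
  have p3 := Pool.Agent.Helper76.NormalHP.plancherel_lintegral _ (bbC_integrable h S c) hb
  have key : ∫⁻ x, ‖ggC h S c x‖ₑ ^ 2 ≤
      ENNReal.ofReal ((1 / κ) ^ 2) * (∫⁻ x, ‖ggC h K (gco W P w S c) x‖ₑ ^ 2) +
      ENNReal.ofReal ((1 / (h * Ξ)) ^ 2) * (∫⁻ x, ‖bbC h S c x‖ₑ ^ 2) := by
    rw [← p1, ← p2, ← p3, ← lintegral_const_mul' _ _ (by simp),
      ← lintegral_const_mul' _ _ (by simp)]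
    rw [← lintegral_add_left
      (((four_cont (ggC_integrable hh K (gco W P w S c))).measurable.enorm.pow_const 2).const_mul _)]
    apply lintegral_mono
    intro ξ
    simp only
    rcases le_or_gt |ξ| Ξ with h1 | h1
    · refine le_trans ?_ le_self_add
      rw [four_gco c hP hS hSK hPK hh, enorm_mul, mul_pow, ← mul_assoc]
      have h2 : 1 ≤ ENNReal.ofReal ((1 / κ) ^ 2) * ‖mult W P w ξ‖ₑ ^ 2 := by
        rw [← ofReal_norm, ← ENNReal.ofReal_pow (norm_nonneg _),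
          ← ENNReal.ofReal_mul (by positivity), ← mul_pow]
        rw [← ENNReal.ofReal_one]
        apply ENNReal.ofReal_le_ofReal
        apply one_le_pow₀
        rw [div_mul_eq_mul_div, one_mul, le_div_iff₀ hκ, one_mul]
        exact hm ξ h1
      calc ‖𝓕 (ggC h S c) ξ‖ₑ ^ 2 = 1 * ‖𝓕 (ggC h S c) ξ‖ₑ ^ 2 := (one_mul _).symm
        _ ≤ _ := by gcongr
    · refine le_trans ?_ le_add_self
      rw [four_gg hh, enorm_mul, mul_pow]
      gcongr
      have hξ0 : ξ ≠ 0 := by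
        intro h0
        rw [h0, abs_zero] at h1
        linarith
      have h3 := norm_four_box_le hh hξ0
      rw [← ofReal_norm, ← ENNReal.ofReal_pow (norm_nonneg _)]
      apply ENNReal.ofReal_le_ofReal
      apply pow_le_pow_left₀ (norm_nonneg _)
      refine h3.trans ?_
      apply one_div_le_one_div_of_le (by positivity)
      exact mul_le_mul_of_nonneg_left h1.le hh.le
  rw [lint_sq hg, lint_sq hG, lint_sq hb, ← ENNReal.ofReal_mul (by positivity),
    ← ENNReal.ofReal_mul (by positivity), ← ENNReal.ofReal_add] at key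
  · refine (ENNReal.ofReal_le_ofReal_iff ?_).1 key
    apply add_nonneg
    · exact mul_nonneg (by positivity) (integral_nonneg fun x => by positivity)
    · exact mul_nonneg (by positivity) (integral_nonneg fun x => by positivity)
  · exact mul_nonneg (by positivity) (integral_nonneg fun x => by positivity)
  · exact mul_nonneg (by positivity) (integral_nonneg fun x => by positivity)

end Pool.Agent.TH823.PS
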