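import Pool.Agent.H49.G.R_seed8.W66.LA
import Pool.Agent.H49.G.R_seed8.Helper112.Lp.MertensLog
import Pool.Agent.H49.G.R_seed8.Helper923.HMertens

set_option autoImplicit false

/-!
# Sums over primes bounded through one sided bounds for the logarithmic derivative
-/

open Finset
open ArithmeticFunction (vonMangoldt)

namespace Pool.Agent.TH823.PS

open Pool.Agent.W66

lemma term_real (g : ℕ → ℝ) (h0 : g 0 = 0) (σ : ℝ) (n : ℕ) :
    (LSeries.term (fun n => (g n : ℂ)) (⟨σ, 0⟩ : ℂ) n).re = g n * (n : ℝ) ^ (-σ) := by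
  rcases eq_or_ne n 0 with rfl | hn
  · simp [h0]
  · rw [LSeries.term_of_ne_zero hn]
    have h1 : (⟨σ, 0⟩ : ℂ) = (σ : ℂ) := by apply Complex.ext <;> simp
    rw [h1, ← Complex.ofReal_natCast, ← Complex.ofReal_cpow (Nat.cast_nonneg n), Real.rpow_neg
      (Nat.cast_nonneg n), ← Complex.ofReal_div, Complex.ofReal_re, div_eq_mul_inv]

/-- a real series as an `LSeries` -/
lemma re_LSeries (g : ℕ → ℝ) {σ : ℝ} (h : LSeriesSummable (fun n => (g n : ℂ)) (⟨σ, 0⟩ : ℂ))
    (h0 : g 0 = 0) :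
    HasSum (fun n : ℕ => g n * (n : ℝ) ^ (-σ)) (LSeries (fun n => (g n : ℂ)) (⟨σ, 0⟩ : ℂ)).re := by
  have h2 := Complex.hasSum_re h.hasSum
  convert h2 using 1
  · ext n
    exact (term_real g h0 σ n).symm
  · rfl

lemma lam_summable {σ : ℝ} (hσ : 1 < σ) :
    LSeriesSummable (fun n => (vonMangoldt n : ℂ)) (⟨σ, 0⟩ : ℂ) :=
  ArithmeticFunction.LSeriesSummable_vonMangoldt hσ

/-- the series of the von Mangoldt function -/
lemma lam_series : ∃ C : ℝ, 0 < C ∧ ∀ σ : ℝ, 1 < σ → σ ≤ 2 →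
    ∃ V : ℝ, HasSum (fun n : ℕ => vonMangoldt n * (n : ℝ) ^ (-σ)) V ∧ V ≤ 1 / (σ - 1) + C := by
  obtain ⟨K, hK, hD⟩ := D_re
  refine ⟨K * ell 0, mul_pos hK (lt_of_lt_of_le one_pos (one_le_ell 0)), fun σ h1 h2 => ?_⟩
  refine ⟨_, re_LSeries (fun n => vonMangoldt n) (lam_summable h1) (by simp), ?_⟩
  have h3 := LSeries_eq_DD (s := (⟨σ, 0⟩ : ℂ)) h1
  rw [h3, Complex.sub_re]
  have h4 := (hD 0 σ h1 h2).1
  have h5 : (1 / ((⟨σ, 0⟩ : ℂ) - 1)).re = 1 / (σ - 1) := by
    have e : (⟨σ, 0⟩ : ℂ) - 1 = ((σ - 1 : ℝ) : ℂ) := by apply Complex.ext <;> simp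
    rw [e, ← Complex.ofReal_one, ← Complex.ofReal_div, Complex.ofReal_re]
  rw [h5]
  unfold DD
  linarith

lemma rsum {r : ℕ → ℝ} (hr : ∀ n, |r n| ≤ 1) {σ : ℝ} (hσ : 1 < σ) :
    LSeriesSummable (fun n => ((r n * vonMangoldt n : ℝ) : ℂ)) (⟨σ, 0⟩ : ℂ) := by
  refine Summable.of_norm_bounded (lam_summable hσ).norm fun n => ?_
  apply LSeries.norm_term_le
  rw [Complex.norm_real, Complex.norm_real, norm_mul, Real.norm_eq_abs]
  calc |r n| * ‖vonMangoldt n‖ ≤ 1 * ‖vonMangoldt n‖ := by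
        apply mul_le_mul_of_nonneg_right (hr n) (norm_nonneg _)
    _ = _ := one_mul _

/-- the coefficients with a logarithm in the denominator -/
noncomputable def lr (r : ℕ → ℝ) (n : ℕ) : ℝ := r n * vonMangoldt n / Real.log n

lemma lr_bound {r : ℕ → ℝ} (hr : ∀ n, |r n| ≤ 1) (n : ℕ) : |lr r n| ≤ 1 := by
  unfold lr
  rw [abs_div, abs_mul, abs_of_nonneg (ArithmeticFunction.vonMangoldt_nonneg (n := n)),
    abs_of_nonneg (Real.log_natCast_nonneg n)]
  apply div_le_one_of_le₀ _ (Real.log_natCast_nonneg n)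
  calc |r n| * vonMangoldt n ≤ 1 * vonMangoldt n :=
        mul_le_mul_of_nonneg_right (hr n) ArithmeticFunction.vonMangoldt_nonneg
    _ ≤ Real.log n := by rw [one_mul]; exact ArithmeticFunction.vonMangoldt_le_log

lemma lr_absc {r : ℕ → ℝ} (hr : ∀ n, |r n| ≤ 1) :
    LSeries.abscissaOfAbsConv (fun n => (lr r n : ℂ)) ≤ 1 := by
  apply LSeries.abscissaOfAbsConv_le_of_le_const
  refine ⟨1, fun n _ => ?_⟩
  rw [Complex.norm_real]
  exact lr_bound hr n

lemma lr_logMul {r : ℕ → ℝ} :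
    LSeries.logMul (fun n => (lr r n : ℂ)) = fun n => ((r n * vonMangoldt n : ℝ) : ℂ) := by
  ext n
  unfold LSeries.logMul lr
  rw [← Complex.natCast_log, ← Complex.ofReal_mul]
  congr 1
  by_cases h : Real.log n = 0
  · rw [h]
    have h2 : vonMangoldt n = 0 := by
      have := ArithmeticFunction.vonMangoldt_le_log (n := n)
      have h3 := ArithmeticFunction.vonMangoldt_nonneg (n := n)
      linarith
    rw [h2]; simp
  · field_simp

/-- the mean value argument -/
lemma mv {r : ℕ → ℝ} (hr : ∀ n, |r n| ≤ 1) {σ₂ σ₁ B : ℝ} (h1 : 1 < σ₂) (h12 : σ₂ < σ₁)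
    (hB : ∀ σ, σ₂ ≤ σ → σ ≤ σ₁ → (∑' n : ℕ, r n * vonMangoldt n * (n : ℝ) ^ (-σ)) ≤ B) :
    (LSeries (fun n => (lr r n : ℂ)) (⟨σ₂, 0⟩ : ℂ)).re -
      (LSeries (fun n => (lr r n : ℂ)) (⟨σ₁, 0⟩ : ℂ)).re ≤ B * (σ₁ - σ₂) := by
  set Φ : ℝ → ℝ := fun σ => (LSeries (fun n => (lr r n : ℂ)) (⟨σ, 0⟩ : ℂ)).re with hΦ
  have hd : ∀ σ : ℝ, 1 < σ → HasDerivAt Φ (-(∑' n : ℕ, r n * vonMangoldt n * (n : ℝ) ^ (-σ))) σ := by
    intro σ hσ
    have habs : LSeries.abscissaOfAbsConv (fun n => (lr r n : ℂ)) < ((⟨σ, 0⟩ : ℂ).re : EReal) := by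
      refine (lr_absc hr).trans_lt ?_
      exact_mod_cast hσ
    have h2 := LSeries_hasDerivAt habs
    rw [lr_logMul] at h2
    have e : (⟨σ, 0⟩ : ℂ) = (σ : ℂ) := by apply Complex.ext <;> simp
    rw [e] at h2
    have h3 := h2.real_of_complex
    have h4 := (re_LSeries (fun n => r n * vonMangoldt n) (rsum hr hσ) (by simp)).tsum_eq
    rw [h4, e]
    rw [Complex.neg_re] at h3
    convert h3 using 1
    ext y
    rw [hΦ]
    simp only
    have e2 : (⟨y, 0⟩ : ℂ) = (y : ℂ) := by apply Complex.ext <;> simp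
    rw [e2]
  have hc : ContinuousOn Φ (Set.Icc σ₂ σ₁) := fun x hx =>
    (hd x (lt_of_lt_of_le h1 hx.1)).continuousAt.continuousWithinAt
  obtain ⟨c, hc1, hc2⟩ := exists_hasDerivAt_eq_slope Φ
    (fun σ => -(∑' n : ℕ, r n * vonMangoldt n * (n : ℝ) ^ (-σ))) h12 hc
    (fun x hx => hd x (lt_trans h1 hx.1))
  have h5 := hB c hc1.1.le hc1.2.le
  have h6 : 0 < σ₁ - σ₂ := by linarith
  rw [eq_div_iff h6.ne'] at hc2
  have h7 : Φ σ₂ - Φ σ₁ = (∑' n : ℕ, r n * vonMangoldt n * (n : ℝ) ^ (-c)) * (σ₁ - σ₂) := by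
    linarith
  show Φ σ₂ - Φ σ₁ ≤ _
  rw [h7]
  exact mul_le_mul_of_nonneg_right h5 h6.le

lemma nonprime_series : ∃ C : ℝ, 0 ≤ C ∧
    HasSum (fun n : ℕ => (if n.Prime then 0 else vonMangoldt n) / n) C := by
  have h := ArithmeticFunction.vonMangoldt.summable_residueClass_non_primes_div (1 : ZMod 1)
  have h2 : Summable (fun n : ℕ => (if n.Prime then 0 else vonMangoldt n) / (n : ℝ)) := by
    refine h.congr fun n => ?_
    congr 1
    split_ifs
    · rfl
    · unfold ArithmeticFunction.vonMangoldt.residueClass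
      rw [Set.indicator_of_mem]
      exact Subsingleton.elim _ _
  refine ⟨_, ?_, h2.hasSum⟩
  apply tsum_nonneg
  intro n
  split_ifs
  · simp
  · exact div_nonneg ArithmeticFunction.vonMangoldt_nonneg (Nat.cast_nonneg n)

lemma one_sub_rpow_le {n : ℕ} (hn : 1 ≤ n) {a : ℝ} : 1 - (n : ℝ) ^ (-a) ≤ a * Real.log n := by
  have hn0 : (0 : ℝ) < n := by exact_mod_cast hn
  rw [Real.rpow_def_of_pos hn0]
  have := Real.add_one_le_exp (Real.log n * -a)
  linarith

/-- the weight `n^(-σ₂) - n^(-σ₁)` -/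
lemma v_bounds {n : ℕ} (hn : 1 ≤ n) {σ₂ σ₁ : ℝ} (h2 : 1 ≤ σ₂) (h12 : σ₂ ≤ σ₁) :
    0 ≤ (n : ℝ) ^ (-σ₂) - (n : ℝ) ^ (-σ₁) ∧
    (n : ℝ) ^ (-σ₂) - (n : ℝ) ^ (-σ₁) ≤ (σ₁ - σ₂) * Real.log n / n ∧
    (n : ℝ) ^ (-σ₂) - (n : ℝ) ^ (-σ₁) ≤ (n : ℝ) ^ (-σ₂) ∧
    (n : ℝ) ^ (-σ₂) ≤ 1 / n ∧ 0 ≤ (n : ℝ) ^ (-σ₁) ∧
    1 / n - (n : ℝ) ^ (-σ₂) ≤ (σ₂ - 1) * Real.log n / n := by
  have hn0 : (0 : ℝ) < n := by exact_mod_cast hn
  have hn1 : (1 : ℝ) ≤ n := by exact_mod_cast hn
  have e1 : (n : ℝ) ^ (-σ₁) = (n : ℝ) ^ (-σ₂) * (n : ℝ) ^ (-(σ₁ - σ₂)) := by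
    rw [← Real.rpow_add hn0]; congr 1; ring
  have e2 : (n : ℝ) ^ (-σ₂) = 1 / n * (n : ℝ) ^ (-(σ₂ - 1)) := by
    rw [one_div, ← Real.rpow_neg_one, ← Real.rpow_add hn0]; congr 1; ring
  have p1 := Real.rpow_pos_of_pos hn0 (-σ₁)
  have p2 := Real.rpow_pos_of_pos hn0 (-σ₂)
  have i1 : (n : ℝ) ^ (-σ₂) ≤ 1 / n := by
    rw [one_div, ← Real.rpow_neg_one]
    exact Real.rpow_le_rpow_of_exponent_le hn1 (by linarith)
  have i2 : (n : ℝ) ^ (-σ₁) ≤ (n : ℝ) ^ (-σ₂) := Real.rpow_le_rpow_of_exponent_le hn1 (by linarith)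
  have i3 := one_sub_rpow_le hn (a := σ₁ - σ₂)
  have i4 := one_sub_rpow_le hn (a := σ₂ - 1)
  have i5 := Real.log_natCast_nonneg n
  refine ⟨by linarith, ?_, by linarith, i1, p1.le, ?_⟩
  · calc (n : ℝ) ^ (-σ₂) - (n : ℝ) ^ (-σ₁) = (n : ℝ) ^ (-σ₂) * (1 - (n : ℝ) ^ (-(σ₁ - σ₂))) := by
          rw [e1]; ring
      _ ≤ 1 / n * ((σ₁ - σ₂) * Real.log n) := by
          apply mul_le_mul i1 i3 _ (by positivity)
          have : (n : ℝ) ^ (-(σ₁ - σ₂)) ≤ 1 := Real.rpow_le_one_of_one_le_of_nonpos hn1 (by linarith)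
          linarith
      _ = _ := by ring
  · calc 1 / n - (n : ℝ) ^ (-σ₂) = 1 / n * (1 - (n : ℝ) ^ (-(σ₂ - 1))) := by
          rw [e2]; ring
      _ ≤ 1 / n * ((σ₂ - 1) * Real.log n) := by
          apply mul_le_mul_of_nonneg_left i4 (by positivity)
      _ = _ := by ring

lemma hasSum_ind (s : Finset ℕ) (f : ℕ → ℝ) :
    HasSum (fun n => if n ∈ s then f n else 0) (∑ p ∈ s, f p) := by
  have h : HasSum (fun n => if n ∈ s then f n else 0) (∑ b ∈ s, (if b ∈ s then f b else 0)) :=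
    hasSum_sum_of_ne_finset_zero (fun b hb => if_neg hb)
  rwa [sum_ite_mem, inter_self] at h

/-- the termwise bound -/
lemma prime_term {r : ℕ → ℝ} (hr : ∀ n, |r n| ≤ 1) {y z : ℕ} (n : ℕ) {σ₂ σ₁ : ℝ}
    (hly1 : 1 < Real.log y) (hlyz : Real.log y ≤ Real.log z) (hσ1 : σ₁ = 1 + 1 / Real.log y)
    (hσ2 : σ₂ = 1 + 1 / Real.log z) (hy : 3 ≤ y) :
    (if n ∈ (Ioc y z).filter Nat.Prime then r n / n else 0) -
      (lr r n * (n : ℝ) ^ (-σ₂) - lr r n * (n : ℝ) ^ (-σ₁)) ≤
    1 / Real.log y * (if n ∈ (Icc 1 y).filter Nat.Prime then Real.log n / n else 0) +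
    1 / Real.log z * (if n ∈ (Icc 1 z).filter Nat.Prime then Real.log n / n else 0) +
    1 / Real.log z * (vonMangoldt n * (n : ℝ) ^ (-σ₂)) +
    1 / Real.log y * (vonMangoldt n * (n : ℝ) ^ (-σ₁)) +
    2 * ((if n.Prime then 0 else vonMangoldt n) / n) := by
  have hl2 : 0.69 < Real.log 2 := by have := Real.log_two_gt_d9; linarith
  have hlz1 : 1 < Real.log z := by linarith
  have h1 : 1 < σ₂ := by
    rw [hσ2]
    have : 0 < 1 / Real.log z := by positivity
    linarith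
  have h12 : σ₂ ≤ σ₁ := by
    rw [hσ1, hσ2]
    have := one_div_le_one_div_of_le (by linarith : 0 < Real.log y) hlyz
    linarith
  rcases Nat.lt_or_ge n 2 with hn2 | hn2
  · have hL0 : vonMangoldt n = 0 := by
      interval_cases n
      · simp
      · simp
    have hnp : ¬ n.Prime := fun h => by have := h.two_le; omega
    have m1 : n ∉ (Ioc y z).filter Nat.Prime := fun h => hnp (mem_filter.1 h).2
    have m2 : n ∉ (Icc 1 y).filter Nat.Prime := fun h => hnp (mem_filter.1 h).2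
    have m3 : n ∉ (Icc 1 z).filter Nat.Prime := fun h => hnp (mem_filter.1 h).2
    rw [if_neg m1, if_neg m2, if_neg m3, if_neg hnp, hL0]
    unfold lr
    rw [hL0]
    simp
  · obtain ⟨v1, v2, v3, v4, v5, v6⟩ := v_bounds (n := n) (by omega) h1.le h12
    have hn0 : (0 : ℝ) < n := by exact_mod_cast (by omega : 0 < n)
    have hln : Real.log 2 ≤ Real.log n := Real.log_le_log (by norm_num) (by exact_mod_cast hn2)
    have hln0 : 0 < Real.log n := by linarith
    have hL := ArithmeticFunction.vonMangoldt_nonneg (n := n)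
    have hΛ0 : 0 ≤ vonMangoldt n / Real.log n := by positivity
    have pv2 : 0 ≤ (n : ℝ) ^ (-σ₂) := by positivity
    set v := (n : ℝ) ^ (-σ₂) - (n : ℝ) ^ (-σ₁) with hv
    have hlr : lr r n * (n : ℝ) ^ (-σ₂) - lr r n * (n : ℝ) ^ (-σ₁) = lr r n * v := by rw [hv]; ring
    rw [hlr]
    have hlrabs : |lr r n| ≤ vonMangoldt n / Real.log n := by
      unfold lr
      rw [abs_div, abs_mul, abs_of_nonneg hL, abs_of_pos hln0]
      apply div_le_div_of_nonneg_right _ hln0.le
      calc |r n| * vonMangoldt n ≤ 1 * vonMangoldt n := mul_le_mul_of_nonneg_right (hr n) hL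
        _ = _ := one_mul _
    have hneg : -(lr r n * v) ≤ vonMangoldt n / Real.log n * v := by
      have h0 : -(lr r n) ≤ vonMangoldt n / Real.log n := (neg_le_abs _).trans hlrabs
      rw [← neg_mul]
      exact mul_le_mul_of_nonneg_right h0 v1
    -- nonnegativity of the parts of the majorant
    have q1 : 0 ≤ 1 / Real.log y * (if n ∈ (Icc 1 y).filter Nat.Prime then Real.log n / n else 0) := by
      split_ifs <;> positivity
    have q2 : 0 ≤ 1 / Real.log z * (if n ∈ (Icc 1 z).filter Nat.Prime then Real.log n / n else 0) := by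
      split_ifs <;> positivity
    have q3 : 0 ≤ 1 / Real.log z * (vonMangoldt n * (n : ℝ) ^ (-σ₂)) := by positivity
    have q4 : 0 ≤ 1 / Real.log y * (vonMangoldt n * (n : ℝ) ^ (-σ₁)) := by positivity
    have q5 : 0 ≤ 2 * ((if n.Prime then 0 else vonMangoldt n) / n) := by
      split_ifs
      · simp
      · positivity
    by_cases hp : n.Prime
    · have hΛp : vonMangoldt n = Real.log n := ArithmeticFunction.vonMangoldt_apply_prime hp
      have hΛ1 : vonMangoldt n / Real.log n = 1 := by rw [hΛp]; exact div_self hln0.ne'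
      rw [hΛ1, one_mul] at hneg
      rcases le_or_gt n y with hny | hny
      · have m1 : n ∉ (Ioc y z).filter Nat.Prime := fun h => by
          have := (mem_Ioc.1 (mem_filter.1 h).1).1; omega
        have m2 : n ∈ (Icc 1 y).filter Nat.Prime := mem_filter.2 ⟨mem_Icc.2 ⟨by omega, hny⟩, hp⟩
        rw [if_neg m1, zero_sub]
        rw [if_pos m2] at q1 ⊢
        have t1 : v ≤ 1 / Real.log y * (Real.log n / n) := by
          refine v2.trans ?_
          have : σ₁ - σ₂ ≤ 1 / Real.log y := by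
            rw [hσ1, hσ2]
            have : 0 < 1 / Real.log z := by positivity
            linarith
          calc (σ₁ - σ₂) * Real.log n / n = (σ₁ - σ₂) * (Real.log n / n) := by ring
            _ ≤ _ := mul_le_mul_of_nonneg_right this (by positivity)
        linarith
      · rcases le_or_gt n z with hnz | hnz
        · have m1 : n ∈ (Ioc y z).filter Nat.Prime := mem_filter.2 ⟨mem_Ioc.2 ⟨hny, hnz⟩, hp⟩
          have m3 : n ∈ (Icc 1 z).filter Nat.Prime := mem_filter.2 ⟨mem_Icc.2 ⟨by omega, hnz⟩, hp⟩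
          rw [if_pos m1]
          rw [if_pos m3] at q2 ⊢
          have e1 : lr r n = r n := by
            unfold lr
            rw [mul_div_assoc, hΛ1, mul_one]
          rw [e1]
          have t0 : r n / n - r n * v = r n * (1 / n - v) := by ring
          rw [t0]
          have t1 : 1 / n - v ≤ (σ₂ - 1) * Real.log n / n + (n : ℝ) ^ (-σ₁) := by rw [hv]; linarith
          have t2 : 0 ≤ 1 / n - v := by rw [hv]; linarith
          have t3 : r n * (1 / n - v) ≤ 1 * (1 / n - v) :=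
            mul_le_mul_of_nonneg_right ((le_abs_self (r n)).trans (hr n)) t2
          have t4 : (σ₂ - 1) * Real.log n / n = 1 / Real.log z * (Real.log n / n) := by
            rw [hσ2]; ring
          have t5 : (n : ℝ) ^ (-σ₁) ≤ 1 / Real.log y * (vonMangoldt n * (n : ℝ) ^ (-σ₁)) := by
            rw [hΛp, one_div, ← mul_assoc, inv_mul_eq_div]
            have : 1 ≤ Real.log n / Real.log y := by
              rw [one_le_div (by linarith)]
              exact Real.log_le_log (by positivity) (by exact_mod_cast hny.le)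
            calc (n : ℝ) ^ (-σ₁) = 1 * (n : ℝ) ^ (-σ₁) := (one_mul _).symm
              _ ≤ _ := mul_le_mul_of_nonneg_right this v5
          linarith
        · have m1 : n ∉ (Ioc y z).filter Nat.Prime := fun h => by
            have := (mem_Ioc.1 (mem_filter.1 h).1).2; omega
          rw [if_neg m1, zero_sub]
          have t1 : v ≤ 1 / Real.log z * (vonMangoldt n * (n : ℝ) ^ (-σ₂)) := by
            rw [hΛp]
            refine v3.trans ?_
            have : 1 ≤ 1 / Real.log z * Real.log n := by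
              rw [one_div, inv_mul_eq_div, one_le_div (by linarith)]
              refine Real.log_le_log ?_ (by exact_mod_cast hnz.le)
              rcases Nat.eq_zero_or_pos z with h0 | h0
              · rw [h0] at hlz1
                simp at hlz1
                linarith
              · exact_mod_cast h0
            calc (n : ℝ) ^ (-σ₂) = 1 * (n : ℝ) ^ (-σ₂) := (one_mul _).symm
              _ ≤ (1 / Real.log z * Real.log n) * (n : ℝ) ^ (-σ₂) :=
                mul_le_mul_of_nonneg_right this pv2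
              _ = _ := by ring
          linarith
    · have m1 : n ∉ (Ioc y z).filter Nat.Prime := fun h => hp (mem_filter.1 h).2
      rw [if_neg m1, zero_sub]
      rw [if_neg hp] at q5 ⊢
      have t1 : vonMangoldt n / Real.log n * v ≤ 2 * (vonMangoldt n / n) := by
        have t2 : v ≤ 1 / n := v3.trans v4
        have t3 : vonMangoldt n / Real.log n ≤ 2 * vonMangoldt n := by
          rw [div_le_iff₀ hln0]
          have : 1 ≤ 2 * Real.log n := by linarith
          calc vonMangoldt n = vonMangoldt n * 1 := (mul_one _).symm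
            _ ≤ vonMangoldt n * (2 * Real.log n) := mul_le_mul_of_nonneg_left this hL
            _ = _ := by ring
        calc vonMangoldt n / Real.log n * v ≤ (2 * vonMangoldt n) * (1 / n) :=
              mul_le_mul t3 t2 v1 (by positivity)
          _ = _ := by ring
      linarith

/-- **sums over primes and one sided bounds** -/
theorem prime_sum : ∃ C : ℝ, 0 < C ∧ ∀ r : ℕ → ℝ, (∀ n, |r n| ≤ 1) → ∀ y z : ℕ, 3 ≤ y → y ≤ z →
    ∀ B : ℝ, 0 ≤ B → (∀ σ : ℝ, 1 + 1 / Real.log z ≤ σ → σ ≤ 1 + 1 / Real.log y →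
      (∑' n : ℕ, r n * vonMangoldt n * (n : ℝ) ^ (-σ)) ≤ B) →
    ∑ p ∈ (Ioc y z).filter Nat.Prime, r p / p ≤ B / Real.log y + C := by
  obtain ⟨C1, hC1, hm⟩ := Pool.Agent.Helper112.LP.mertens_log
  obtain ⟨C2, hC2, hV⟩ := lam_series
  obtain ⟨C3, hC3, hN⟩ := nonprime_series
  refine ⟨2 * (1 + C1) + 2 * (1 + C2) + 2 * C3 + 1, by positivity, fun r hr y z hy hyz B hB0 hB => ?_⟩
  have hl2 : 0.69 < Real.log 2 := by have := Real.log_two_gt_d9; linarith
  have hly1 : 1 < Real.log y := by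
    rw [Real.lt_log_iff_exp_lt (by positivity)]
    have := Real.exp_one_lt_d9
    have h3 : (3 : ℝ) ≤ y := by exact_mod_cast hy
    linarith
  have hlyz : Real.log y ≤ Real.log z := Real.log_le_log (by positivity) (by exact_mod_cast hyz)
  have hlz1 : 1 < Real.log z := by linarith
  rcases eq_or_lt_of_le hyz with heq | hlt
  · subst heq
    simp only [Ioc_self, filter_empty, sum_empty]
    have : 0 ≤ B / Real.log y := by positivity
    positivity
  set σ₁ : ℝ := 1 + 1 / Real.log y with hσ1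
  set σ₂ : ℝ := 1 + 1 / Real.log z with hσ2
  have hlt' : Real.log y < Real.log z := Real.log_lt_log (by positivity) (by exact_mod_cast hlt)
  have h12 : σ₂ < σ₁ := by
    rw [hσ1, hσ2]
    have := one_div_lt_one_div_of_lt (by linarith : 0 < Real.log y) hlt'
    linarith
  have h1 : 1 < σ₂ := by rw [hσ2]; have : 0 < 1 / Real.log z := by positivity
                         linarith
  have h1' : 1 < σ₁ := h1.trans h12
  have h2' : σ₁ ≤ 2 := by
    rw [hσ1]
    have : 1 / Real.log y ≤ 1 := by rw [div_le_one (by linarith)]; exact hly1.le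
    linarith
  have hmv := mv hr h1 h12 hB
  have hs2 := re_LSeries (lr r) (σ := σ₂) (by
    refine LSeriesSummable_of_abscissaOfAbsConv_lt_re ((lr_absc hr).trans_lt ?_)
    exact_mod_cast h1) (by unfold lr; simp)
  have hs1 := re_LSeries (lr r) (σ := σ₁) (by
    refine LSeriesSummable_of_abscissaOfAbsConv_lt_re ((lr_absc hr).trans_lt ?_)
    exact_mod_cast h1') (by unfold lr; simp)
  set G2 := (LSeries (fun n => (lr r n : ℂ)) (⟨σ₂, 0⟩ : ℂ)).re with hG2
  set G1 := (LSeries (fun n => (lr r n : ℂ)) (⟨σ₁, 0⟩ : ℂ)).re with hG1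
  -- the finite sum as a series
  have hfin := hasSum_ind ((Ioc y z).filter Nat.Prime) (fun n : ℕ => r n / (n : ℝ))
  have hdiff := hfin.sub (hs2.sub hs1)
  -- the majorant
  obtain ⟨V2, hV2, hV2'⟩ := hV σ₂ h1 (h12.le.trans h2')
  obtain ⟨V1, hV1, hV1'⟩ := hV σ₁ h1' h2'
  have hPy := hasSum_ind ((Icc 1 y).filter Nat.Prime) (fun n : ℕ => Real.log n / (n : ℝ))
  have hPz := hasSum_ind ((Icc 1 z).filter Nat.Prime) (fun n : ℕ => Real.log n / (n : ℝ))
  have hmaj := ((((hPy.mul_left (1 / Real.log y)).add (hPz.mul_left (1 / Real.log z))).add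
    (hV2.mul_left (1 / Real.log z))).add (hV1.mul_left (1 / Real.log y))).add (hN.mul_left 2)
  have hle := hasSum_le (fun n => prime_term hr n hly1 hlyz hσ1 hσ2 hy) hdiff hmaj
  have k1 := (abs_le.1 (hm y (by omega))).2
  have k2 := (abs_le.1 (hm z (by omega))).2
  have a1 : 1 / Real.log y * (∑ p ∈ (Icc 1 y).filter Nat.Prime, Real.log p / p) ≤ 1 + C1 := by
    rw [one_div, inv_mul_le_iff₀ (by linarith)]
    nlinarith
  have a2 : 1 / Real.log z * (∑ p ∈ (Icc 1 z).filter Nat.Prime, Real.log p / p) ≤ 1 + C1 := by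
    rw [one_div, inv_mul_le_iff₀ (by linarith)]
    nlinarith
  have b2 : V2 ≤ Real.log z + C2 := by
    have : 1 / (σ₂ - 1) = Real.log z := by rw [hσ2]; simp
    rw [this] at hV2'
    exact hV2'
  have b1 : V1 ≤ Real.log y + C2 := by
    have : 1 / (σ₁ - 1) = Real.log y := by rw [hσ1]; simp
    rw [this] at hV1'
    exact hV1'
  have a3 : 1 / Real.log z * V2 ≤ 1 + C2 := by
    rw [one_div, inv_mul_le_iff₀ (by linarith)]
    nlinarith
  have a4 : 1 / Real.log y * V1 ≤ 1 + C2 := by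
    rw [one_div, inv_mul_le_iff₀ (by linarith)]
    nlinarith
  have a5 : B * (σ₁ - σ₂) ≤ B / Real.log y := by
    rw [div_eq_mul_one_div]
    apply mul_le_mul_of_nonneg_left _ hB0
    rw [hσ1, hσ2]
    have : 0 < 1 / Real.log z := by positivity
    linarith
  linarith

end Pool.Agent.TH823.PS
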