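import Pool.Agent.H49.G.R_seed8.TH823.PS.Planch
import Pool.Agent.H49.G.R_seed8.Helper480.E25.F

set_option autoImplicit false

/-!
# The Turan-Kubilius inequality and the coefficients after the multiplier
-/

open Finset

namespace Pool.Agent.TH823.PS

/-- number of the primes in `P` dividing `k` -/
noncomputable def om (P : Finset ℕ) (k : ℕ) : ℝ := ∑ p ∈ P, if p ∣ k then (1 : ℝ) else 0

/-- number of the primes in `P` whose square divides `k` -/
noncomputable def sq2 (P : Finset ℕ) (k : ℕ) : ℝ := ∑ p ∈ P, if p ^ 2 ∣ k then (1 : ℝ) else 0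

/-- sum of reciprocals -/
noncomputable def WP (P : Finset ℕ) : ℝ := ∑ p ∈ P, (1 : ℝ) / p

lemma WP_nonneg (P : Finset ℕ) : 0 ≤ WP P := sum_nonneg fun p _ => by positivity

lemma log_step {k : ℕ} (hk : 1 ≤ k) : 1 / ((k : ℝ) + 1) ≤ Real.log (((k : ℝ) + 1) / k) := by
  have hk0 : (0 : ℝ) < k := by exact_mod_cast hk
  have h1 := Real.one_sub_inv_le_log_of_pos (x := ((k : ℝ) + 1) / k) (by positivity)
  have h2 : 1 - (((k : ℝ) + 1) / k)⁻¹ = 1 / ((k : ℝ) + 1) := by field_simp; ring
  rw [h2] at h1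
  exact h1

lemma harm_le {a N : ℕ} (ha : 1 ≤ a) (haN : a ≤ N) :
    ∑ k ∈ Ioc a N, (1 : ℝ) / k ≤ Real.log ((N : ℝ) / a) := by
  have ha0 : (0 : ℝ) < a := by exact_mod_cast ha
  induction N, haN using Nat.le_induction with
  | base => simp [div_self ha0.ne']
  | succ n hn ih =>
    have hn0 : (0 : ℝ) < n := by exact_mod_cast (by omega : 0 < n)
    rw [← Finset.insert_Ioc_right_eq_Ioc_add_one (by omega), sum_insert (by simp)]
    have h1 := log_step (k := n) (by omega)
    have h2 : Real.log (((n + 1 : ℕ) : ℝ) / a) = Real.log (((n : ℝ) + 1) / n) + Real.log ((n : ℝ) / a) := by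
      rw [← Real.log_mul (by positivity) (by positivity)]
      congr 1
      push_cast
      field_simp
    rw [h2]
    push_cast
    linarith

lemma harm_one (N : ℕ) : ∑ k ∈ Icc 1 N, (1 : ℝ) / k ≤ 1 + Real.log N := by
  rcases Nat.eq_zero_or_pos N with rfl | hN
  · simp
  · have h1 : Icc 1 N = insert 1 (Ioc 1 N) := by
      ext k; simp only [mem_Icc, mem_insert, mem_Ioc]; omega
    rw [h1, sum_insert (by simp)]
    have := harm_le (a := 1) le_rfl hN
    simp only [Nat.cast_one, div_one] at this ⊢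
    linarith

/-- summation by parts -/
lemma abel {a : ℕ → ℝ} {M N : ℕ} (hM : 1 ≤ M) (hMN : M ≤ N) :
    ∑ k ∈ Ioc M N, a k / k = (∑ k ∈ Ioc M N, a k) / N +
      ∑ m ∈ Ico M N, (∑ k ∈ Ioc M m, a k) / (m * (m + 1)) := by
  induction N, hMN using Nat.le_induction with
  | base => simp
  | succ n hn ih =>
    have hn0 : (0 : ℝ) < n := by exact_mod_cast (by omega : 0 < n)
    rw [← Finset.insert_Ioc_right_eq_Ioc_add_one (by omega), sum_insert (by simp), ih,
      sum_insert (by simp), Finset.sum_Ico_succ_top (by omega)]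
    push_cast
    field_simp
    ring

/-- mean square with the weight `1/k` -/
lemma tk_log {P : Finset ℕ} (hP : ∀ p ∈ P, p.Prime) {M N : ℕ} (hM : 1 ≤ M) (hMN : M ≤ N)
    (hPM : P.card ≤ M) :
    ∑ k ∈ Ioc M N, (om P k - WP P) ^ 2 / k ≤ 3 * WP P * (2 + Real.log N) := by
  have hW := WP_nonneg P
  have hA : ∀ m : ℕ, M ≤ m → ∑ k ∈ Ioc M m, (om P k - WP P) ^ 2 ≤ 3 * WP P * m := by
    intro m hm
    have h1 := Pool.Agent.Helper480.E25.turan P hP m
    have h2 : ∑ k ∈ Ioc M m, (om P k - WP P) ^ 2 ≤ ∑ k ∈ Icc 1 m, (om P k - WP P) ^ 2 := by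
      apply sum_le_sum_of_subset_of_nonneg
      · intro k hk
        rw [mem_Ioc] at hk
        rw [mem_Icc]
        omega
      · intro _ _ _; positivity
    have h3 : (P.card : ℝ) ≤ m := by exact_mod_cast hPM.trans hm
    unfold om WP at h2 ⊢
    unfold WP at hW
    refine h2.trans (h1.trans ?_)
    nlinarith
  rw [abel hM hMN]
  have hN0 : (0 : ℝ) < N := by exact_mod_cast (by omega : 0 < N)
  have h1 : (∑ k ∈ Ioc M N, (om P k - WP P) ^ 2) / N ≤ 3 * WP P := by
    rw [div_le_iff₀ hN0]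
    exact hA N hMN
  have h2 : ∑ m ∈ Ico M N, (∑ k ∈ Ioc M m, (om P k - WP P) ^ 2) / ((m : ℝ) * (m + 1)) ≤
      ∑ m ∈ Icc 1 N, 3 * WP P * (1 / m) := by
    calc _ ≤ ∑ m ∈ Ico M N, 3 * WP P * (1 / (m : ℝ)) := by
          apply sum_le_sum
          intro m hm
          rw [mem_Ico] at hm
          have hm0 : (0 : ℝ) < m := by exact_mod_cast (by omega : 0 < m)
          rw [div_le_iff₀ (by positivity)]
          refine (hA m hm.1).trans ?_
          have : 3 * WP P * (1 / (m : ℝ)) * (m * (m + 1)) = 3 * WP P * m + 3 * WP P := by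
            field_simp
          rw [this]
          linarith
      _ ≤ _ := by
          apply sum_le_sum_of_subset_of_nonneg
          · intro m hm
            rw [mem_Ico] at hm
            rw [mem_Icc]
            omega
          · intro _ _ _; positivity
  rw [← mul_sum] at h2
  have h3 := harm_one N
  nlinarith

lemma mult_sum {d N : ℕ} (hd : 1 ≤ d) :
    ∑ k ∈ (Icc 1 N).filter (fun k => d ∣ k), (1 : ℝ) / k ≤ 1 / d * (1 + Real.log N) := by
  have hd0 : (0 : ℝ) < d := by exact_mod_cast hd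
  have h1 : ∑ k ∈ (Icc 1 N).filter (fun k => d ∣ k), (1 : ℝ) / k ≤ ∑ j ∈ Icc 1 N, (1 : ℝ) / d * (1 / j) := by
    calc ∑ k ∈ (Icc 1 N).filter (fun k => d ∣ k), (1 : ℝ) / k =
        ∑ j ∈ ((Icc 1 N).filter (fun k => d ∣ k)).image (fun k => k / d), (1 : ℝ) / d * (1 / j) := by
          rw [sum_image]
          · apply sum_congr rfl
            intro k hk
            rw [mem_filter] at hk
            have h3 : (k : ℝ) = d * ((k / d : ℕ) : ℝ) := by
              exact_mod_cast (Nat.mul_div_cancel' hk.2).symm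
            rw [h3]
            rw [one_div_mul_one_div]
          · intro a ha b hb hab
            simp only [coe_filter, Set.mem_ofPred_eq] at ha hb
            rw [← Nat.mul_div_cancel' ha.2, ← Nat.mul_div_cancel' hb.2]
            simp only at hab
            rw [hab]
      _ ≤ _ := by
          apply sum_le_sum_of_subset_of_nonneg
          · intro j hj
            rw [mem_image] at hj
            obtain ⟨k, hk, rfl⟩ := hj
            rw [mem_filter, mem_Icc] at hk
            rw [mem_Icc]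
            exact ⟨Nat.div_pos (Nat.le_of_dvd (by omega) hk.2) (by omega),
              (Nat.div_le_self _ _).trans hk.1.2⟩
          · intro _ _ _; positivity
  refine h1.trans ?_
  rw [← mul_sum]
  exact mul_le_mul_of_nonneg_left (harm_one N) (by positivity)

lemma sum_inv_sq {P : Finset ℕ} (hP : ∀ p ∈ P, p.Prime) : ∑ p ∈ P, (1 : ℝ) / (p : ℝ) ^ 2 ≤ 1 := by
  have h1 : ∀ N : ℕ, ∑ k ∈ Ico 2 (N + 2), (1 : ℝ) / (k : ℝ) ^ 2 ≤ 1 - 1 / (N + 1) := by
    intro N
    induction N with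
    | zero => simp
    | succ n ih =>
      rw [show n + 1 + 2 = (n + 2) + 1 by ring, Finset.sum_Ico_succ_top (by omega)]
      have h2 : (1 : ℝ) / ((n + 2 : ℕ) : ℝ) ^ 2 ≤ 1 / (n + 1) - 1 / ((n + 1 : ℕ) + 1) := by
        push_cast
        rw [div_sub_div _ _ (by positivity) (by positivity), div_le_div_iff₀ (by positivity) (by positivity)]
        have : (0 : ℝ) ≤ n := Nat.cast_nonneg n
        nlinarith
      linarith
  have h2 : ∑ p ∈ P, (1 : ℝ) / (p : ℝ) ^ 2 ≤ ∑ k ∈ Ico 2 (P.sup id + 2), (1 : ℝ) / (k : ℝ) ^ 2 := by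
    apply sum_le_sum_of_subset_of_nonneg
    · intro p hp
      rw [mem_Ico]
      have h3 : p ≤ P.sup id := Finset.le_sup (f := id) hp
      exact ⟨(hP p hp).two_le, by omega⟩
    · intro _ _ _; positivity
  refine h2.trans ((h1 _).trans ?_)
  have : (0 : ℝ) ≤ 1 / (((P.sup id : ℕ) : ℝ) + 1) := by positivity
  linarith

lemma sq2_log {P : Finset ℕ} (hP : ∀ p ∈ P, p.Prime) (N : ℕ) :
    ∑ k ∈ Icc 1 N, sq2 P k ^ 2 / k ≤ 2 * (1 + Real.log N) := by
  have hlog : 0 ≤ Real.log N := Real.log_natCast_nonneg N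
  have e1 : ∀ k : ℕ, sq2 P k ^ 2 / k =
      ∑ p ∈ P, ∑ r ∈ P, if (p ^ 2 ∣ k ∧ r ^ 2 ∣ k) then (1 : ℝ) / k else 0 := by
    intro k
    unfold sq2
    rw [sq, sum_mul_sum, sum_div]
    apply sum_congr rfl
    intro p _
    rw [sum_div]
    apply sum_congr rfl
    intro r _
    by_cases h1 : p ^ 2 ∣ k <;> by_cases h2 : r ^ 2 ∣ k <;> simp [h1, h2]
  simp only [e1]
  rw [sum_comm]
  have e2 : ∀ p ∈ P, ∀ r ∈ P, ∑ k ∈ Icc 1 N, (if (p ^ 2 ∣ k ∧ r ^ 2 ∣ k) then (1 : ℝ) / k else 0) ≤
      (if p = r then 1 / (p : ℝ) ^ 2 else 1 / (p : ℝ) ^ 2 * (1 / (r : ℝ) ^ 2)) * (1 + Real.log N) := by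
    intro p hp r hr
    rw [← sum_filter]
    split_ifs with h1
    · subst h1
      have := mult_sum (d := p ^ 2) (N := N) (Nat.pos_of_ne_zero (pow_ne_zero 2 (hP p hp).ne_zero))
      simp only [and_self]
      push_cast at this
      exact this
    · have hc : (p ^ 2).Coprime (r ^ 2) := Nat.Coprime.pow 2 2 ((Nat.coprime_primes (hP p hp) (hP r hr)).2 h1)
      have := mult_sum (d := p ^ 2 * r ^ 2) (N := N) (Nat.pos_of_ne_zero (mul_ne_zero
        (pow_ne_zero 2 (hP p hp).ne_zero) (pow_ne_zero 2 (hP r hr).ne_zero)))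
      have e3 : (Icc 1 N).filter (fun k => p ^ 2 ∣ k ∧ r ^ 2 ∣ k) =
          (Icc 1 N).filter (fun k => p ^ 2 * r ^ 2 ∣ k) := by
        apply filter_congr
        intro k _
        exact ⟨fun h => hc.mul_dvd_of_dvd_of_dvd h.1 h.2,
          fun h => ⟨(dvd_mul_right _ _).trans h, (dvd_mul_left _ _).trans h⟩⟩
      rw [e3, one_div_mul_one_div]
      push_cast at this
      exact this
  have hS := sum_inv_sq hP
  have hS0 : 0 ≤ ∑ p ∈ P, (1 : ℝ) / (p : ℝ) ^ 2 := sum_nonneg fun _ _ => by positivity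
  calc _ ≤ ∑ p ∈ P, ∑ r ∈ P, ((if p = r then 1 / (p : ℝ) ^ 2 else 0) +
        1 / (p : ℝ) ^ 2 * (1 / (r : ℝ) ^ 2)) * (1 + Real.log N) := by
        apply sum_le_sum
        intro p hp
        rw [sum_comm]
        apply sum_le_sum
        intro r hr
        refine (e2 p hp r hr).trans ?_
        apply mul_le_mul_of_nonneg_right _ (by positivity)
        split_ifs
        · have : (0:ℝ) ≤ 1 / (p : ℝ) ^ 2 * (1 / (r : ℝ) ^ 2) := by positivity
          linarith
        · linarith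
    _ = ((∑ p ∈ P, (1 : ℝ) / (p : ℝ) ^ 2) + (∑ p ∈ P, (1 : ℝ) / (p : ℝ) ^ 2) ^ 2) * (1 + Real.log N) := by
        simp only [← sum_mul]
        congr 1
        simp only [sum_add_distrib]
        congr 1
        · apply sum_congr rfl
          intro p hp
          rw [sum_ite_eq, if_pos hp]
        · rw [sq, sum_mul_sum]
    _ ≤ (1 + 1) * (1 + Real.log N) := by
        apply mul_le_mul_of_nonneg_right _ (by positivity)
        have : (∑ p ∈ P, (1 : ℝ) / (p : ℝ) ^ 2) ^ 2 ≤ 1 := pow_le_one₀ hS0 hS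
        linarith
    _ = _ := by ring

end Pool.Agent.TH823.PS
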