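import Pool.Agent.H49.G.R_seed8.TH823.PS.LSall
import Pool.Agent.H49.G.R_seed8.W66.PF

set_option autoImplicit false

/-!
# Exponential sums near a fraction through the windows
-/

open Finset MeasureTheory
open scoped Real
open Pool.Agent.Helper112 Pool.Agent.W66 Pool.Agent.W66L

namespace Pool.Agent.TH823.PS

lemma ee_cont : Continuous ee := by unfold ee; fun_prop

lemma ee_sub_le (x y : ℝ) : ‖ee x - ee y‖ ≤ 2 * π * |x - y| := by
  have h1 : ee x - ee y = ee y * (Complex.exp (Complex.I * ((2 * π * (x - y) : ℝ) : ℂ)) - 1) := by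
    unfold ee
    rw [mul_sub, ← Complex.exp_add, mul_one]
    congr 2
    push_cast; ring
  have h2 : ‖ee y‖ = 1 := by
    unfold ee
    rw [show (2 * π * (y : ℂ) * Complex.I : ℂ) = ((2 * π * y : ℝ) : ℂ) * Complex.I by push_cast; ring,
      Complex.norm_exp_ofReal_mul_I]
  rw [h1, norm_mul, h2, one_mul]
  refine (Real.norm_exp_I_mul_ofReal_sub_one_le).trans (le_of_eq ?_)
  rw [Real.norm_eq_abs, abs_mul, abs_of_pos (by positivity)]

lemma norm_ee' (y : ℝ) : ‖ee y‖ = 1 := by
  unfold ee
  rw [show (2 * π * (y : ℂ) * Complex.I : ℂ) = ((2 * π * y : ℝ) : ℂ) * Complex.I by push_cast; ring,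
    Complex.norm_exp_ofReal_mul_I]

/-- the phase in the logarithmic variable -/
noncomputable def Ph (β x : ℝ) : ℂ := ((Real.exp x : ℝ) : ℂ) * ee (β * Real.exp x)

lemma Ph_cont (β : ℝ) : Continuous (Ph β) := by
  unfold Ph
  exact (Complex.continuous_ofReal.comp Real.continuous_exp).mul
    (ee_cont.comp (continuous_const.mul Real.continuous_exp))

lemma norm_Ph (β x : ℝ) : ‖Ph β x‖ = Real.exp x := by
  unfold Ph
  rw [norm_mul, norm_ee', mul_one, Complex.norm_real, Real.norm_of_nonneg (Real.exp_pos x).le]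

lemma win_cont (h β y : ℝ) : Continuous fun x => Ph β x * triC h (x - y) :=
  (Ph_cont β).mul ((triC_continuous h).comp (continuous_id.sub continuous_const))

lemma win_int {h : ℝ} (h0 : 0 < h) (β y : ℝ) : Integrable fun x => Ph β x * triC h (x - y) := by
  apply (win_cont h β y).integrable_of_hasCompactSupport
  apply HasCompactSupport.mul_left
  exact (triC_compact h0).comp_homeomorph (Homeomorph.subRight y)

lemma tri_shift_int {h : ℝ} (h0 : 0 < h) (y : ℝ) : Integrable fun x => tri h (x - y) :=
  (tri_integrable h0).comp_sub_right y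

lemma tri_shift_one {h : ℝ} (h0 : 0 < h) (y : ℝ) : ∫ x, tri h (x - y) = 1 := by
  rw [integral_sub_right_eq_self (fun x => tri h x) y, integral_tri h0]

/-- the integral over the window -/
noncomputable def wi (h s β : ℝ) (n : ℕ) : ℂ := ∫ x in Set.Iic s, Ph β x * triC h (x - Real.log n)

lemma wi_near {h s β : ℝ} (h0 : 0 < h) (h1 : h ≤ 1) {n : ℕ} (hn : 0 < n) (hs : Real.log n + h ≤ s) :
    ‖wi h s β n - n * ee (β * n)‖ ≤ 2 * h * n * (1 + 2 * π * |β| * n) := by
  have hn0 : (0 : ℝ) < n := by exact_mod_cast hn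
  have e1 : wi h s β n = ∫ x, Ph β x * triC h (x - Real.log n) := by
    unfold wi
    apply setIntegral_eq_integral_of_forall_compl_eq_zero
    intro x hx
    have hx' : s < x := not_le.1 hx
    have : triC h (x - Real.log n) = 0 := by
      unfold triC
      rw [tri_zero_of h0 (by
        refine le_trans ?_ (le_abs_self _)
        linarith)]
      simp
    rw [this, mul_zero]
  have e2 : (n : ℂ) * ee (β * n) = ∫ x, ((n : ℂ) * ee (β * n)) * triC h (x - Real.log n) := by
    rw [integral_const_mul]
    have : ∫ x, triC h (x - Real.log n) = 1 := by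
      have h2 := tri_shift_one h0 (Real.log n)
      unfold triC
      rw [integral_complex_ofReal, h2, Complex.ofReal_one]
    rw [this, mul_one]
  have e3 : wi h s β n - n * ee (β * n) =
      ∫ x, (Ph β x - (n : ℂ) * ee (β * n)) * triC h (x - Real.log n) := by
    conv_lhs => rw [e1, e2]
    rw [← integral_sub (win_int h0 β _)]
    · apply integral_congr_ae
      filter_upwards with x
      ring
    · exact ((triC_integrable h0).comp_sub_right _).const_mul _
  rw [e3]
  set D : ℝ := 2 * h * n * (1 + 2 * π * |β| * n) with hD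
  have hbd : ∀ x, ‖(Ph β x - (n : ℂ) * ee (β * n)) * triC h (x - Real.log n)‖ ≤
      D * tri h (x - Real.log n) := by
    intro x
    have ht : ‖triC h (x - Real.log n)‖ = tri h (x - Real.log n) := by
      unfold triC
      rw [Complex.norm_real, Real.norm_of_nonneg (tri_nonneg h0 _)]
    rw [norm_mul, ht]
    rcases le_or_gt h |x - Real.log n| with h2 | h2
    · rw [tri_zero_of h0 h2]; simp
    · apply mul_le_mul_of_nonneg_right _ (tri_nonneg h0 _)
      have h3 : |Real.exp x - n| ≤ 2 * h * n := by
        have e4 : Real.exp x - n = n * (Real.exp (x - Real.log n) - 1) := by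
          rw [Real.exp_sub, Real.exp_log hn0]; field_simp
        rw [e4, abs_mul, abs_of_pos hn0]
        have h4 : |Real.exp (x - Real.log n) - 1| ≤ 2 * |x - Real.log n| :=
          Real.abs_exp_sub_one_le (h2.le.trans h1)
        have h5 : |Real.exp (x - Real.log n) - 1| ≤ 2 * h := by linarith
        calc (n : ℝ) * |Real.exp (x - Real.log n) - 1| ≤ n * (2 * h) :=
              mul_le_mul_of_nonneg_left h5 hn0.le
          _ = _ := by ring
      have e5 : Ph β x - (n : ℂ) * ee (β * n) =
          ((Real.exp x - n : ℝ) : ℂ) * ee (β * Real.exp x) +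
            (n : ℂ) * (ee (β * Real.exp x) - ee (β * n)) := by
        unfold Ph; push_cast; ring
      rw [e5]
      refine (norm_add_le _ _).trans ?_
      rw [norm_mul, norm_ee', mul_one, Complex.norm_real, Real.norm_eq_abs, norm_mul,
        Complex.norm_natCast]
      have h6 : ‖ee (β * Real.exp x) - ee (β * n)‖ ≤ 2 * π * |β| * (2 * h * n) := by
        refine (ee_sub_le _ _).trans ?_
        rw [← mul_sub, abs_mul, ← mul_assoc]
        exact mul_le_mul_of_nonneg_left h3 (by positivity)
      have h7 := mul_le_mul_of_nonneg_left h6 hn0.le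
      rw [hD]
      linarith
  refine (norm_integral_le_of_norm_le ((tri_shift_int h0 _).const_mul D)
    (Filter.Eventually.of_forall hbd)).trans (le_of_eq ?_)
  rw [integral_const_mul, tri_shift_one h0, mul_one]

lemma wi_far {h s β : ℝ} (h0 : 0 < h) {n : ℕ} (hs : s ≤ Real.log n - h) :
    wi h s β n = 0 := by
  unfold wi
  rw [setIntegral_congr_fun (g := fun _ => 0) measurableSet_Iic]
  · simp
  · intro x hx
    have hx' : x ≤ s := hx
    have : triC h (x - Real.log n) = 0 := by
      unfold triC
      rw [tri_zero_of h0 (by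
        rw [abs_sub_comm]
        refine le_trans ?_ (le_abs_self _)
        linarith)]
      simp
    simp only [this, mul_zero]

lemma wi_any {h s β : ℝ} (h0 : 0 < h) (n : ℕ) : ‖wi h s β n‖ ≤ Real.exp s := by
  unfold wi
  have h1 : ‖∫ x in Set.Iic s, Ph β x * triC h (x - Real.log n)‖ ≤
      ∫ x in Set.Iic s, Real.exp s * tri h (x - Real.log n) := by
    apply norm_integral_le_of_norm_le
    · exact ((tri_shift_int h0 _).const_mul _).integrableOn
    · rw [ae_restrict_iff' measurableSet_Iic]
      filter_upwards with x hx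
      have hx' : x ≤ s := hx
      rw [norm_mul, norm_Ph]
      have ht : ‖triC h (x - Real.log n)‖ = tri h (x - Real.log n) := by
        unfold triC
        rw [Complex.norm_real, Real.norm_of_nonneg (tri_nonneg h0 _)]
      rw [ht]
      exact mul_le_mul_of_nonneg_right (Real.exp_le_exp.2 hx') (tri_nonneg h0 _)
  refine h1.trans ?_
  have h2 : ∫ x in Set.Iic s, Real.exp s * tri h (x - Real.log n) ≤
      ∫ x, Real.exp s * tri h (x - Real.log n) :=
    setIntegral_le_integral ((tri_shift_int h0 _).const_mul _)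
      (Filter.Eventually.of_forall fun x => mul_nonneg (Real.exp_pos s).le (tri_nonneg h0 _))
  refine h2.trans (le_of_eq ?_)
  rw [integral_const_mul, tri_shift_one h0, mul_one]

/-- the sum near a fraction through the windows -/
noncomputable def WI (h s β : ℝ) (S : Finset ℕ) (c : ℕ → ℂ) : ℂ :=
  ∫ x in Set.Iic s, Ph β x * ggC h S c x

lemma WI_eq {h s β : ℝ} (h0 : 0 < h) (S : Finset ℕ) (c : ℕ → ℂ) :
    WI h s β S c = ∑ n ∈ S, c n * wi h s β n := by
  unfold WI wi ggC
  have e1 : ∀ x, Ph β x * ∑ l ∈ S, c l * triC h (x - Real.log l) =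
      ∑ l ∈ S, c l * (Ph β x * triC h (x - Real.log l)) := by
    intro x
    rw [mul_sum]
    apply sum_congr rfl
    intro l _
    ring
  simp only [e1]
  rw [integral_finsetSum]
  · apply sum_congr rfl
    intro n _
    rw [integral_const_mul]
  · intro n _
    exact ((win_int h0 β _).const_mul _).integrableOn

lemma card_window {X h : ℝ} (hX : 0 ≤ X) (h0 : 0 < h) (h1 : h ≤ 1) (S : Finset ℕ) :
    (((S.filter fun n : ℕ => X * Real.exp (-h) < n ∧ (n : ℝ) ≤ X * Real.exp h).card : ℕ) : ℝ) ≤
      4 * h * X + 1 := by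
  have hsub : (S.filter fun n : ℕ => X * Real.exp (-h) < n ∧ (n : ℝ) ≤ X * Real.exp h) ⊆
      Ioc ⌊X * Real.exp (-h)⌋₊ ⌊X * Real.exp h⌋₊ := by
    intro n hn
    rw [mem_filter] at hn
    rw [mem_Ioc]
    exact ⟨(Nat.floor_lt (by positivity)).2 hn.2.1, Nat.le_floor hn.2.2⟩
  have h2 : ((S.filter fun n : ℕ => X * Real.exp (-h) < n ∧ (n : ℝ) ≤ X * Real.exp h).card : ℝ) ≤
      ((⌊X * Real.exp h⌋₊ - ⌊X * Real.exp (-h)⌋₊ : ℕ) : ℝ) := by
    have := card_le_card hsub
    rw [Nat.card_Ioc] at this
    exact_mod_cast this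
  refine h2.trans ?_
  have hle : ⌊X * Real.exp (-h)⌋₊ ≤ ⌊X * Real.exp h⌋₊ := by
    apply Nat.floor_le_floor
    apply mul_le_mul_of_nonneg_left _ hX
    rw [Real.exp_le_exp]; linarith
  rw [Nat.cast_sub hle]
  have h3 := Nat.floor_le (a := X * Real.exp h) (by positivity)
  have h4 := Nat.lt_floor_add_one (X * Real.exp (-h))
  have h5 : |Real.exp h - 1| ≤ 2 * |h| := Real.abs_exp_sub_one_le (by rw [abs_of_pos h0]; exact h1)
  have h6 : |Real.exp (-h) - 1| ≤ 2 * |-h| :=
    Real.abs_exp_sub_one_le (by rw [abs_neg, abs_of_pos h0]; exact h1)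
  rw [abs_neg, abs_of_pos h0] at h6
  rw [abs_of_pos h0] at h5
  have h7 := (abs_le.1 h5).2
  have h8 := (abs_le.1 h6).1
  have h9 : X * Real.exp h - X * Real.exp (-h) ≤ 4 * h * X := by
    have : X * (Real.exp h - Real.exp (-h)) ≤ X * (4 * h) :=
      mul_le_mul_of_nonneg_left (by linarith) hX
    linarith
  linarith

/-- **the sum near a fraction through the windows** -/
theorem sum_near {f : ℕ → ℂ} (hf : ∀ n, ‖f n‖ ≤ 1) {z X N : ℕ} (hz : 1 ≤ z) (hzX : z ≤ X) (hXN : X ≤ N)
    {h β : ℝ} (h0 : 0 < h) (h1 : h ≤ 1) (r α : ℝ) (hα : α = r + β) :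
    ‖∑ n ∈ Icc 1 X, f n * ee (n * α) - WI h (Real.log X) β (Ioc z N) (fun n => f n / n * ee (n * r))‖ ≤
      z + 4 + 18 * h * X + 4 * π * h * |β| * (X : ℝ) ^ 2 := by
  have hX0 : (0 : ℝ) < X := by exact_mod_cast (by omega : 0 < X)
  rw [WI_eq h0]
  have e1 : ∑ n ∈ Icc 1 X, f n * ee (n * α) = ∑ n ∈ Ioc 0 z, f n * ee (n * α) +
      ∑ n ∈ Ioc z N, (f n * ee (n * r)) * (if n ≤ X then ee (β * n) else 0) := by
    have e2 : Icc 1 X = Ioc 0 z ∪ Ioc z X := by
      ext n; simp only [mem_Icc, mem_union, mem_Ioc]; omega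
    rw [e2, sum_union (by
      rw [disjoint_left]; intro n hn hn'; rw [mem_Ioc] at hn hn'; omega)]
    congr 1
    have e3 : Ioc z X = (Ioc z N).filter (fun n => n ≤ X) := by
      ext n; simp only [mem_Ioc, mem_filter]; omega
    rw [e3, sum_filter]
    apply sum_congr rfl
    intro n _
    split_ifs
    · rw [hα, mul_assoc, mul_add]
      congr 1
      unfold ee
      rw [← Complex.exp_add]
      congr 1
      push_cast; ring
    · rw [mul_zero]
  rw [e1, add_sub_assoc, ← sum_sub_distrib]
  have t1 : ‖∑ n ∈ Ioc 0 z, f n * ee (n * α)‖ ≤ z := by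
    refine (norm_sum_le _ _).trans ?_
    calc ∑ n ∈ Ioc 0 z, ‖f n * ee (n * α)‖ ≤ ∑ n ∈ Ioc 0 z, (1 : ℝ) := by
          apply sum_le_sum
          intro n _
          rw [norm_mul, norm_ee', mul_one]
          exact hf n
      _ = z := by simp
  set b : ℝ := 2 * h * (1 + 2 * π * |β| * X) with hb
  have hb0 : 0 ≤ b := by positivity
  have hterm : ∀ n ∈ Ioc z N, ‖(f n * ee (n * r)) * (if n ≤ X then ee (β * n) else 0) -
      f n / n * ee (n * r) * wi h (Real.log X) β n‖ ≤
      (if n ≤ X then b else 0) +
        4 * (if (X : ℝ) * Real.exp (-h) < n ∧ (n : ℝ) ≤ X * Real.exp h then 1 else 0) := by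
    intro n hn
    rw [mem_Ioc] at hn
    have hn0 : (0 : ℝ) < n := by exact_mod_cast (by omega : 0 < n)
    have hnc : (n : ℂ) ≠ 0 := by exact_mod_cast hn0.ne'
    have e4 : (f n * ee (n * r)) * (if n ≤ X then ee (β * n) else 0) -
        f n / n * ee (n * r) * wi h (Real.log X) β n =
        (f n * ee (n * r)) * ((if n ≤ X then ee (β * n) else 0) - wi h (Real.log X) β n / n) := by
      field_simp
    rw [e4, norm_mul, norm_mul, norm_ee', mul_one]
    refine (mul_le_of_le_one_left (norm_nonneg _) (hf n)).trans ?_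
    rcases le_or_gt (n : ℝ) (X * Real.exp (-h)) with h2 | h2
    · -- near
      have h3 : (n : ℝ) ≤ X := by
        refine h2.trans ?_
        have : Real.exp (-h) ≤ 1 := by rw [Real.exp_le_one_iff]; linarith
        exact mul_le_of_le_one_right hX0.le this
      have h4 : n ≤ X := by exact_mod_cast h3
      have h5 : Real.log n + h ≤ Real.log X := by
        have := Real.log_le_log hn0 h2
        rw [Real.log_mul hX0.ne' (Real.exp_pos _).ne', Real.log_exp] at this
        linarith
      rw [if_pos h4, if_pos h4, if_neg (by intro h6; linarith [h6.1]), mul_zero, add_zero]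
      have h6 := wi_near (β := β) h0 h1 (by omega : 0 < n) h5
      have e5 : ee (β * n) - wi h (Real.log X) β n / n =
          -((wi h (Real.log X) β n - n * ee (β * n)) / n) := by
        field_simp; ring
      rw [e5, norm_neg, norm_div, Complex.norm_natCast, div_le_iff₀ hn0]
      refine h6.trans ?_
      have h7 : 1 + 2 * π * |β| * n ≤ 1 + 2 * π * |β| * X := by
        have := mul_le_mul_of_nonneg_left h3 (by positivity : 0 ≤ 2 * π * |β|)
        linarith
      have h8 := mul_le_mul_of_nonneg_left h7 (by positivity : 0 ≤ 2 * h * n)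
      refine h8.trans (le_of_eq ?_)
      rw [hb]; ring
    · rcases le_or_gt (n : ℝ) (X * Real.exp h) with h3 | h3
      · rw [if_pos (c := (X : ℝ) * Real.exp (-h) < n ∧ (n : ℝ) ≤ X * Real.exp h) ⟨h2, h3⟩, mul_one]
        have h4 : ‖(if n ≤ X then ee (β * n) else 0 : ℂ)‖ ≤ 1 := by
          split_ifs
          · rw [norm_ee']
          · rw [norm_zero]; norm_num
        have h5 : ‖wi h (Real.log X) β n / n‖ ≤ 3 := by
          rw [norm_div, Complex.norm_natCast, div_le_iff₀ hn0]
          refine (wi_any h0 n).trans ?_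
          rw [Real.exp_log hX0]
          have h6 : Real.exp h ≤ 3 := by
            have := Real.exp_le_exp.2 h1
            have := Real.exp_one_lt_d9
            linarith
          have h7 : (X : ℝ) = X * Real.exp (-h) * Real.exp h := by
            rw [mul_assoc, ← Real.exp_add]; simp
          rw [h7]
          calc X * Real.exp (-h) * Real.exp h ≤ n * Real.exp h :=
                mul_le_mul_of_nonneg_right h2.le (Real.exp_pos _).le
            _ ≤ n * 3 := mul_le_mul_of_nonneg_left h6 hn0.le
            _ = 3 * n := by ring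
        have h6 : 0 ≤ (if n ≤ X then b else 0) := by split_ifs <;> first | exact hb0 | exact le_rfl
        have h7 := norm_sub_le (if n ≤ X then ee (β * n) else 0 : ℂ) (wi h (Real.log X) β n / n)
        linarith
      · -- far
        have h4 : ¬ n ≤ X := by
          intro h5
          have h6 : (n : ℝ) ≤ X := by exact_mod_cast h5
          have : 1 ≤ Real.exp h := Real.one_le_exp h0.le
          have := mul_le_mul_of_nonneg_left this hX0.le
          linarith
        have h5 : wi h (Real.log X) β n = 0 := by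
          apply wi_far h0
          have := Real.log_le_log (by positivity) h3.le
          rw [Real.log_mul hX0.ne' (Real.exp_pos _).ne', Real.log_exp] at this
          linarith
        rw [if_neg h4, if_neg h4, h5, if_neg (by intro h6; linarith [h6.2])]
        simp
  have t2 : ‖∑ n ∈ Ioc z N, ((f n * ee (n * r)) * (if n ≤ X then ee (β * n) else 0) -
      f n / n * ee (n * r) * wi h (Real.log X) β n)‖ ≤ b * X + 4 * (4 * h * X + 1) := by
    refine (norm_sum_le _ _).trans ((sum_le_sum hterm).trans ?_)
    rw [sum_add_distrib, ← mul_sum]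
    apply add_le_add
    · rw [← sum_filter, sum_const, nsmul_eq_mul, mul_comm]
      apply mul_le_mul_of_nonneg_left _ hb0
      have h2 : (Ioc z N).filter (fun n => n ≤ X) ⊆ Ioc 0 X := by
        intro n hn; rw [mem_filter, mem_Ioc] at hn; rw [mem_Ioc]; omega
      have h3 := card_le_card h2
      rw [Nat.card_Ioc] at h3
      exact_mod_cast h3
    · apply mul_le_mul_of_nonneg_left _ (by norm_num)
      rw [← sum_filter, sum_const, nsmul_eq_mul, mul_one]
      exact card_window hX0.le h0 h1 _
  refine (norm_add_le _ _).trans ?_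
  have e5 : b * X = 2 * h * X + 4 * π * h * |β| * (X : ℝ) ^ 2 := by rw [hb]; ring
  rw [e5] at t2
  linarith

end Pool.Agent.TH823.PS
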